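import Mathlib

namespace Pool.Agent.KCM6f5b46

/-- Connectedness of a finite set with respect to a relation, expressed by partitions. -/
def Conn {α : Type*} [DecidableEq α] (adj : α → α → Prop) (S : Finset α) : Prop :=
  ∀ A ⊆ S, A.Nonempty → A ≠ S → ∃ a ∈ A, ∃ b ∈ S \ A, adj a b

variable {α : Type*} [DecidableEq α]

open Classical in
/-- The boundary of `S` inside `U`. -/
noncomputable def bdry (U : Finset α) (adj : α → α → Prop) (S : Finset α) : Finset α :=
  U.filter fun b => b ∉ S ∧ ∃ a ∈ S, adj a b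

open Classical in
lemma card_bdry_le {U : Finset α} {adj : α → α → Prop} {D : ℕ}
    (hD : ∀ a ∈ U, (U.filter (adj a)).card ≤ D) {S : Finset α} (hS : S ⊆ U) :
    (bdry U adj S).card ≤ D * S.card := by
  have h1 : bdry U adj S ⊆ S.biUnion fun a => U.filter (adj a) := by
    intro b hb
    simp only [bdry, Finset.mem_filter] at hb
    obtain ⟨hbU, _, a, ha, hab⟩ := hb
    rw [Finset.mem_biUnion]
    exact ⟨a, ha, Finset.mem_filter.2 ⟨hbU, hab⟩⟩
  calc (bdry U adj S).card ≤ (S.biUnion fun a => U.filter (adj a)).card :=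
        Finset.card_le_card h1
    _ ≤ ∑ a ∈ S, (U.filter (adj a)).card := Finset.card_biUnion_le
    _ ≤ ∑ _a ∈ S, D := Finset.sum_le_sum fun a ha => hD a (hS ha)
    _ = D * S.card := by rw [Finset.sum_const, smul_eq_mul, mul_comm]

open Classical in
/-- Weighted count of connected sets containing a given point. -/
lemma sum_conn_le (U : Finset α) (adj : α → α → Prop) (D : ℕ)
    (hD : ∀ a ∈ U, (U.filter (adj a)).card ≤ D) (e₀ : α) :
    ∑ S ∈ U.powerset.filter (fun S => e₀ ∈ S ∧ Conn adj S), ((1 / 2 : ℝ) ^ (D + 1)) ^ S.card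
      ≤ 1 := by
  set F := U.powerset.filter (fun S => e₀ ∈ S ∧ Conn adj S) with hF
  let T : Finset α → Finset (Finset α) := fun S =>
    U.powerset.filter fun T => S ⊆ T ∧ Disjoint T (bdry U adj S)
  have hdisj : ∀ S₁ ∈ F, ∀ S₂ ∈ F, S₁ ≠ S₂ → Disjoint (T S₁) (T S₂) := by
    have key : ∀ S₁ ∈ F, ∀ S₂ ∈ F, ∀ R, R ∈ T S₁ → R ∈ T S₂ → S₁ ⊆ S₂ := by
      intro S₁ h₁ S₂ h₂ R hR₁ hR₂
      simp only [hF, Finset.mem_filter, Finset.mem_powerset] at h₁ h₂
      simp only [T, Finset.mem_filter, Finset.mem_powerset] at hR₁ hR₂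
      by_contra hne
      have hA : (S₁ ∩ S₂) ≠ S₁ := fun h => hne (Finset.inter_eq_left.1 h)
      obtain ⟨a, ha, b, hb, hab⟩ := h₁.2.2 (S₁ ∩ S₂) Finset.inter_subset_left
        ⟨e₀, Finset.mem_inter.2 ⟨h₁.2.1, h₂.2.1⟩⟩ hA
      rw [Finset.mem_sdiff] at hb
      have hb2 : b ∉ S₂ := fun h => hb.2 (Finset.mem_inter.2 ⟨hb.1, h⟩)
      have hbb : b ∈ bdry U adj S₂ := by
        simp only [bdry, Finset.mem_filter]
        exact ⟨h₁.1 hb.1, hb2, a, (Finset.mem_inter.1 ha).2, hab⟩
      exact (Finset.disjoint_left.1 hR₂.2.2) (hR₁.2.1 hb.1) hbb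
    intro S₁ h₁ S₂ h₂ hne
    rw [Finset.disjoint_left]
    intro R hR₁ hR₂
    exact hne (Finset.Subset.antisymm (key S₁ h₁ S₂ h₂ R hR₁ hR₂) (key S₂ h₂ S₁ h₁ R hR₂ hR₁))
  have hcard : ∀ S ∈ F, (2 : ℝ) ^ U.card * ((1 / 2 : ℝ) ^ (D + 1)) ^ S.card ≤ (T S).card := by
    intro S hS
    simp only [hF, Finset.mem_filter, Finset.mem_powerset] at hS
    have hSU := hS.1
    set G := S ∪ bdry U adj S with hG
    have hGU : G ⊆ U := by
      apply Finset.union_subset hSU
      exact Finset.filter_subset _ _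
    have hGc : G.card ≤ (D + 1) * S.card := by
      calc G.card ≤ S.card + (bdry U adj S).card := Finset.card_union_le _ _
        _ ≤ S.card + D * S.card := by gcongr; exact card_bdry_le hD hSU
        _ = (D + 1) * S.card := by ring
    have h1 : ((U \ G).powerset).card ≤ (T S).card := by
      apply Finset.card_le_card_of_injOn (fun R => S ∪ R)
      · intro R hR
        have hR' : R ⊆ U \ G := Finset.mem_powerset.1 hR
        simp only [T, Finset.coe_filter, Set.mem_ofPred_eq, Finset.mem_powerset]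
        refine ⟨Finset.union_subset hSU (hR'.trans Finset.sdiff_subset),
          Finset.subset_union_left, ?_⟩
        rw [Finset.disjoint_union_left]
        constructor
        · rw [Finset.disjoint_left]
          intro a ha hb
          simp only [bdry, Finset.mem_filter] at hb
          exact hb.2.1 ha
        · rw [Finset.disjoint_left]
          intro a ha hb
          have := Finset.mem_sdiff.1 (hR' ha)
          exact this.2 (Finset.mem_union_right _ hb)
      · intro R₁ h₁ R₂ h₂ h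
        have hR₁ : R₁ ⊆ U \ G := Finset.mem_powerset.1 h₁
        have hR₂ : R₂ ⊆ U \ G := Finset.mem_powerset.1 h₂
        have hd : ∀ R, R ⊆ U \ G → (S ∪ R) \ S = R := by
          intro R hR
          rw [Finset.union_sdiff_cancel_left]
          rw [Finset.disjoint_left]
          intro a ha hb
          exact (Finset.mem_sdiff.1 (hR hb)).2 (Finset.mem_union_left _ ha)
        have h' : S ∪ R₁ = S ∪ R₂ := h
        rw [← hd R₁ hR₁, ← hd R₂ hR₂, h']
    rw [Finset.card_powerset, Finset.card_sdiff_of_subset hGU] at h1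
    have h2 : ((2 : ℝ) ^ (U.card - G.card)) ≤ (T S).card := by exact_mod_cast h1
    refine le_trans ?_ h2
    have h3 : G.card ≤ U.card := Finset.card_le_card hGU
    rw [← pow_mul, one_div, inv_pow]
    rw [← div_eq_mul_inv, div_le_iff₀ (by positivity)]
    calc (2 : ℝ) ^ U.card = 2 ^ (U.card - G.card) * 2 ^ G.card := by
          rw [← pow_add]; congr 1; omega
      _ ≤ 2 ^ (U.card - G.card) * 2 ^ ((D + 1) * S.card) := by
          gcongr
          norm_num
  have htot : ∑ S ∈ F, ((T S).card : ℝ) ≤ 2 ^ U.card := by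
    have h1 : ∑ S ∈ F, (T S).card = (F.biUnion T).card := by
      rw [Finset.card_biUnion]
      exact fun S₁ h₁ S₂ h₂ hne => hdisj S₁ h₁ S₂ h₂ hne
    have h2 : (F.biUnion T).card ≤ U.powerset.card := by
      apply Finset.card_le_card
      rw [Finset.biUnion_subset]
      intro S _
      exact Finset.filter_subset _ _
    rw [Finset.card_powerset] at h2
    rw [← h1] at h2
    exact_mod_cast h2
  have h5 : (2 : ℝ) ^ U.card * ∑ S ∈ F, ((1 / 2 : ℝ) ^ (D + 1)) ^ S.card ≤ 2 ^ U.card := by
    rw [Finset.mul_sum]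
    exact (Finset.sum_le_sum hcard).trans htot
  have h6 : (0 : ℝ) < 2 ^ U.card := by positivity
  nlinarith

end Pool.Agent.KCM6f5b46
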