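import Pool.Agent.KCM6f5b46.Limit

open MeasureTheory Filter Topology
open scoped NNReal ENNReal

namespace Pool.Agent.KCM6f5b46

variable {d : ℕ}

/-- Pointwise order of configurations. -/
def CLe (η ζ : Config d) : Prop := ∀ x, η x = true → ζ x = true

/-- Monotone models: more filled sites means smaller rates. -/
def Mono (K : KCM d) : Prop := ∀ x η ζ, CLe η ζ → K.rate x ζ ≤ K.rate x η

lemma FA4_mono : Mono (FA4 d) := by
  intro x η ζ h
  rw [FA4_rate, FA4_rate]
  have h1 : emptyNbrs x ζ ≤ emptyNbrs x η := by
    unfold emptyNbrs
    apply Finset.card_le_card
    intro p hp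
    rw [Finset.mem_filter] at hp ⊢
    refine ⟨hp.1, ?_⟩
    by_contra hne
    have h2 : η (nbr x p.1 p.2) = true := by simpa using hne
    rw [h _ h2] at hp
    exact absurd hp.2 (by decide)
  by_cases h2 : 4 ≤ emptyNbrs x ζ
  · rw [if_pos h2, if_pos (h2.trans h1)]
  · rw [if_neg h2]
    split_ifs <;> norm_num

section

variable {K : KCM d} (hK : Mono K)

include hK in
lemma bootStep_mono {Λ : Set (Site d)} {η ζ : Config d} (h : CLe η ζ) :
    CLe (bootStep K Λ η) (bootStep K Λ ζ) := by
  intro x hx
  unfold bootStep at hx ⊢
  split_ifs at hx with h1
  rw [if_neg]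
  · exact h x hx
  · rintro ⟨h2, h3⟩
    exact h1 ⟨h2, h3.trans_le (hK x η ζ h)⟩

include hK in
lemma bootStep_iterate_mono {Λ : Set (Site d)} {η ζ : Config d} (h : CLe η ζ) (n : ℕ) :
    CLe ((bootStep K Λ)^[n] η) ((bootStep K Λ)^[n] ζ) := by
  induction n with
  | zero => exact h
  | succ n ih =>
    rw [Function.iterate_succ_apply', Function.iterate_succ_apply']
    exact bootStep_mono hK ih

lemma bootLimit_eq_true {Λ : Set (Site d)} {η : Config d} {x : Site d} :
    bootLimit K Λ η x = true ↔ ∀ n : ℕ, (bootStep K Λ)^[n] (fillOutside Λ η) x = true := by
  unfold bootLimit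
  simp

lemma fillOutside_mono {Λ : Set (Site d)} {η ζ : Config d} (h : CLe η ζ) :
    CLe (fillOutside Λ η) (fillOutside Λ ζ) := by
  intro x hx
  unfold fillOutside at hx ⊢
  split_ifs at hx ⊢ with h1
  · exact h x hx
  · rfl

include hK in
lemma bootLimit_mono {Λ : Set (Site d)} {η ζ : Config d} (h : CLe η ζ) :
    CLe (bootLimit K Λ η) (bootLimit K Λ ζ) := by
  intro x hx
  rw [bootLimit_eq_true] at hx ⊢
  intro n
  exact bootStep_iterate_mono hK (fillOutside_mono h) n x (hx n)

lemma fillOutside_univ (η : Config d) : fillOutside Set.univ η = η := by
  funext x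
  simp [fillOutside]

lemma rate_of_closed {β : Config d} (hβ : β ∈ closedConfigs K) {x : Site d}
    (hx : β x = true) : ¬ 0 < K.rate x β := by
  have h1 : bootLimit K Set.univ β x = true := by
    rw [show bootLimit K Set.univ β = β from hβ]; exact hx
  rw [bootLimit_eq_true] at h1
  have h2 := h1 1
  rw [fillOutside_univ, Function.iterate_one] at h2
  intro h3
  unfold bootStep at h2
  rw [if_pos ⟨Set.mem_univ x, h3⟩] at h2
  exact absurd h2 (by decide)

lemma eventA_le {L : ℕ} {β η : Config d} (hη : η ∈ eventA K L β) {x : Site d}
    (hx : x ∈ box d L) (hβ : β x = true) : η x = true := by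
  have h1 := hη x hx
  rw [hβ, bootLimit_eq_true] at h1
  have h2 := h1 0
  simp only [Function.iterate_zero, id_eq, fillOutside, hx, if_true] at h2
  exact h2

include hK in
lemma update_mem_eventA {L : ℕ} {β η : Config d} (hβ : β ∈ closedConfigs K)
    (hη : η ∈ eventA K L β) {x : Site d} (hβx : β x = false) :
    Function.update η x false ∈ eventA K L β := by
  set ζ := Function.update η x false with hζ
  have hζη : CLe ζ η := by
    intro y hy
    by_cases h : y = x
    · subst h; simp [hζ] at hy
    · simpa [hζ, h] using hy
  intro y hy
  -- compare both sides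
  rw [Bool.eq_iff_iff]
  constructor
  · intro h
    have h1 := bootLimit_mono hK (Λ := box d L) hζη y h
    rwa [hη y hy] at h1
  · intro h
    rw [bootLimit_eq_true]
    have hfix : CLe (fillOutside (box d L) β) (bootStep K (box d L) (fillOutside (box d L) β)) := by
      intro z hz
      unfold bootStep
      rw [if_neg]
      · exact hz
      · rintro ⟨h1, h2⟩
        have h3 : β z = true := by
          unfold fillOutside at hz
          rwa [if_pos h1] at hz
        apply rate_of_closed hβ h3
        refine h2.trans_le (hK z β _ ?_)
        intro w hw
        unfold fillOutside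
        split_ifs
        · exact hw
        · rfl
    have hall : ∀ n : ℕ, CLe (fillOutside (box d L) β)
        ((bootStep K (box d L))^[n] (fillOutside (box d L) ζ)) := by
      intro n
      induction n with
      | zero =>
        intro z hz
        simp only [Function.iterate_zero, id_eq]
        unfold fillOutside at hz ⊢
        split_ifs at hz ⊢ with h1
        · have h2 := eventA_le hη h1 hz
          have h3 : z ≠ x := by
            rintro rfl
            rw [hβx] at hz
            exact absurd hz (by decide)
          simpa [hζ, h3] using h2
        · rfl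
      | succ n ih =>
        rw [Function.iterate_succ_apply']
        intro z hz
        exact bootStep_mono hK ih z (hfix z hz)
    intro n
    apply hall n y
    unfold fillOutside
    rw [if_pos hy]
    exact h

lemma box_finite (L : ℕ) : (box d L).Finite := by
  have : box d L = (Finset.Icc (fun _ => -(L : ℤ)) (fun _ => (L : ℤ)) : Finset (Site d)) := by
    ext x
    simp only [box, Set.mem_ofPred_eq, Finset.coe_Icc, Set.mem_Icc, Pi.le_def]
    exact ⟨fun h => ⟨fun i => (h i).1, fun i => (h i).2⟩, fun h i => ⟨h.1 i, h.2 i⟩⟩
  rw [this]
  exact Finset.finite_toSet _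

lemma eventA_local (L : ℕ) (β : Config d) : IsLocal (fun η => η ∈ eventA K L β) := by
  refine ⟨(box_finite (d := d) L).toFinset, fun η ζ h => ?_⟩
  have h1 : fillOutside (box d L) η = fillOutside (box d L) ζ := by
    funext x
    unfold fillOutside
    split_ifs with hx
    · exact h x (by simpa using hx)
    · rfl
  have h2 : bootLimit K (box d L) η = bootLimit K (box d L) ζ := by
    unfold bootLimit
    rw [h1]
  simp only [eventA, Set.mem_ofPred_eq, h2]

lemma measurableSet_of_local {B : Set (Config d)} (hB : IsLocal (fun η => η ∈ B)) :
    MeasurableSet B := by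
  classical
  obtain ⟨A, hA⟩ := hB
  have h1 : Continuous (fun η : Config d => decide (η ∈ B)) := by
    apply continuous_of_dependsOn A.finite_toSet
    intro η ζ h
    simp only [decide_eq_decide]
    exact iff_of_eq (hA h)
  have h2 : B = (fun η : Config d => decide (η ∈ B)) ⁻¹' {true} := by
    ext η; simp
  rw [h2]
  exact h1.measurable (measurableSet_singleton _)

lemma measurableSet_eventA (L : ℕ) (β : Config d) : MeasurableSet (eventA K L β) :=
  measurableSet_of_local (eventA_local L β)

end

section measure

variable {q : ℝ} (hq0 : 0 ≤ q) (hq1 : q ≤ 1)

/-- The single site measure. -/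
noncomputable def bern (q : ℝ) : Measure Bool :=
  ENNReal.ofReal (1 - q) • Measure.dirac true + ENNReal.ofReal q • Measure.dirac false

lemma piMeasure_eq : piMeasure d q = Measure.infinitePi fun _ : Site d => bern q := rfl

include hq0 hq1 in
lemma isProbabilityMeasure_bern : IsProbabilityMeasure (bern q) := by
  constructor
  rw [bern, Measure.add_apply, Measure.smul_apply, Measure.smul_apply, measure_univ,
    measure_univ, smul_eq_mul, smul_eq_mul, mul_one, mul_one,
    ← ENNReal.ofReal_add (by linarith) hq0]
  simp

include hq0 hq1 in
lemma isProbabilityMeasure_piMeasure : IsProbabilityMeasure (piMeasure d q) := by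
  have := isProbabilityMeasure_bern hq0 hq1
  rw [piMeasure_eq]
  infer_instance

lemma measurable_update_config (x : Site d) (c : Bool) :
    Measurable (fun η : Config d => Function.update η x c) := by
  refine measurable_pi_lambda _ fun y => ?_
  by_cases h : y = x
  · subst h; simp
  · simp only [Function.update_of_ne h]
    exact measurable_pi_apply y

include hq0 hq1 in
/-- Resampling the spin at `x`. -/
lemma piMeasure_resample (x : Site d) :
    ENNReal.ofReal (1 - q) • (piMeasure d q).map (fun η => Function.update η x true)
      + ENNReal.ofReal q • (piMeasure d q).map (fun η => Function.update η x false)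
      = piMeasure d q := by
  classical
  have := isProbabilityMeasure_bern hq0 hq1
  rw [piMeasure_eq]
  apply Measure.eq_infinitePi
  intro s t ht
  rw [Measure.add_apply, Measure.smul_apply, Measure.smul_apply,
    Measure.map_apply (measurable_update_config x true)
      (MeasurableSet.pi s.countable_toSet fun i _ => ht i),
    Measure.map_apply (measurable_update_config x false)
      (MeasurableSet.pi s.countable_toSet fun i _ => ht i)]
  by_cases hx : x ∈ s
  · have hpre : ∀ c : Bool, (fun η : Config d => Function.update η x c) ⁻¹' (Set.pi s t)
        = if c ∈ t x then Set.pi (s.erase x : Finset (Site d)) t else ∅ := by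
      intro c
      ext η
      split_ifs with hc
      · simp only [Set.mem_preimage, Set.mem_pi, Finset.mem_coe, Finset.mem_erase]
        constructor
        · rintro h i ⟨hix, his⟩
          have := h i his
          rwa [Function.update_of_ne hix] at this
        · intro h i his
          by_cases hix : i = x
          · subst hix; simpa using hc
          · rw [Function.update_of_ne hix]; exact h i ⟨hix, his⟩
      · simp only [Set.mem_preimage, Set.mem_pi, Finset.mem_coe, Set.mem_empty_iff_false,
          iff_false]
        intro h
        have := h x hx
        rw [Function.update_self] at this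
        exact hc this
    rw [hpre, hpre, ← Finset.mul_prod_erase s _ hx]
    have hm : (Measure.infinitePi fun _ : Site d => bern q)
        (Set.pi (s.erase x : Finset (Site d)) t) = ∏ i ∈ s.erase x, bern q (t i) :=
      Measure.infinitePi_pi _ (fun i _ => ht i)
    have hb : bern q (t x) = ENNReal.ofReal (1 - q) * (if true ∈ t x then 1 else 0)
        + ENNReal.ofReal q * (if false ∈ t x then 1 else 0) := by
      rw [bern, Measure.add_apply, Measure.smul_apply, Measure.smul_apply,
        Measure.dirac_apply' _ (ht x), Measure.dirac_apply' _ (ht x)]
      simp [Set.indicator_apply]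
    rw [hb, add_mul]
    congr 1
    · split_ifs with h
      · rw [hm]; simp
      · simp
    · split_ifs with h
      · rw [hm]; simp
      · simp
  · have hpre : ∀ c : Bool, (fun η : Config d => Function.update η x c) ⁻¹' (Set.pi s t)
        = Set.pi s t := by
      intro c
      ext η
      simp only [Set.mem_preimage, Set.mem_pi, Finset.mem_coe]
      constructor
      · intro h i his
        have hix : i ≠ x := fun h => by rw [h] at his; exact hx his
        have := h i his
        rwa [Function.update_of_ne hix] at this
      · intro h i his
        have hix : i ≠ x := fun h => by rw [h] at his; exact hx his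
        rw [Function.update_of_ne hix]
        exact h i his
    rw [hpre, hpre, Measure.infinitePi_pi _ (fun i _ => ht i), smul_eq_mul, smul_eq_mul,
      ← add_mul, ← ENNReal.ofReal_add (by linarith) hq0]
    simp

include hq0 hq1 in
lemma piMeasure_eq_resample (x : Site d) {A : Set (Config d)} (hA : MeasurableSet A) :
    piMeasure d q A = ENNReal.ofReal (1 - q) *
        piMeasure d q {η | Function.update η x true ∈ A}
      + ENNReal.ofReal q * piMeasure d q {η | Function.update η x false ∈ A} := by
  conv_lhs => rw [← piMeasure_resample hq0 hq1 x]
  rw [Measure.add_apply, Measure.smul_apply, Measure.smul_apply,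
    Measure.map_apply (measurable_update_config x true) hA,
    Measure.map_apply (measurable_update_config x false) hA]
  rfl

include hq0 hq1 in
/-- Finite energy. -/
lemma finite_energy {K : KCM d} (hK : Mono K) {β : Config d} (hβ : β ∈ closedConfigs K)
    {L : ℕ} {x : Site d} (hβx : β x = false) :
    ENNReal.ofReal q * piMeasure d q (eventA K L β)
      ≤ piMeasure d q (eventA K L β ∩ {η | η x = false}) := by
  have hmA := measurableSet_eventA (K := K) L β
  have hmx : MeasurableSet {η : Config d | η x = false} :=
    measurableSet_of_local ⟨{x}, fun η ζ h => by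
      simp only [Set.mem_ofPred_eq, h x (by simp)]⟩
  rw [piMeasure_eq_resample hq0 hq1 x (hmA.inter hmx)]
  have h1 : {η : Config d | Function.update η x false ∈ eventA K L β ∩ {η | η x = false}}
      = {η : Config d | Function.update η x false ∈ eventA K L β} := by
    ext η; simp
  rw [h1]
  refine le_trans ?_ (le_add_left (le_refl _))
  refine mul_le_mul_right ?_ _
  calc piMeasure d q (eventA K L β)
      = ENNReal.ofReal (1 - q) * piMeasure d q {η | Function.update η x true ∈ eventA K L β}
        + ENNReal.ofReal q * piMeasure d q {η | Function.update η x false ∈ eventA K L β} :=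
        piMeasure_eq_resample hq0 hq1 x hmA
    _ ≤ ENNReal.ofReal (1 - q) * piMeasure d q {η | Function.update η x false ∈ eventA K L β}
        + ENNReal.ofReal q * piMeasure d q {η | Function.update η x false ∈ eventA K L β} := by
        gcongr
        intro hη
        have := update_mem_eventA hK hβ hη hβx
        rwa [Function.update_idem] at this
    _ = piMeasure d q {η | Function.update η x false ∈ eventA K L β} := by
        rw [← add_mul, ← ENNReal.ofReal_add (by linarith) hq0]
        simp

end measure

end Pool.Agent.KCM6f5b46
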