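import Pool.Agent.KCM6f5b46.Animals

namespace Pool.Agent.KCM6f5b46

/-- Sites of the planar lattice. -/
abbrev V2 : Type := ℤ × ℤ

/-- Edges: `(v, false)` is the edge from `v` to `v + (1,0)`, `(v, true)` the edge from `v` to
`v + (0,1)`. -/
abbrev E2 : Type := V2 × Bool

/-- Right endpoint or top endpoint of an edge. -/
def tip (e : E2) : V2 := if e.2 = true then (e.1.1, e.1.2 + 1) else (e.1.1 + 1, e.1.2)

/-- The four edges of the unit square with lower left corner `v`. -/
def plaq (v : V2) : Finset E2 :=
  {(v, false), ((v.1, v.2 + 1), false), (v, true), ((v.1 + 1, v.2), true)}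

/-- Two edges are related if they belong to a common unit square. -/
def EAdj (a b : E2) : Prop := ∃ v, a ∈ plaq v ∧ b ∈ plaq v

lemma EAdj.symm {a b : E2} (h : EAdj a b) : EAdj b a := by
  obtain ⟨v, h1, h2⟩ := h
  exact ⟨v, h2, h1⟩

/-- Indicator with values in `ZMod 2`. -/
def chi (γ : Finset E2) (e : E2) : ZMod 2 := if e ∈ γ then 1 else 0

/-- Parity of the number of horizontal edges of `γ` on the ray from `v` to the right. -/
def cr (γ : Finset E2) (v : V2) : ZMod 2 :=
  ∑ e ∈ γ, if e.2 = false ∧ e.1.2 = v.2 ∧ v.1 ≤ e.1.1 then 1 else 0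

/-- Even edge sets. -/
def EvenSet (γ : Finset E2) : Prop :=
  ∀ v : V2, chi γ (v, false) + chi γ ((v.1, v.2 + 1), false) + chi γ (v, true)
    + chi γ ((v.1 + 1, v.2), true) = 0

lemma zmod2_add_self (a : ZMod 2) : a + a = 0 := by
  revert a; decide

lemma zmod2_eq_of_add {a b : ZMod 2} (h : a + b = 0) : a = b := by
  revert a b; decide

lemma zmod2_ne_zero {a : ZMod 2} (h : a ≠ 0) : a = 1 := by
  revert a; decide

lemma cr_succ (γ : Finset E2) (v : V2) :
    cr γ v = chi γ (v, false) + cr γ (v.1 + 1, v.2) := by
  unfold cr chi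
  have h1 : (if (v, false) ∈ γ then (1 : ZMod 2) else 0)
      = ∑ e ∈ γ, if e = (v, false) then 1 else 0 := by
    rw [Finset.sum_ite_eq']
  rw [h1, ← Finset.sum_add_distrib]
  apply Finset.sum_congr rfl
  rintro ⟨⟨a, b⟩, c⟩ _
  obtain ⟨x, y⟩ := v
  simp only [Prod.mk.injEq]
  by_cases hc : c = false
  · by_cases hb : b = y
    · by_cases ha : a = x
      · subst ha; simp [hb, hc]
      · by_cases hxa : x ≤ a
        · have : x + 1 ≤ a := by omega
          simp [hb, hc, ha, hxa, this]
        · have : ¬ (x + 1 ≤ a) := by omega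
          simp [ha, hxa, this]
    · simp [hb]
  · simp [hc]

lemma exists_bound (γ : Finset E2) : ∃ N : ℤ, ∀ e ∈ γ, e.1.1 < N := by
  induction γ using Finset.induction_on with
  | empty => exact ⟨0, by simp⟩
  | insert a s _ ih =>
    obtain ⟨N, hN⟩ := ih
    refine ⟨max N (a.1.1 + 1), fun e he => ?_⟩
    rw [Finset.mem_insert] at he
    rcases he with rfl | he
    · exact lt_of_lt_of_le (by omega) (le_max_right _ _)
    · exact lt_of_lt_of_le (hN e he) (le_max_left _ _)

lemma cr_eq_zero_of_large {γ : Finset E2} {N : ℤ} (hN : ∀ e ∈ γ, e.1.1 < N) {v : V2}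
    (hv : N ≤ v.1) : cr γ v = 0 := by
  unfold cr
  apply Finset.sum_eq_zero
  intro e he
  rw [if_neg]
  rintro ⟨_, _, h⟩
  have := hN e he
  omega

/-- Functions invariant under horizontal translation which vanish far to the right vanish. -/
lemma eq_zero_of_invariant {a : V2 → ZMod 2} (h : ∀ v : V2, a v = a (v.1 + 1, v.2)) {N : ℤ}
    (hN : ∀ v : V2, N ≤ v.1 → a v = 0) (v : V2) : a v = 0 := by
  have key : ∀ (n : ℕ) (v : V2), N ≤ v.1 + n → a v = 0 := by
    intro n
    induction n with
    | zero => intro v hv; exact hN v (by simpa using hv)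
    | succ n ih =>
      intro v hv
      rw [h v]
      apply ih
      push_cast at hv ⊢
      omega
  apply key (N - v.1).toNat v
  have := Int.self_le_toNat (N - v.1)
  omega

open Classical in
/-- `ZMod 2` indicator of a set of vertices. -/
noncomputable def ind (U : Set V2) (v : V2) : ZMod 2 := if v ∈ U then 1 else 0

/-- `γ` is the edge boundary of `U`. -/
def IsCut (γ : Finset E2) (U : Set V2) : Prop := ∀ e, chi γ e = ind U e.1 + ind U (tip e)

lemma IsCut.even {γ : Finset E2} {U : Set V2} (h : IsCut γ U) : EvenSet γ := by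
  intro v
  rw [h, h, h, h]
  simp only [tip]
  simp only [Bool.false_eq_true, if_false, if_true]
  generalize ind U v = a
  generalize ind U (v.1 + 1, v.2) = b
  generalize ind U (v.1, v.2 + 1) = c
  generalize ind U (v.1 + 1, v.2 + 1) = e
  revert a b c e; decide

lemma IsCut.cr_eq {γ : Finset E2} {U : Set V2} (h : IsCut γ U) {N : ℤ}
    (hN : ∀ v ∈ U, v.1 < N) (v : V2) : cr γ v = ind U v := by
  obtain ⟨M, hM⟩ := exists_bound γ
  have key := eq_zero_of_invariant (a := fun v => cr γ v + ind U v) (N := max M N) ?_ ?_ v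
  · exact zmod2_eq_of_add key
  · intro v
    rw [cr_succ, h]
    simp only [tip, Bool.false_eq_true, if_false]
    generalize ind U v = a
    generalize ind U (v.1 + 1, v.2) = b
    generalize cr γ (v.1 + 1, v.2) = c
    revert a b c; decide
  · intro v hv
    rw [cr_eq_zero_of_large hM (le_trans (le_max_left _ _) hv)]
    have : v ∉ U := fun h => by
      have h1 := hN v h
      have h2 := le_trans (le_max_right _ _) hv
      omega
    simp [ind, this]

/-- The interior of an even edge set. -/
def Wset (γ : Finset E2) : Set V2 := {v | cr γ v = 1}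

lemma ind_Wset (γ : Finset E2) (v : V2) : ind (Wset γ) v = cr γ v := by
  unfold ind Wset
  simp only [Set.mem_ofPred_eq]
  split_ifs with h
  · exact h.symm
  · by_contra h2
    exact h (zmod2_ne_zero (fun h3 => h2 h3.symm))

lemma isCut_Wset {γ : Finset E2} (h : EvenSet γ) : IsCut γ (Wset γ) := by
  obtain ⟨M, hM⟩ := exists_bound γ
  rintro ⟨v, c⟩
  rw [ind_Wset, ind_Wset]
  cases c with
  | false =>
    simp only [tip, Bool.false_eq_true, if_false]
    rw [cr_succ]
    generalize chi γ (v, false) = a
    generalize cr γ (v.1 + 1, v.2) = b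
    revert a b; decide
  | true =>
    simp only [tip, if_true]
    have key := eq_zero_of_invariant
      (a := fun v => cr γ v + cr γ (v.1, v.2 + 1) + chi γ (v, true)) (N := M) ?_ ?_ v
    · revert key
      generalize chi γ (v, true) = a
      generalize cr γ v = b
      generalize cr γ (v.1, v.2 + 1) = c
      revert a b c; decide
    · intro v
      simp only
      rw [cr_succ γ v, cr_succ γ (v.1, v.2 + 1)]
      have := h v
      revert this
      simp only
      generalize chi γ (v, false) = x1
      generalize chi γ ((v.1, v.2 + 1), false) = x2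
      generalize chi γ (v, true) = x3
      generalize chi γ ((v.1 + 1, v.2), true) = x4
      generalize cr γ (v.1 + 1, v.2) = x5
      generalize cr γ (v.1 + 1, v.2 + 1) = x6
      revert x1 x2 x3 x4 x5 x6; decide
    · intro v hv
      rw [cr_eq_zero_of_large hM hv, cr_eq_zero_of_large hM (v := (v.1, v.2 + 1)) hv]
      have : (v, true) ∉ γ := fun h => by
        have h2 := hM _ h
        simp only at h2
        omega
      simp [chi, this]

end Pool.Agent.KCM6f5b46
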