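import Mathlib

/-!
Definitions for the problem on stationary measures of kinetically constrained models (KCM).
-/

open MeasureTheory Filter Topology
open scoped NNReal ENNReal

namespace Pool.Agent.KCM6f5b46

/-- Sites of the lattice `ℤ^d`; `‖x‖` is the sup norm. -/
abbrev Site (d : ℕ) : Type := Fin d → ℤ

/-- Configurations `η ∈ {0,1}^{ℤ^d}`: `η x = true` stands for `η_x = 1` (healthy, filled) and
`η x = false` for `η_x = 0` (infected, empty). -/
abbrev Config (d : ℕ) : Type := Site d → Bool

/-- The space `C(Ω)` of continuous functions on the compact space of configurations. -/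
abbrev Obs (d : ℕ) : Type := C(Config d, ℝ)

variable {d : ℕ}

/-- The configuration `η^x`, that is `η` flipped at `x`. -/
def flipAt (x : Site d) (η : Config d) : Config d := Function.update η x (!(η x))

/-- A function (or an event, through its indicator) is local if it depends on finitely many
sites. -/
def IsLocal {α : Type*} (f : Config d → α) : Prop := ∃ A : Finset (Site d), DependsOn f A

/-- A kinetically constrained model on `ℤ^d`: rates `c_x(η) ≥ 0` such that `c_x(η)` depends only
on `η_y` for `0 < ‖y - x‖ ≤ r` (fixed range `r`), not on `η_x`; rates may vanish and are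
uniformly bounded. -/
structure KCM (d : ℕ) where
  /-- the rate `c_x(η)` -/
  rate : Site d → Config d → ℝ
  /-- the range `r` -/
  range : ℝ
  /-- a uniform bound of the rates -/
  bound : ℝ
  rate_nonneg : ∀ x η, 0 ≤ rate x η
  rate_le : ∀ x η, rate x η ≤ bound
  finite_range : ∀ x, DependsOn (rate x) {y | 0 < ‖y - x‖ ∧ ‖y - x‖ ≤ range}

/-- The generator
`ℒ f(η) = ∑_x c_x(η) ((1-η_x) p + η_x q) (f(η^x) - f(η))`, `p = 1 - q`, on local functions `f`
(only finitely many terms of the sum are nonzero then). -/
noncomputable def gen (K : KCM d) (q : ℝ) (f : Config d → ℝ) (η : Config d) : ℝ :=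
  ∑ᶠ x : Site d, K.rate x η * (if η x = true then q else 1 - q) * (f (flipAt x η) - f η)

/-- `P` is the Markov semigroup `(P_t)_{t ≥ 0}` of the KCM on `C(Ω)`: a strongly continuous
semigroup of positive linear operators with `P_t 1 = 1` such that, for every local function `f`,
`(P_t f - f) / t` converges uniformly to `ℒ f` as `t → 0`. -/
structure IsSemigroup (K : KCM d) (q : ℝ) (P : ℝ≥0 → Obs d → Obs d) : Prop where
  linear : ∀ t (a : ℝ) (f g : Obs d) η, P t (a • f + g) η = a * P t f η + P t g η
  zero : ∀ f, P 0 f = f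
  add : ∀ s t f, P (s + t) f = P s (P t f)
  one : ∀ t η, P t 1 η = 1
  nonneg : ∀ t (f : Obs d), (∀ η, 0 ≤ f η) → ∀ η, 0 ≤ P t f η
  continuous : ∀ f : Obs d, ∀ ε > 0, ∃ δ > 0, ∀ t, t < δ → ∀ η, |P t f η - f η| ≤ ε
  generator : ∀ f : Obs d, IsLocal f → ∀ ε > 0, ∃ δ > 0, ∀ t, 0 < t → t < δ →
    ∀ η, |(P t f η - f η) / t - gen K q f η| ≤ ε

/-- `μ` is stationary: `μ P_t = μ` for all `t ≥ 0`, for the semigroup of the KCM. -/
def IsStationary (K : KCM d) (q : ℝ) (μ : Measure (Config d)) : Prop :=
  ∃ P, IsSemigroup K q P ∧ ∀ t f, ∫ η, P t f η ∂μ = ∫ η, f η ∂μ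

/-- The product Bernoulli measure `π` with `π(η_x = 1) = p = 1 - q`. -/
noncomputable def piMeasure (d : ℕ) (q : ℝ) : Measure (Config d) :=
  Measure.infinitePi fun _ : Site d =>
    ENNReal.ofReal (1 - q) • Measure.dirac true + ENNReal.ofReal q • Measure.dirac false

/-- The box `Λ_L = {-L, …, L}^d`. -/
def box (d : ℕ) (L : ℕ) : Set (Site d) := {x | ∀ i, -(L : ℤ) ≤ x i ∧ x i ≤ L}

open Classical in
/-- `η` on `Λ`, every site outside `Λ` filled. -/
noncomputable def fillOutside (Λ : Set (Site d)) (η : Config d) : Config d :=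
  fun x => if x ∈ Λ then η x else true

open Classical in
/-- One step of bootstrap percolation on the sites of `Λ`: empty every site of `Λ` whose
constraint is satisfied (`c_x > 0`). -/
noncomputable def bootStep (K : KCM d) (Λ : Set (Site d)) (η : Config d) : Config d :=
  fun x => if x ∈ Λ ∧ 0 < K.rate x η then false else η x

open Classical in
/-- The limit `[η]_Λ` of the bootstrap percolation iteration on the sites of `Λ` with every site
outside `Λ` kept filled; `[η]` is the case `Λ = univ`. A site stays filled in the limit iff it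
is filled at all steps. -/
noncomputable def bootLimit (K : KCM d) (Λ : Set (Site d)) (η : Config d) : Config d :=
  fun x => decide (∀ n : ℕ, (bootStep K Λ)^[n] (fillOutside Λ η) x = true)

/-- The set `ℰ` of all `β` with `[β] = β`. -/
def closedConfigs (K : KCM d) : Set (Config d) := {β | bootLimit K Set.univ β = β}

/-- The event `A_L(β) = {η : [η]_{Λ_L} = β on Λ_L}`. -/
def eventA (K : KCM d) (L : ℕ) (β : Config d) : Set (Config d) :=
  {η | ∀ x ∈ box d L, bootLimit K (box d L) η x = β x}

/-- The conditioned measure `π(· | A_L(β))`. -/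
noncomputable def condMeasure (K : KCM d) (q : ℝ) (L : ℕ) (β : Config d) : Measure (Config d) :=
  ProbabilityTheory.cond (piMeasure d q) (eventA K L β)

/-- `β ∈ ℰ` is admissible if `π(A_L(β)) > 0` for all large `L` and `π(· | A_L(β))` converges on
every local event as `L → ∞`. -/
structure Admissible (K : KCM d) (q : ℝ) (β : Config d) : Prop where
  closed : β ∈ closedConfigs K
  pos : ∀ᶠ L in atTop, 0 < piMeasure d q (eventA K L β)
  conv : ∀ B : Set (Config d), IsLocal (fun η => η ∈ B) →
    ∃ l : ℝ, Tendsto (fun L => (condMeasure K q L β).real B) atTop (𝓝 l)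

/-- `π_β(f)` for a local function `f`: the limit of the integral of `f` under
`π(· | A_L(β))` as `L → ∞`. -/
noncomputable def piBeta (K : KCM d) (q : ℝ) (β : Config d) (f : Config d → ℝ) : ℝ :=
  limUnder atTop fun L => ∫ η, f η ∂(condMeasure K q L β)

/-- `μ` is a mixture of the measures `π_β`: there is a probability measure `μ_*` concentrated on
admissible `β ∈ ℰ` such that, for every local `f`, `β ↦ π_β(f)` is `μ_*`-measurable and
`μ(f) = ∫ π_β(f) dμ_*(β)`. -/
def IsMixture (K : KCM d) (q : ℝ) (μ : Measure (Config d)) : Prop :=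
  ∃ μs : Measure (Config d), IsProbabilityMeasure μs ∧ (∀ᵐ β ∂μs, Admissible K q β) ∧
    ∀ f : Config d → ℝ, IsLocal f →
      AEMeasurable (fun β => piBeta K q β f) μs ∧ ∫ η, f η ∂μ = ∫ β, piBeta K q β f ∂μs

/-- The neighbour `x + e_i` (for `s = true`) or `x - e_i` (for `s = false`) of `x`. -/
def nbr (x : Site d) (i : Fin d) (s : Bool) : Site d :=
  Function.update x i (x i + if s = true then 1 else -1)

/-- The number of empty (infected) sites among the `2d` nearest neighbours of `x`. -/
def emptyNbrs (x : Site d) (η : Config d) : ℕ :=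
  (Finset.univ.filter fun p : Fin d × Bool => η (nbr x p.1 p.2) = false).card

lemma nbr_sub (x : Site d) (i : Fin d) (s : Bool) :
    nbr x i s - x = Pi.single i (if s = true then 1 else -1) := by
  funext j
  unfold nbr
  by_cases h : j = i
  · subst h; simp
  · simp [h]

lemma norm_nbr_sub (x : Site d) (i : Fin d) (s : Bool) : ‖nbr x i s - x‖ = 1 := by
  rw [nbr_sub, Pi.norm_single]
  split_ifs <;> simp

lemma emptyNbrs_dependsOn (x : Site d) :
    DependsOn (emptyNbrs x) {y : Site d | 0 < ‖y - x‖ ∧ ‖y - x‖ ≤ 1} := by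
  intro η ζ h
  unfold emptyNbrs
  congr 1
  ext p
  simp only [Finset.mem_filter, Finset.mem_univ, true_and]
  rw [h (nbr x p.1 p.2) (by
    simp only [Set.mem_ofPred_eq]
    rw [norm_nbr_sub]; norm_num)]

/-- The Fredrickson-Andersen model `FA-4f` on `ℤ^d`: `c_x(η) = 1` if at least four of the `2d`
nearest neighbours of `x` are empty (infected), and `c_x(η) = 0` otherwise. The rates are
translation invariant and nonincreasing in `η`. For `d = 2` the constraint is that all four
neighbours are empty. -/
noncomputable def FA4 (d : ℕ) : KCM d where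
  rate x η := if 4 ≤ emptyNbrs x η then 1 else 0
  range := 1
  bound := 1
  rate_nonneg x η := by split_ifs <;> norm_num
  rate_le x η := by split_ifs <;> norm_num
  finite_range x := by
    intro η ζ h
    simp only
    rw [emptyNbrs_dependsOn x h]

end Pool.Agent.KCM6f5b46
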