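import Pool.Agent.KCM6f5b46.Defs
open MeasureTheory Filter Topology
open scoped NNReal ENNReal Nat

namespace Pool.Agent.KCM6f5b46

/-- Auxiliary bundled form of `IsSemigroup`. -/
structure IsSemigroupB {d : ℕ} (K : KCM d) (q : ℝ)
    (P : ℝ≥0 → C(Config d, ℝ) →L[ℝ] C(Config d, ℝ)) : Prop where
  zero : P 0 = ContinuousLinearMap.id ℝ C(Config d, ℝ)
  add : ∀ s t, P (s + t) = (P s).comp (P t)
  one : ∀ t, P t 1 = 1
  nonneg : ∀ t f, 0 ≤ f → 0 ≤ P t f
  continuous : ∀ f, Continuous fun t => P t f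
  generator : ∀ f g : C(Config d, ℝ), IsLocal f → (∀ η, g η = gen K q f η) →
    Tendsto (fun t : ℝ≥0 => (t : ℝ)⁻¹ • (P t f - f)) (𝓝[≠] 0) (𝓝 g)

section Abstract

variable {E : Type*} [NormedAddCommGroup E] [NormedSpace ℝ E] [CompleteSpace E]

lemma hasSum_exp_apply (T : E →L[ℝ] E) (t : ℝ) (f : E) :
    HasSum (fun n : ℕ => (t ^ n / (n ! : ℝ)) • (T ^ n) f) (NormedSpace.exp (t • T) f) := by
  have h := NormedSpace.exp_series_hasSum_exp' (𝕂 := ℝ) (t • T)
  have h2 := h.mapL (ContinuousLinearMap.apply ℝ E f)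
  simp only [ContinuousLinearMap.apply_apply] at h2
  convert h2 using 2 with n
  rw [smul_pow]
  change _ = ((n ! : ℝ))⁻¹ • (t ^ n • (T ^ n) f)
  rw [smul_smul]
  congr 1
  field_simp

lemma seminorm_exp_le (N : Seminorm ℝ E) (hN : Continuous N) (T : E →L[ℝ] E) (b : ℝ)
    (hT : ∀ f, N (T f) ≤ b * N f) (hb : 0 ≤ b) (t : ℝ) (ht : 0 ≤ t) (f : E) :
    N (NormedSpace.exp (t • T) f) ≤ Real.exp (t * b) * N f := by
  have hpow : ∀ n : ℕ, N ((T ^ n) f) ≤ b ^ n * N f := by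
    intro n
    induction n with
    | zero => simp
    | succ n ih =>
      rw [pow_succ']
      calc N (T ((T ^ n) f)) ≤ b * N ((T ^ n) f) := hT _
        _ ≤ b * (b ^ n * N f) := by gcongr
        _ = b ^ (n + 1) * N f := by ring
  have h1 := hasSum_exp_apply T t f
  have h2 : HasSum (fun n : ℕ => (t * b) ^ n / (n ! : ℝ)) (Real.exp (t * b)) := by
    rw [Real.exp_eq_exp_ℝ]
    exact NormedSpace.expSeries_div_hasSum_exp (t * b)
  have h3 : HasSum (fun n : ℕ => (t * b) ^ n / (n ! : ℝ) * N f) (Real.exp (t * b) * N f) :=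
    h2.mul_right _
  refine le_of_tendsto ((hN.tendsto _).comp h1) (Eventually.of_forall fun s => ?_)
  simp only [Function.comp]
  calc N (∑ n ∈ s, (t ^ n / (n ! : ℝ)) • (T ^ n) f)
      ≤ ∑ n ∈ s, N ((t ^ n / (n ! : ℝ)) • (T ^ n) f) := by
        exact Finset.le_sum_of_subadditive N (map_zero N).le (fun x y => map_add_le_add N x y) _ _
    _ ≤ ∑ n ∈ s, (t * b) ^ n / (n ! : ℝ) * N f := by
        apply Finset.sum_le_sum
        intro n _
        rw [map_smul_eq_mul, Real.norm_of_nonneg (by positivity)]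
        calc t ^ n / (n ! : ℝ) * N ((T ^ n) f) ≤ t ^ n / (n ! : ℝ) * (b ^ n * N f) := by
              gcongr; exact hpow n
          _ = (t * b) ^ n / (n ! : ℝ) * N f := by rw [mul_pow]; ring
    _ ≤ Real.exp (t * b) * N f := by
        apply sum_le_hasSum s _ h3
        intro n _
        have := apply_nonneg N f
        positivity

lemma exp_shift (T : E →L[ℝ] E) (a t : ℝ) (f : E) :
    NormedSpace.exp (t • (T - a • (1 : E →L[ℝ] E))) f
      = Real.exp (-(t * a)) • NormedSpace.exp (t • T) f := by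
  have h1 : t • (T - a • (1 : E →L[ℝ] E)) = (-(t * a)) • (1 : E →L[ℝ] E) + t • T := by
    rw [smul_sub, smul_smul, neg_smul]; abel
  have hc : Commute ((-(t * a)) • (1 : E →L[ℝ] E)) (t • T) :=
    ((Commute.one_left T).smul_left _).smul_right _
  let _ : NormedAlgebra ℚ (E →L[ℝ] E) := NormedAlgebra.restrictScalars ℚ ℝ (E →L[ℝ] E)
  rw [h1, NormedSpace.exp_add_of_commute hc]
  have h2 : NormedSpace.exp ((-(t * a)) • (1 : E →L[ℝ] E))
      = Real.exp (-(t * a)) • (1 : E →L[ℝ] E) := by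
    have := NormedSpace.algebraMap_exp_comm (𝕂 := ℝ) (𝔸 := E →L[ℝ] E) (-(t * a))
    rw [Algebra.algebraMap_eq_smul_one, Algebra.algebraMap_eq_smul_one] at this
    rw [← this, Real.exp_eq_exp_ℝ]
  rw [h2]
  simp

/-- Bound of a seminorm along `exp (t L)` when `L + a` satisfies a bound. -/
lemma seminorm_exp_le' (N : Seminorm ℝ E) (hN : Continuous N) (L : E →L[ℝ] E) (a C : ℝ)
    (hT : ∀ f, N (L f + a • f) ≤ (a + C) * N f) (hb : 0 ≤ a + C) (t : ℝ) (ht : 0 ≤ t) (f : E) :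
    N (NormedSpace.exp (t • L) f) ≤ Real.exp (t * C) * N f := by
  have h := seminorm_exp_le N hN (L + a • 1) (a + C) (fun f => by simpa using hT f) hb t ht f
  have h2 := exp_shift (L + a • 1) a t f
  rw [add_sub_cancel_right] at h2
  rw [h2, map_smul_eq_mul, Real.norm_of_nonneg (Real.exp_pos _).le]
  calc Real.exp (-(t * a)) * N (NormedSpace.exp (t • (L + a • 1)) f)
      ≤ Real.exp (-(t * a)) * (Real.exp (t * (a + C)) * N f) := by gcongr
    _ = Real.exp (t * C) * N f := by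
      rw [← mul_assoc, ← Real.exp_add]; ring_nf

lemma hasDerivAt_exp_apply (L : E →L[ℝ] E) (t : ℝ) (f : E) :
    HasDerivAt (fun s : ℝ => NormedSpace.exp (s • L) f) (NormedSpace.exp (t • L) (L f)) t := by
  have h := hasDerivAt_exp_smul_const (𝕂 := ℝ) L t
  exact (ContinuousLinearMap.apply ℝ E f).hasFDerivAt.comp_hasDerivAt t h

lemma hasDerivAt_exp_apply' (L : E →L[ℝ] E) (t : ℝ) (f : E) :
    HasDerivAt (fun s : ℝ => NormedSpace.exp (s • L) f) (L (NormedSpace.exp (t • L) f)) t := by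
  have h := hasDerivAt_exp_smul_const' (𝕂 := ℝ) L t
  exact (ContinuousLinearMap.apply ℝ E f).hasFDerivAt.comp_hasDerivAt t h

/-- The one-parameter group `exp (t L)` of a bounded operator `L`. -/
noncomputable def expOp (L : E →L[ℝ] E) (t : ℝ) : E →L[ℝ] E := NormedSpace.exp (t • L)

omit [CompleteSpace E] in
lemma expOp_zero (L : E →L[ℝ] E) (f : E) : expOp L 0 f = f := by
  simp [expOp]

lemma expOp_add (L : E →L[ℝ] E) (s t : ℝ) (f : E) :
    expOp L (s + t) f = expOp L s (expOp L t f) := by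
  unfold expOp
  let _ : NormedAlgebra ℚ (E →L[ℝ] E) := NormedAlgebra.restrictScalars ℚ ℝ (E →L[ℝ] E)
  rw [add_smul, NormedSpace.exp_add_of_commute]
  · rfl
  · exact ((Commute.refl _).smul_left _).smul_right _

lemma seminorm_expOp_le (N : Seminorm ℝ E) (hN : Continuous N) (L : E →L[ℝ] E) (a C : ℝ)
    (hT : ∀ f, N (L f + a • f) ≤ (a + C) * N f) (hb : 0 ≤ a + C) (t : ℝ) (ht : 0 ≤ t) (f : E) :
    N (expOp L t f) ≤ Real.exp (t * C) * N f :=
  seminorm_exp_le' N hN L a C hT hb t ht f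

lemma hasDerivAt_expOp (L : E →L[ℝ] E) (t : ℝ) (f : E) :
    HasDerivAt (fun s : ℝ => expOp L s f) (expOp L t (L f)) t :=
  hasDerivAt_exp_apply L t f

lemma hasDerivAt_expOp' (L : E →L[ℝ] E) (t : ℝ) (f : E) :
    HasDerivAt (fun s : ℝ => expOp L s f) (L (expOp L t f)) t :=
  hasDerivAt_exp_apply' L t f

lemma functional_expOp_nonneg (ell : E →L[ℝ] ℝ) (L : E →L[ℝ] E) (a : ℝ) {f : E}
    (h : ∀ n : ℕ, 0 ≤ ell (((L + a • (1 : E →L[ℝ] E)) ^ n) f)) {t : ℝ} (ht : 0 ≤ t) :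
    0 ≤ ell (expOp L t f) := by
  have h2 := exp_shift (L + a • 1) a t f
  rw [add_sub_cancel_right] at h2
  unfold expOp
  rw [h2, map_smul, smul_eq_mul]
  apply mul_nonneg (Real.exp_pos _).le
  have h3 := (hasSum_exp_apply (L + a • 1) t f).mapL ell
  refine h3.nonneg fun n => ?_
  rw [map_smul, smul_eq_mul]
  exact mul_nonneg (by positivity) (h n)

lemma hasDerivAt_expOp_comp (L L' : E →L[ℝ] E) (t s : ℝ) (f : E) :
    HasDerivAt (fun s : ℝ => expOp L' s (expOp L (t - s) f))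
      (expOp L' s ((L' - L) (expOp L (t - s) f))) s := by
  have e1 : HasDerivAt (fun s => expOp L' s) (expOp L' s * L') s :=
    hasDerivAt_exp_smul_const (𝕂 := ℝ) L' s
  have e2 : HasDerivAt (fun s => expOp L (t - s) f) (-(L (expOp L (t - s) f))) s := by
    have h3 : HasDerivAt (fun s : ℝ => t - s) (-1) s := by
      simpa using (hasDerivAt_id s).const_sub t
    have := (hasDerivAt_expOp' L (t - s) f).scomp s h3
    rw [neg_smul, one_smul] at this
    exact this
  have e3 := e1.clm_apply e2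
  refine e3.congr_deriv ?_
  change expOp L' s (L' (expOp L (t - s) f)) + expOp L' s (-(L (expOp L (t - s) f)))
    = expOp L' s (L' (expOp L (t - s) f) - L (expOp L (t - s) f))
  rw [map_neg, map_sub]
  abel

lemma norm_expOp_sub_le (L L' : E →L[ℝ] E) {t : ℝ} (ht : 0 ≤ t) (f : E) (B : ℝ)
    (hc : ∀ s, 0 ≤ s → ∀ g, ‖expOp L' s g‖ ≤ ‖g‖)
    (hB : ∀ s, 0 ≤ s → s ≤ t → ‖(L' - L) (expOp L s f)‖ ≤ B) :
    ‖expOp L' t f - expOp L t f‖ ≤ B * t := by
  have key := Convex.norm_image_sub_le_of_norm_hasDerivWithin_le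
    (f := fun s : ℝ => expOp L' s (expOp L (t - s) f)) (s := Set.Icc 0 t) (x := 0) (y := t)
    (C := B) (fun s _ => (hasDerivAt_expOp_comp L L' t s f).hasDerivWithinAt)
    (fun s hs => (hc s hs.1 _).trans (hB (t - s) (by linarith [hs.2]) (by linarith [hs.1])))
    (convex_Icc 0 t) ⟨le_refl _, ht⟩ ⟨ht, le_refl _⟩
  simp only [expOp_zero, sub_zero, sub_self] at key
  rwa [Real.norm_of_nonneg ht] at key

/-- Second order expansion of `expOp` at `0`. -/
lemma norm_expOp_sub_sub_le (L : E →L[ℝ] E) {t : ℝ} (ht : 0 ≤ t) (f : E)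
    (hc : ∀ s, 0 ≤ s → ∀ g, ‖expOp L s g‖ ≤ ‖g‖) :
    ‖expOp L t f - f - t • L f‖ ≤ ‖L (L f)‖ * t ^ 2 := by
  have h1 : ∀ s, 0 ≤ s → ∀ g, ‖expOp L s g - g‖ ≤ ‖L g‖ * s := by
    intro s hs g
    have key := Convex.norm_image_sub_le_of_norm_hasDerivWithin_le
      (f := fun s : ℝ => expOp L s g) (s := Set.Icc 0 s) (x := 0) (y := s)
      (C := ‖L g‖) (fun s _ => (hasDerivAt_expOp L s g).hasDerivWithinAt)
      (fun s hs => hc s hs.1 _)
      (convex_Icc 0 s) ⟨le_refl _, hs⟩ ⟨hs, le_refl _⟩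
    simp only [expOp_zero, sub_zero] at key
    rwa [Real.norm_of_nonneg hs] at key
  have hder : ∀ s : ℝ, HasDerivAt (fun s : ℝ => expOp L s f - s • L f)
      (expOp L s (L f) - L f) s := by
    intro s
    have h2 : HasDerivAt (fun s : ℝ => s • L f) (L f) s := by
      simpa using (hasDerivAt_id s).smul_const (L f)
    exact (hasDerivAt_expOp L s f).sub h2
  have key := Convex.norm_image_sub_le_of_norm_hasDerivWithin_le
    (f := fun s : ℝ => expOp L s f - s • L f) (s := Set.Icc 0 t) (x := 0) (y := t)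
    (C := ‖L (L f)‖ * t) (fun s _ => (hder s).hasDerivWithinAt)
    (fun s hs => (h1 s hs.1 _).trans (by gcongr; exact hs.2))
    (convex_Icc 0 t) ⟨le_refl _, ht⟩ ⟨ht, le_refl _⟩
  simp only [expOp_zero, sub_zero, zero_smul] at key
  rw [Real.norm_of_nonneg ht] at key
  calc ‖expOp L t f - f - t • L f‖ = ‖expOp L t f - t • L f - f‖ := by congr 1; abel
    _ ≤ ‖L (L f)‖ * t * t := key
    _ = _ := by ring

end Abstract
end Pool.Agent.KCM6f5b46
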