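import Pool.Agent.KCM6f5b46.Ops

open MeasureTheory Filter Topology
open scoped NNReal ENNReal Nat

namespace Pool.Agent.KCM6f5b46

variable {d : ℕ}

/-- Weighted oscillation seminorm over a finite set of sites. -/
noncomputable def wSem (F : Finset (Site d)) : Seminorm ℝ C(Config d, ℝ) :=
  Seminorm.of (fun f => ∑ x ∈ F, Real.exp ‖x‖ * ‖Dop x f‖)
    (fun f g => by
      rw [← Finset.sum_add_distrib]
      apply Finset.sum_le_sum
      intro x _
      rw [map_add, ← mul_add]
      exact mul_le_mul_of_nonneg_left (norm_add_le _ _) (Real.exp_pos _).le)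
    (fun c f => by
      rw [Finset.mul_sum]
      apply Finset.sum_congr rfl
      intro x _
      rw [map_smul, norm_smul]
      ring)

lemma wSem_apply (F : Finset (Site d)) (f : C(Config d, ℝ)) :
    wSem F f = ∑ x ∈ F, Real.exp ‖x‖ * ‖Dop x f‖ := rfl

lemma continuous_wSem (F : Finset (Site d)) : Continuous (wSem F) := by
  have : (wSem F : C(Config d, ℝ) → ℝ) = fun f => ∑ x ∈ F, Real.exp ‖x‖ * ‖Dop x f‖ := rfl
  rw [this]
  fun_prop

lemma wSem_le_of_dependsOn {f : C(Config d, ℝ)} {A : Finset (Site d)} (hf : DependsOn f A)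
    (F : Finset (Site d)) : wSem F f ≤ wSem A f := by
  rw [wSem_apply, wSem_apply]
  classical
  calc ∑ x ∈ F, Real.exp ‖x‖ * ‖Dop x f‖
      = ∑ x ∈ F with x ∈ A, Real.exp ‖x‖ * ‖Dop x f‖ := by
        rw [Finset.sum_filter]
        apply Finset.sum_congr rfl
        intro x _
        split_ifs with h
        · rfl
        · rw [Dop_eq_zero hf (by simpa using h)]; simp
    _ ≤ ∑ x ∈ A, Real.exp ‖x‖ * ‖Dop x f‖ := by
        apply Finset.sum_le_sum_of_subset_of_nonneg
        · intro x hx; exact (Finset.mem_filter.1 hx).2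
        · intro x _ _; positivity

section

variable (K : KCM d) {q : ℝ} (hq0 : 0 ≤ q) (hq1 : q ≤ 1)

/-- The growth constant of the weighted oscillation seminorm. -/
noncomputable def cst (K : KCM d) : ℝ :=
  (nearF (max K.range 0) (0 : Site d)).card * (Real.exp (max K.range 0) * K.bound)

lemma cst_nonneg : 0 ≤ cst K := by
  have := bound_nonneg K
  unfold cst; positivity

include hq0 hq1 in
lemma sum_gam_le (F : Finset (Site d)) (y : Site d) :
    ∑ x ∈ F, Real.exp ‖x‖ * gam K q x y ≤ cst K * Real.exp ‖y‖ := by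
  classical
  have hb := bound_nonneg K
  calc ∑ x ∈ F, Real.exp ‖x‖ * gam K q x y
      ≤ ∑ x ∈ F, if x ∈ nearF (max K.range 0) y then
          Real.exp (max K.range 0) * K.bound * Real.exp ‖y‖ else 0 := by
        apply Finset.sum_le_sum
        intro x _
        split_ifs with h
        · have h1 : ‖x‖ ≤ max K.range 0 + ‖y‖ := by
            rw [mem_nearF] at h
            calc ‖x‖ = ‖(x - y) + y‖ := by simp
              _ ≤ ‖x - y‖ + ‖y‖ := norm_add_le _ _
              _ ≤ _ := by gcongr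
          calc Real.exp ‖x‖ * gam K q x y
              ≤ Real.exp (max K.range 0 + ‖y‖) * K.bound := by
                gcongr
                · exact norm_nonneg _
                · exact gam_le K hq0 hq1 x y
            _ = _ := by rw [Real.exp_add]; ring
        · rw [gam_eq_zero K h]; simp
    _ = ∑ x ∈ F with x ∈ nearF (max K.range 0) y,
          Real.exp (max K.range 0) * K.bound * Real.exp ‖y‖ := by
        rw [Finset.sum_filter]
    _ ≤ ∑ x ∈ nearF (max K.range 0) y,
          Real.exp (max K.range 0) * K.bound * Real.exp ‖y‖ := by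
        apply Finset.sum_le_sum_of_subset_of_nonneg
        · intro x hx; exact (Finset.mem_filter.1 hx).2
        · intro x _ _; positivity
    _ = cst K * Real.exp ‖y‖ := by
        rw [Finset.sum_const, card_nearF, nsmul_eq_mul]
        unfold cst; ring

include hq0 hq1 in
lemma wSem_Lfin_add_le {Λ F : Finset (Site d)} (hΛ : Λ ⊆ F) (f : C(Config d, ℝ)) :
    wSem F (Lfin K q Λ f + (Λ.card * K.bound) • f)
      ≤ (Λ.card * K.bound + cst K) * wSem F f := by
  simp only [wSem_apply]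
  calc ∑ x ∈ F, Real.exp ‖x‖ * ‖Dop x (Lfin K q Λ f + (Λ.card * K.bound) • f)‖
      ≤ ∑ x ∈ F, Real.exp ‖x‖ * ((Λ.card * K.bound) * ‖Dop x f‖
          + ∑ y ∈ Λ, gam K q x y * ‖Dop y f‖) := by
        apply Finset.sum_le_sum
        intro x _
        exact mul_le_mul_of_nonneg_left (norm_Dop_Lfin_add_le K hq0 hq1 x Λ f)
          (Real.exp_pos _).le
    _ = (Λ.card * K.bound) * ∑ x ∈ F, Real.exp ‖x‖ * ‖Dop x f‖
          + ∑ y ∈ Λ, (∑ x ∈ F, Real.exp ‖x‖ * gam K q x y) * ‖Dop y f‖ := by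
        simp only [mul_add, Finset.sum_add_distrib, Finset.mul_sum, Finset.sum_mul]
        congr 1
        · apply Finset.sum_congr rfl; intro x _; ring
        · rw [Finset.sum_comm]
          apply Finset.sum_congr rfl; intro y _
          apply Finset.sum_congr rfl; intro x _; ring
    _ ≤ (Λ.card * K.bound) * ∑ x ∈ F, Real.exp ‖x‖ * ‖Dop x f‖
          + ∑ y ∈ Λ, (cst K * Real.exp ‖y‖) * ‖Dop y f‖ := by
        gcongr with y _
        exact sum_gam_le K hq0 hq1 F y
    _ ≤ (Λ.card * K.bound) * ∑ x ∈ F, Real.exp ‖x‖ * ‖Dop x f‖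
          + cst K * ∑ y ∈ F, Real.exp ‖y‖ * ‖Dop y f‖ := by
        gcongr
        rw [Finset.mul_sum]
        calc ∑ y ∈ Λ, (cst K * Real.exp ‖y‖) * ‖Dop y f‖
            ≤ ∑ y ∈ F, (cst K * Real.exp ‖y‖) * ‖Dop y f‖ := by
              apply Finset.sum_le_sum_of_subset_of_nonneg hΛ
              intro x _ _
              have := cst_nonneg K
              positivity
          _ = _ := by apply Finset.sum_congr rfl; intro x _; ring
    _ = _ := by ring

/-- The finite volume semigroup. -/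
noncomputable def Pfin (q : ℝ) (Λ : Finset (Site d)) (t : ℝ) :
    C(Config d, ℝ) →L[ℝ] C(Config d, ℝ) := expOp (Lfin K q Λ) t

lemma Pfin_zero (q : ℝ) (Λ : Finset (Site d)) (f : C(Config d, ℝ)) : Pfin K q Λ 0 f = f :=
  expOp_zero _ _

lemma Pfin_add (q : ℝ) (Λ : Finset (Site d)) (s t : ℝ) (f : C(Config d, ℝ)) :
    Pfin K q Λ (s + t) f = Pfin K q Λ s (Pfin K q Λ t f) := expOp_add _ _ _ _

lemma hasDerivAt_Pfin (q : ℝ) (Λ : Finset (Site d)) (t : ℝ) (f : C(Config d, ℝ)) :
    HasDerivAt (fun s => Pfin K q Λ s f) (Pfin K q Λ t (Lfin K q Λ f)) t :=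
  hasDerivAt_expOp _ _ _

lemma hasDerivAt_Pfin' (q : ℝ) (Λ : Finset (Site d)) (t : ℝ) (f : C(Config d, ℝ)) :
    HasDerivAt (fun s => Pfin K q Λ s f) (Lfin K q Λ (Pfin K q Λ t f)) t :=
  hasDerivAt_expOp' _ _ _

include hq0 hq1 in
lemma norm_Pfin_le (Λ : Finset (Site d)) {t : ℝ} (ht : 0 ≤ t) (f : C(Config d, ℝ)) :
    ‖Pfin K q Λ t f‖ ≤ ‖f‖ := by
  have hb := bound_nonneg K
  have h := seminorm_expOp_le (normSeminorm ℝ C(Config d, ℝ)) (by
      have : (normSeminorm ℝ C(Config d, ℝ) : C(Config d, ℝ) → ℝ) = fun f => ‖f‖ := rfl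
      rw [this]; exact continuous_norm) (Lfin K q Λ) (Λ.card * K.bound) 0
    (fun f => by simpa using norm_Lfin_add_le K hq0 hq1 Λ f) (by positivity) t ht f
  simpa [Pfin] using h

include hq0 hq1 in
lemma wSem_Pfin_le {Λ F : Finset (Site d)} (hΛ : Λ ⊆ F) {t : ℝ} (ht : 0 ≤ t)
    (f : C(Config d, ℝ)) :
    wSem F (Pfin K q Λ t f) ≤ Real.exp (t * cst K) * wSem F f := by
  have hb := bound_nonneg K
  have hc := cst_nonneg K
  exact seminorm_expOp_le (wSem F) (continuous_wSem F) (Lfin K q Λ) (Λ.card * K.bound) (cst K)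
    (fun f => wSem_Lfin_add_le K hq0 hq1 hΛ f) (by positivity) t ht f

include hq0 hq1 in
lemma Pfin_nonneg (Λ : Finset (Site d)) {t : ℝ} (ht : 0 ≤ t) {f : C(Config d, ℝ)}
    (hf : 0 ≤ f) : 0 ≤ Pfin K q Λ t f := by
  have h4 : ∀ n : ℕ, 0 ≤ ((Lfin K q Λ + (Λ.card * K.bound) •
      (1 : C(Config d, ℝ) →L[ℝ] C(Config d, ℝ))) ^ n) f := by
    intro n
    induction n with
    | zero => simpa using hf
    | succ n ih =>
      rw [pow_succ']
      exact Lfin_add_nonneg K hq0 hq1 Λ _ ih
  rw [ContinuousMap.le_def]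
  intro η
  have := functional_expOp_nonneg (ContinuousMap.evalCLM ℝ η) (Lfin K q Λ)
    (Λ.card * K.bound) (f := f) (fun n => h4 n η) ht
  exact this

lemma Lfin_one (q : ℝ) (Λ : Finset (Site d)) : Lfin K q Λ 1 = 0 := by
  ext η
  rw [Lfin_apply]
  simp

lemma Pfin_one (q : ℝ) (Λ : Finset (Site d)) (t : ℝ) : Pfin K q Λ t 1 = 1 := by
  have h : ∀ s, HasDerivAt (fun s => Pfin K q Λ s (1 : C(Config d, ℝ))) 0 s := by
    intro s
    have := hasDerivAt_Pfin K q Λ s 1
    rwa [Lfin_one, map_zero] at this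
  have h2 := is_const_of_deriv_eq_zero (fun s => (h s).differentiableAt) (fun s => (h s).deriv)
    t 0
  rw [h2, Pfin_zero]

end

end Pool.Agent.KCM6f5b46
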