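import Pool.Agent.KCM6f5b46.Closure

open MeasureTheory Filter Topology
open scoped NNReal ENNReal

namespace Pool.Agent.KCM6f5b46

variable {d : ℕ}

section

variable {K : KCM d} {q : ℝ} (hq0 : 0 ≤ q) (hq1 : q ≤ 1)

include hq0 hq1 in
lemma isProbabilityMeasure_condMeasure {L : ℕ} {β : Config d}
    (hpos : 0 < piMeasure d q (eventA K L β)) : IsProbabilityMeasure (condMeasure K q L β) := by
  have := isProbabilityMeasure_piMeasure (d := d) hq0 hq1
  exact ProbabilityTheory.cond_isProbabilityMeasure hpos.ne'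

open Classical in
/-- The indicator function of a set. -/
noncomputable def indF (B : Set (Config d)) (η : Config d) : ℝ := if η ∈ B then 1 else 0

open Classical in
lemma integral_indF {μ : Measure (Config d)} {B : Set (Config d)} (hB : MeasurableSet B) :
    ∫ η, indF B η ∂μ = μ.real B := by
  have : indF B = B.indicator (fun _ => (1 : ℝ)) := by
    funext η
    unfold indF
    rw [Set.indicator_apply]
  rw [this, integral_indicator hB]
  simp

lemma indF_local {B : Set (Config d)} (hB : IsLocal (fun η => η ∈ B)) :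
    IsLocal (indF B : Config d → ℝ) := by
  obtain ⟨A, hA⟩ := hB
  refine ⟨A, fun η ζ h => ?_⟩
  have h1 : η ∈ B ↔ ζ ∈ B := iff_of_eq (hA h)
  unfold indF
  by_cases h2 : η ∈ B
  · rw [if_pos h2, if_pos (h1.1 h2)]
  · rw [if_neg h2, if_neg (fun h3 => h2 (h1.2 h3))]

lemma tendsto_piBeta {β : Config d} (hβ : Admissible K q β) {B : Set (Config d)}
    (hB : IsLocal (fun η => η ∈ B)) :
    Tendsto (fun L => (condMeasure K q L β).real B) atTop (𝓝 (piBeta K q β (indF B))) := by
  obtain ⟨l, hl⟩ := hβ.conv B hB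
  have h1 : (fun L => ∫ η, indF B η ∂(condMeasure K q L β))
      = fun L => (condMeasure K q L β).real B := by
    funext L
    exact integral_indF (measurableSet_of_local hB)
  have h2 : piBeta K q β (indF B) = l := by
    unfold piBeta
    rw [h1]
    exact hl.limUnder_eq
  rw [h2]
  exact hl

lemma piBeta_nonneg {β : Config d} (hβ : Admissible K q β) {B : Set (Config d)}
    (hB : IsLocal (fun η => η ∈ B)) : 0 ≤ piBeta K q β (indF B) :=
  ge_of_tendsto' (tendsto_piBeta hβ hB) fun _ => measureReal_nonneg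

include hq0 hq1 in
lemma piBeta_le_one {β : Config d} (hβ : Admissible K q β) {B : Set (Config d)}
    (hB : IsLocal (fun η => η ∈ B)) : piBeta K q β (indF B) ≤ 1 := by
  refine le_of_tendsto (tendsto_piBeta hβ hB) ?_
  filter_upwards [hβ.pos] with L hL
  have := isProbabilityMeasure_condMeasure hq0 hq1 hL
  exact measureReal_le_one

include hq0 hq1 in
/-- Finite energy for the limits `π_β`. -/
lemma piBeta_empty_ge (hK : Mono K) {β : Config d} (hβ : Admissible K q β) {x : Site d}
    (hx : β x = false) : q ≤ piBeta K q β (indF {η | η x = false}) := by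
  have hloc : IsLocal (fun η : Config d => η ∈ {η : Config d | η x = false}) :=
    ⟨{x}, fun η ζ h => by simp only [Set.mem_ofPred_eq, h x (by simp)]⟩
  refine ge_of_tendsto (tendsto_piBeta hβ hloc) ?_
  filter_upwards [hβ.pos] with L hL
  have hp := isProbabilityMeasure_piMeasure (d := d) hq0 hq1
  have hfe := finite_energy hq0 hq1 hK hβ.closed (L := L) hx
  have h1 : ENNReal.ofReal q ≤ condMeasure K q L β {η | η x = false} := by
    unfold condMeasure
    rw [ProbabilityTheory.cond_apply (measurableSet_eventA L β)]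
    calc ENNReal.ofReal q
        = (piMeasure d q (eventA K L β))⁻¹ * (ENNReal.ofReal q * piMeasure d q (eventA K L β)) := by
          rw [mul_comm (ENNReal.ofReal q), ← mul_assoc,
            ENNReal.inv_mul_cancel hL.ne' (measure_ne_top _ _), one_mul]
      _ ≤ _ := by gcongr
  have h2 := isProbabilityMeasure_condMeasure hq0 hq1 hL
  have h3 := ENNReal.toReal_mono (measure_ne_top _ _) h1
  rwa [ENNReal.toReal_ofReal hq0] at h3

include hq0 hq1 in
/-- Sites filled in `β` are filled under `π_β`. -/
lemma piBeta_filled {β : Config d} (hβ : Admissible K q β) {x y : Site d}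
    (hx : β x = true) (hy : β y = true) :
    piBeta K q β (indF {η | η x = true ∧ η y = true}) = 1 := by
  have hloc : IsLocal (fun η : Config d => η ∈ {η : Config d | η x = true ∧ η y = true}) := by
    classical
    refine ⟨{x, y}, fun η ζ h => ?_⟩
    simp only [Set.mem_ofPred_eq, h x (by simp), h y (by simp)]
  refine tendsto_nhds_unique (tendsto_piBeta hβ hloc) ?_
  have hbox : ∀ z : Site d, ∀ᶠ L : ℕ in atTop, z ∈ box d L := by
    intro z
    obtain ⟨L₀, hL₀⟩ := exists_nat_ge ‖z‖
    filter_upwards [eventually_ge_atTop L₀] with L hL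
    intro i
    have h1 : ‖z i‖ ≤ ‖z‖ := norm_le_pi_norm z i
    have h2 : ‖z i‖ ≤ L := h1.trans (hL₀.trans (by exact_mod_cast hL))
    rw [Int.norm_eq_abs] at h2
    have h3 : |z i| ≤ (L : ℤ) := by exact_mod_cast h2
    exact abs_le.1 h3
  have hev : ∀ᶠ L in atTop, (condMeasure K q L β).real {η | η x = true ∧ η y = true} = 1 := by
    filter_upwards [hβ.pos, hbox x, hbox y] with L hL hLx hLy
    have h2 := isProbabilityMeasure_condMeasure hq0 hq1 hL
    have hp := isProbabilityMeasure_piMeasure (d := d) hq0 hq1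
    have h3 : condMeasure K q L β {η | η x = true ∧ η y = true} = 1 := by
      unfold condMeasure
      rw [ProbabilityTheory.cond_apply (measurableSet_eventA L β)]
      have h4 : eventA K L β ∩ {η | η x = true ∧ η y = true} = eventA K L β := by
        apply Set.inter_eq_left.2
        intro η hη
        exact ⟨eventA_le hη hLx hx, eventA_le hη hLy hy⟩
      rw [h4, ENNReal.inv_mul_cancel hL.ne' (measure_ne_top _ _)]
    rw [measureReal_def, h3]
    simp
  exact tendsto_const_nhds.congr' (hev.mono fun L h => h.symm)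

include hq0 hq1 in
/-- If the integral of `π_β(B)` vanishes then `π_β(B) = 0` almost surely. -/
lemma ae_piBeta_eq_zero {μs : Measure (Config d)} [IsProbabilityMeasure μs]
    (hadm : ∀ᵐ β ∂μs, Admissible K q β) {B : Set (Config d)}
    (hB : IsLocal (fun η => η ∈ B)) (hm : AEMeasurable (fun β => piBeta K q β (indF B)) μs)
    (h0 : ∫ β, piBeta K q β (indF B) ∂μs = 0) :
    ∀ᵐ β ∂μs, piBeta K q β (indF B) = 0 := by
  have hnn : 0 ≤ᵐ[μs] fun β => piBeta K q β (indF B) := by
    filter_upwards [hadm] with β hβ using piBeta_nonneg hβ hB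
  have hint : Integrable (fun β => piBeta K q β (indF B)) μs := by
    refine Integrable.of_bound hm.aestronglyMeasurable 1 ?_
    filter_upwards [hadm] with β hβ
    rw [Real.norm_of_nonneg (piBeta_nonneg hβ hB)]
    exact piBeta_le_one hq0 hq1 hβ hB
  have h1 := (integral_eq_zero_iff_of_nonneg_ae hnn hint).1 h0
  filter_upwards [h1] with β hβ
  simpa using hβ

end

variable (hd : 2 ≤ d)

/-- Any mixture of the `π_β` carried by configurations which are filled off the plane and
independent on the plane is `π_β` for the single `β` which is empty exactly on the plane. -/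
lemma mixture_eq {q : ℝ} (hq0 : 0 < q) (hq1 : q ≤ 1) {μ : Measure (Config d)}
    (hmix : IsMixture (FA4 d) q μ)
    (hoff : ∀ x, x ∉ plane hd → ∫ η, indF {η : Config d | η x = false} η ∂μ = 0)
    (hind : ∀ v w, Adj2 v w →
      ∫ η, indF {η : Config d | η (emb hd v) = true ∧ η (emb hd w) = true} η ∂μ = 0)
    (f : Config d → ℝ) (hf : IsLocal f) :
    ∫ η, f η ∂μ = piBeta (FA4 d) q (cfg hd ∅) f := by
  obtain ⟨μs, hμs, hadm, hrep⟩ := hmix
  have hloc1 : ∀ x : Site d, IsLocal (fun η : Config d => η ∈ {η : Config d | η x = false}) :=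
    fun x => ⟨{x}, fun η ζ h => by simp only [Set.mem_ofPred_eq, h x (by simp)]⟩
  have hloc2 : ∀ x y : Site d,
      IsLocal (fun η : Config d => η ∈ {η : Config d | η x = true ∧ η y = true}) := by
    classical
    intro x y
    refine ⟨{x, y}, fun η ζ h => ?_⟩
    simp only [Set.mem_ofPred_eq, h x (by simp), h y (by simp)]
  have h1 : ∀ᵐ β ∂μs, ∀ x, x ∉ plane hd →
      piBeta (FA4 d) q β (indF {η : Config d | η x = false}) = 0 := by
    rw [ae_all_iff]
    intro x
    by_cases hx : x ∈ plane hd
    · filter_upwards with β hβ using absurd hx hβ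
    · have h2 := hrep _ (indF_local (hloc1 x))
      rw [hoff x hx] at h2
      filter_upwards [ae_piBeta_eq_zero hq0.le hq1 hadm (hloc1 x) h2.1 h2.2.symm] with β hβ _
      exact hβ
  have h2 : ∀ᵐ β ∂μs, ∀ v w, Adj2 v w →
      piBeta (FA4 d) q β (indF {η : Config d | η (emb hd v) = true ∧ η (emb hd w) = true})
        = 0 := by
    rw [ae_all_iff]
    intro v
    rw [ae_all_iff]
    intro w
    by_cases hvw : Adj2 v w
    · have h2 := hrep _ (indF_local (hloc2 (emb hd v) (emb hd w)))
      rw [hind v w hvw] at h2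
      filter_upwards [ae_piBeta_eq_zero hq0.le hq1 hadm (hloc2 _ _) h2.1 h2.2.symm] with β hβ _
      exact hβ
    · filter_upwards with β hβ using absurd hβ hvw
  have h3 : ∀ᵐ β ∂μs, β = cfg hd ∅ := by
    filter_upwards [hadm, h1, h2] with β hβ hoffβ hindβ
    have hfill : ∀ x, x ∉ plane hd → β x = true := by
      intro x hx
      by_contra hne
      have h4 : β x = false := by simpa using hne
      have h5 := piBeta_empty_ge hq0.le hq1 FA4_mono hβ h4
      rw [hoffβ x hx] at h5
      linarith
    funext x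
    by_cases hx : x ∈ plane hd
    · rw [← emb_proj hd hx]
      set v := proj hd x
      rw [cfg_emb_false hd |>.2 (Set.notMem_empty v)]
      by_contra hne
      have h4 : β (emb hd v) = true := by simpa using hne
      have h5 := rate_of_closed hβ.closed h4
      have h6 : ¬ 4 ≤ emptyNbrs (emb hd v) β := by
        intro h7
        apply h5
        rw [FA4_rate, if_pos h7]
        exact one_pos
      rw [four_le_emptyNbrs_iff hd hfill] at h6
      push Not at h6
      obtain ⟨w, hw, hwβ⟩ := h6
      have h7 : β (emb hd w) = true := by simpa using hwβ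
      have h8 := piBeta_filled hq0.le hq1 hβ h4 h7
      rw [hindβ v w hw] at h8
      exact absurd h8 (by norm_num)
    · rw [hfill x hx, cfg_off hd hx]
  rw [(hrep f hf).2]
  have h4 : ∫ β, piBeta (FA4 d) q β f ∂μs = ∫ _β, piBeta (FA4 d) q (cfg hd ∅) f ∂μs := by
    apply integral_congr_ae
    filter_upwards [h3] with β hβ
    rw [hβ]
  rw [h4]
  simp

/-- The continuous version of the indicator of a local event. -/
noncomputable def indFC (B : Set (Config d)) (hB : IsLocal (fun η => η ∈ B)) :
    C(Config d, ℝ) := ⟨indF B, (indF_local hB).continuous⟩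

lemma fullSet_indep {n : ℕ} {b : ZMod 2} {S : Finset V2} (hS : S ∈ fam n b) {v w : V2}
    (hvw : Adj2 v w) : ¬ (v ∈ fullSet n b S ∧ w ∈ fullSet n b S) := by
  classical
  rw [fam, Finset.mem_filter] at hS
  rintro ⟨h1, h2⟩
  exact hS.2.indep v w hvw h1 h2

theorem main (hd : 2 ≤ d) {q : ℝ} (hq : 0 < q) (hq18 : q < 1 / 10 ^ 18) :
    (∃! P, IsSemigroup (FA4 d) q P) ∧
      ∃ μ : Measure (Config d), IsProbabilityMeasure μ ∧ IsStationary (FA4 d) q μ ∧
        ¬ IsMixture (FA4 d) q μ := by
  have hq1 : q ≤ 1 := by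
    have : (1 : ℝ) / 10 ^ 18 ≤ 1 := by norm_num
    linarith
  refine ⟨existsUnique_isSemigroup (FA4 d) hq.le hq1, ?_⟩
  set lam : ℝ := (1 - q) / q with hlamdef
  have hlq : lam * q = 1 - q := by rw [hlamdef]; field_simp
  have hlam18 : (10 : ℝ) ^ 18 - 1 ≤ lam := by
    rw [hlamdef, le_div_iff₀ hq]
    have : q * 10 ^ 18 ≤ 1 := by
      have := mul_le_mul_of_nonneg_right hq18.le (show (0 : ℝ) ≤ 10 ^ 18 by norm_num)
      rwa [div_mul_cancel₀ _ (by norm_num)] at this
    nlinarith
  have hlam1 : 1 ≤ lam := le_trans (by norm_num) hlam18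
  have hlam0 : 0 < lam := by linarith
  have hlz : 1 ≤ lam * (1 / 20480 : ℝ) ^ 4 := by
    have : (20480 : ℝ) ^ 4 ≤ 10 ^ 18 - 1 := by norm_num
    have h2 : (20480 : ℝ) ^ 4 ≤ lam := this.trans hlam18
    rw [one_div, inv_pow, ← div_eq_mul_inv, le_div_iff₀ (by norm_num)]
    linarith
  obtain ⟨μ0, hμ0⟩ := exists_limit hd hlam0 0
  obtain ⟨μ1, hμ1⟩ := exists_limit hd hlam0 1
  have hstat0 := isStationary_limit hd hq.le hq1 hlam0 hlq hμ0
  have hstat1 := isStationary_limit hd hq.le hq1 hlam0 hlq hμ1
  have hloc1 : ∀ x : Site d, IsLocal (fun η : Config d => η ∈ {η : Config d | η x = false}) :=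
    fun x => ⟨{x}, fun η ζ h => by simp only [Set.mem_ofPred_eq, h x (by simp)]⟩
  have hloc2 : ∀ x y : Site d,
      IsLocal (fun η : Config d => η ∈ {η : Config d | η x = true ∧ η y = true}) := by
    classical
    intro x y
    refine ⟨{x, y}, fun η ζ h => ?_⟩
    simp only [Set.mem_ofPred_eq, h x (by simp), h y (by simp)]
  have hoff : ∀ (b : ZMod 2) (μ : ProbabilityMeasure (Config d)),
      (∀ f : C(Config d, ℝ), Tendsto (fun n => ∫ η, f η ∂(muFin hd lam n b))
        (hyperfilter ℕ : Filter ℕ) (𝓝 (∫ η, f η ∂(μ : Measure (Config d))))) →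
      ∀ x, x ∉ plane hd →
        ∫ η, indF {η : Config d | η x = false} η ∂(μ : Measure (Config d)) = 0 := by
    intro b μ hμ x hx
    refine eq_of_limit hd (hμ (indFC _ (hloc1 x))) (N := 0) fun n _ => ?_
    rw [integral_muFin hd hlam0, Finset.sum_eq_zero, zero_div]
    intro S _
    have : indFC {η : Config d | η x = false} (hloc1 x) (cfg hd (fullSet n b S)) = 0 := by
      change indF _ _ = 0
      unfold indF
      rw [if_neg]
      simp [cfg_off hd hx]
    rw [this, mul_zero]
  have hind : ∀ (b : ZMod 2) (μ : ProbabilityMeasure (Config d)),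
      (∀ f : C(Config d, ℝ), Tendsto (fun n => ∫ η, f η ∂(muFin hd lam n b))
        (hyperfilter ℕ : Filter ℕ) (𝓝 (∫ η, f η ∂(μ : Measure (Config d))))) →
      ∀ v w, Adj2 v w →
        ∫ η, indF {η : Config d | η (emb hd v) = true ∧ η (emb hd w) = true} η
          ∂(μ : Measure (Config d)) = 0 := by
    intro b μ hμ v w hvw
    refine eq_of_limit hd (hμ (indFC _ (hloc2 _ _))) (N := 0) fun n _ => ?_
    rw [integral_muFin hd hlam0, Finset.sum_eq_zero, zero_div]
    intro S hS
    have : indFC {η : Config d | η (emb hd v) = true ∧ η (emb hd w) = true} (hloc2 _ _)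
        (cfg hd (fullSet n b S)) = 0 := by
      change indF _ _ = 0
      unfold indF
      rw [if_neg]
      simp only [Set.mem_ofPred_eq, cfg_emb]
      exact fullSet_indep hS hvw
    rw [this, mul_zero]
  have hval0 : 3 / 10 ≤ ∫ η, indC (emb hd (0, 0)) η ∂(μ0 : Measure (Config d)) := by
    obtain ⟨N, hN⟩ := exists_mem_B2 (0, 0)
    refine ge_of_limit hd (hμ0 _) (N := N) fun n hn => ?_
    exact muFin_right_ge hd hlam1 hlz (hN n hn) (by decide)
  have hval1 : ∫ η, indC (emb hd (0, 0)) η ∂(μ1 : Measure (Config d)) ≤ 1 / 10 := by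
    refine le_of_limit hd (hμ1 _) (N := 0) fun n _ => ?_
    exact muFin_wrong_le hd hlam0 hlz n (by decide)
  by_cases hmix0 : IsMixture (FA4 d) q (μ0 : Measure (Config d))
  · by_cases hmix1 : IsMixture (FA4 d) q (μ1 : Measure (Config d))
    · exfalso
      have e0 := mixture_eq hd hq hq1 hmix0 (hoff 0 μ0 hμ0) (hind 0 μ0 hμ0)
        (indC (emb hd (0, 0))) (indC_local _)
      have e1 := mixture_eq hd hq hq1 hmix1 (hoff 1 μ1 hμ1) (hind 1 μ1 hμ1)
        (indC (emb hd (0, 0))) (indC_local _)
      rw [e0] at hval0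
      rw [e1] at hval1
      linarith
    · exact ⟨μ1, inferInstance, hstat1, hmix1⟩
  · exact ⟨μ0, inferInstance, hstat0, hmix0⟩

end Pool.Agent.KCM6f5b46
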