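import Pool.Agent.KCM6f5b46.FinVol

open MeasureTheory Filter Topology
open scoped NNReal ENNReal Nat

namespace Pool.Agent.KCM6f5b46

variable {d : ℕ}

/-- The finite box of radius `L`. -/
noncomputable def boxF (d : ℕ) (L : ℕ) : Finset (Site d) := nearF (L : ℝ) 0

lemma mem_boxF {L : ℕ} {x : Site d} : x ∈ boxF d L ↔ ‖x‖ ≤ L := by
  simp [boxF, mem_nearF]

lemma boxF_mono {L M : ℕ} (h : L ≤ M) : boxF d L ⊆ boxF d M := by
  intro x hx
  rw [mem_boxF] at hx ⊢
  exact hx.trans (by exact_mod_cast h)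

lemma exists_subset_boxF (A : Finset (Site d)) : ∃ L, A ⊆ boxF d L := by
  classical
  induction A using Finset.induction_on with
  | empty => exact ⟨0, by simp⟩
  | insert x A _ ih =>
    obtain ⟨L, hL⟩ := ih
    obtain ⟨M, hM⟩ := exists_nat_ge ‖x‖
    refine ⟨max L M, ?_⟩
    rw [Finset.insert_subset_iff]
    constructor
    · rw [mem_boxF]; exact hM.trans (by exact_mod_cast le_max_right _ _)
    · exact hL.trans (boxF_mono (le_max_left _ _))

section

variable (K : KCM d) {q : ℝ} (hq0 : 0 ≤ q) (hq1 : q ≤ 1)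

include hq0 hq1 in
lemma norm_Lsite_le (x : Site d) (f : C(Config d, ℝ)) :
    ‖Lsite K q x f‖ ≤ K.bound * ‖Dop x f‖ := by
  rw [Lsite_eq]
  refine (norm_mul_le _ _).trans ?_
  gcongr
  rw [ContinuousMap.norm_le _ (bound_nonneg K)]
  intro η
  rw [Real.norm_of_nonneg (rateC_nonneg K hq0 hq1 x η)]
  exact rateC_le K hq0 hq1 x η

include hq0 hq1 in
lemma norm_sum_Lsite_le {L : ℕ} {G : Finset (Site d)} (hG : ∀ x ∈ G, x ∉ boxF d L)
    (f : C(Config d, ℝ)) :
    ‖∑ x ∈ G, Lsite K q x f‖ ≤ K.bound * Real.exp (-L) * wSem G f := by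
  have hb := bound_nonneg K
  refine (norm_sum_le _ _).trans ?_
  rw [wSem_apply, Finset.mul_sum]
  apply Finset.sum_le_sum
  intro x hx
  refine (norm_Lsite_le K hq0 hq1 x f).trans ?_
  have h1 : (L : ℝ) ≤ ‖x‖ := by
    have := hG x hx
    rw [mem_boxF, not_le] at this
    exact this.le
  have h2 : 1 ≤ Real.exp (-L) * Real.exp ‖x‖ := by
    rw [← Real.exp_add, ← Real.exp_zero]
    apply Real.exp_le_exp.2
    linarith
  calc K.bound * ‖Dop x f‖ = K.bound * 1 * ‖Dop x f‖ := by ring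
    _ ≤ K.bound * (Real.exp (-L) * Real.exp ‖x‖) * ‖Dop x f‖ := by gcongr
    _ = _ := by ring

include hq0 hq1 in
lemma norm_Lfin_sub_le {L : ℕ} {Λ Λ' : Finset (Site d)}
    (h1 : boxF d L ⊆ Λ) (h2 : Λ ⊆ Λ') {A : Finset (Site d)} {f : C(Config d, ℝ)}
    (hf : DependsOn f A) {s t : ℝ} (hs : 0 ≤ s) (hst : s ≤ t) :
    ‖(Lfin K q Λ' - Lfin K q Λ) (Pfin K q Λ s f)‖
      ≤ K.bound * Real.exp (-L) * (Real.exp (t * cst K) * wSem A f) := by
  classical
  have hb := bound_nonneg K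
  have hc := cst_nonneg K
  have e1 : (Lfin K q Λ' - Lfin K q Λ) (Pfin K q Λ s f)
      = ∑ x ∈ Λ' \ Λ, Lsite K q x (Pfin K q Λ s f) := by
    rw [sub_apply, Lfin_eq_sum, Lfin_eq_sum, ← Finset.sum_sdiff h2]
    abel
  rw [e1]
  refine (norm_sum_Lsite_le K hq0 hq1 (L := L) ?_ _).trans ?_
  · intro x hx hx'
    exact (Finset.mem_sdiff.1 hx).2 (h1 hx')
  · gcongr
    calc wSem (Λ' \ Λ) (Pfin K q Λ s f) ≤ wSem Λ' (Pfin K q Λ s f) := by
          rw [wSem_apply, wSem_apply]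
          apply Finset.sum_le_sum_of_subset_of_nonneg Finset.sdiff_subset
          intro x _ _; positivity
      _ ≤ Real.exp (s * cst K) * wSem Λ' f := wSem_Pfin_le K hq0 hq1 h2 hs f
      _ ≤ Real.exp (t * cst K) * wSem A f := by
          gcongr
          exact wSem_le_of_dependsOn hf Λ'

include hq0 hq1 in
/-- Comparison of two finite volume semigroups on a local function. -/
lemma norm_Pfin_sub_le {L : ℕ} {Λ Λ' : Finset (Site d)}
    (h1 : boxF d L ⊆ Λ) (h2 : Λ ⊆ Λ') {A : Finset (Site d)} {f : C(Config d, ℝ)}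
    (hf : DependsOn f A) {t : ℝ} (ht : 0 ≤ t) :
    ‖Pfin K q Λ' t f - Pfin K q Λ t f‖
      ≤ K.bound * Real.exp (-L) * (Real.exp (t * cst K) * wSem A f) * t :=
  norm_expOp_sub_le (Lfin K q Λ) (Lfin K q Λ') ht f _
    (fun s hs g => norm_Pfin_le K hq0 hq1 Λ' hs g)
    (fun s hs hst => norm_Lfin_sub_le K hq0 hq1 h1 h2 hf hs hst)

end

end Pool.Agent.KCM6f5b46
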