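import Pool.Agent.KCM6f5b46.Model

open MeasureTheory Filter Topology
open scoped NNReal ENNReal

namespace Pool.Agent.KCM6f5b46

variable {d : ℕ}

lemma empty_mem_fam (n : ℕ) (b : ZMod 2) : ∅ ∈ fam n b := by
  classical
  rw [fam, Finset.mem_filter, Finset.mem_powerset]
  refine ⟨Finset.empty_subset _, ?_, fun v hv => mem_fullSet_of_not_mem hv⟩
  intro u w huw hu hw
  have h1 : par u = b := by
    by_cases h : u ∈ B2 n
    · rw [mem_fullSet_of_mem h] at hu; simp at hu
    · exact (mem_fullSet_of_not_mem h).1 hu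
  have h2 : par w = b := by
    by_cases h : w ∈ B2 n
    · rw [mem_fullSet_of_mem h] at hw; simp at hw
    · exact (mem_fullSet_of_not_mem h).1 hw
  rw [huw.par_eq, h1] at h2
  exact zmod2_add_one_ne b h2

lemma ZZ_pos {lam : ℝ} (hlam : 0 < lam) (n : ℕ) (b : ZMod 2) : 0 < ZZ lam n b :=
  Finset.sum_pos (fun S _ => by positivity) ⟨∅, empty_mem_fam n b⟩

variable (hd : 2 ≤ d)

/-- The finite volume hard-core measure with boundary condition `b` on the plane, filled off the
plane. -/
noncomputable def muFin (lam : ℝ) (n : ℕ) (b : ZMod 2) : Measure (Config d) :=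
  ∑ S ∈ fam n b, ENNReal.ofReal (lam ^ S.card / ZZ lam n b) •
    Measure.dirac (cfg hd (fullSet n b S))

lemma isProbabilityMeasure_muFin {lam : ℝ} (hlam : 0 < lam) (n : ℕ) (b : ZMod 2) :
    IsProbabilityMeasure (muFin hd lam n b) := by
  constructor
  have hZ := ZZ_pos hlam n b
  rw [muFin, Measure.finsetSum_apply]
  simp only [Measure.smul_apply, measure_univ, smul_eq_mul, mul_one]
  rw [← ENNReal.ofReal_sum_of_nonneg (fun S _ => by positivity), ← Finset.sum_div]
  rw [show ∑ S ∈ fam n b, lam ^ S.card = ZZ lam n b from rfl, div_self hZ.ne']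
  simp

lemma integral_muFin {lam : ℝ} (hlam : 0 < lam) (n : ℕ) (b : ZMod 2) (f : C(Config d, ℝ)) :
    ∫ η, f η ∂(muFin hd lam n b)
      = (∑ S ∈ fam n b, lam ^ S.card * f (cfg hd (fullSet n b S))) / ZZ lam n b := by
  have hZ := ZZ_pos hlam n b
  rw [muFin, integral_finsetSum_measure]
  · rw [Finset.sum_div]
    apply Finset.sum_congr rfl
    intro S _
    rw [integral_smul_measure, integral_dirac, ENNReal.toReal_ofReal (by positivity),
      smul_eq_mul]
    ring
  · intro S _
    apply Integrable.smul_measure _ ENNReal.ofReal_ne_top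
    exact integrable_C _ f

/-- The finite volume measure as a probability measure. -/
noncomputable def muP {lam : ℝ} (hlam : 0 < lam) (b : ZMod 2) (n : ℕ) :
    ProbabilityMeasure (Config d) :=
  ⟨muFin hd lam n b, isProbabilityMeasure_muFin hd hlam n b⟩

lemma exists_limit {lam : ℝ} (hlam : 0 < lam) (b : ZMod 2) :
    ∃ μ : ProbabilityMeasure (Config d), ∀ f : C(Config d, ℝ),
      Tendsto (fun n => ∫ η, f η ∂(muFin hd lam n b)) (hyperfilter ℕ : Filter ℕ)
        (𝓝 (∫ η, f η ∂(μ : Measure (Config d)))) := by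
  refine ⟨((hyperfilter ℕ).map (muP hd hlam b)).lim, fun f => ?_⟩
  have h1 := ((hyperfilter ℕ).map (muP hd hlam b)).le_nhds_lim
  have h2 : Tendsto (muP hd hlam b) (hyperfilter ℕ : Filter ℕ)
      (𝓝 ((hyperfilter ℕ).map (muP hd hlam b)).lim) := h1
  rw [ProbabilityMeasure.tendsto_iff_forall_integral_tendsto] at h2
  exact h2 (BoundedContinuousFunction.mkOfCompact f)

/-- Passing inequalities to the limit. -/
lemma le_of_limit {μ : Measure (Config d)} {lam : ℝ} {b : ZMod 2} {f : C(Config d, ℝ)}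
    (h : Tendsto (fun n => ∫ η, f η ∂(muFin hd lam n b)) (hyperfilter ℕ : Filter ℕ)
        (𝓝 (∫ η, f η ∂μ))) {c : ℝ} {N : ℕ}
    (hc : ∀ n, N ≤ n → ∫ η, f η ∂(muFin hd lam n b) ≤ c) : ∫ η, f η ∂μ ≤ c := by
  refine le_of_tendsto h ?_
  exact Nat.hyperfilter_le_atTop (eventually_atTop.2 ⟨N, hc⟩)

lemma ge_of_limit {μ : Measure (Config d)} {lam : ℝ} {b : ZMod 2} {f : C(Config d, ℝ)}
    (h : Tendsto (fun n => ∫ η, f η ∂(muFin hd lam n b)) (hyperfilter ℕ : Filter ℕ)
        (𝓝 (∫ η, f η ∂μ))) {c : ℝ} {N : ℕ}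
    (hc : ∀ n, N ≤ n → c ≤ ∫ η, f η ∂(muFin hd lam n b)) : c ≤ ∫ η, f η ∂μ := by
  refine ge_of_tendsto h ?_
  exact Nat.hyperfilter_le_atTop (eventually_atTop.2 ⟨N, hc⟩)

lemma eq_of_limit {μ : Measure (Config d)} {lam : ℝ} {b : ZMod 2} {f : C(Config d, ℝ)}
    (h : Tendsto (fun n => ∫ η, f η ∂(muFin hd lam n b)) (hyperfilter ℕ : Filter ℕ)
        (𝓝 (∫ η, f η ∂μ))) {c : ℝ} {N : ℕ}
    (hc : ∀ n, N ≤ n → ∫ η, f η ∂(muFin hd lam n b) = c) : ∫ η, f η ∂μ = c :=
  le_antisymm (le_of_limit hd h fun n hn => (hc n hn).le)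
    (ge_of_limit hd h fun n hn => (hc n hn).ge)

lemma exists_mem_B2 (v : V2) : ∃ N : ℕ, ∀ n, N ≤ n → v ∈ B2 n := by
  refine ⟨v.1.natAbs + v.2.natAbs, fun n hn => ?_⟩
  rw [mem_B2]
  omega

lemma muFin_balance {lam q : ℝ} (hlam : 0 < lam) (hlq : lam * q = 1 - q) {n : ℕ} {b : ZMod 2}
    {v : V2} (hv : v ∈ B2 n) (f : C(Config d, ℝ)) :
    ∫ η, Lsite (FA4 d) q (emb hd v) f η ∂(muFin hd lam n b) = 0 := by
  rw [integral_muFin hd hlam, sum_balance hd hlq hv, zero_div]

lemma muFin_balance_off {lam q : ℝ} (hlam : 0 < lam) {n : ℕ} {b : ZMod 2}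
    {x : Site d} (hx : x ∉ plane hd) (f : C(Config d, ℝ)) :
    ∫ η, Lsite (FA4 d) q x f η ∂(muFin hd lam n b) = 0 := by
  rw [integral_muFin hd hlam, Finset.sum_eq_zero, zero_div]
  intro S _
  rw [Lsite_apply, rateC_apply, FA4_rate_cfg_off hd _ hx]
  ring

/-- Limit measures are stationary. -/
lemma isStationary_limit {lam q : ℝ} (hq0 : 0 ≤ q) (hq1 : q ≤ 1) (hlam : 0 < lam)
    (hlq : lam * q = 1 - q) {b : ZMod 2} {μ : Measure (Config d)} [IsProbabilityMeasure μ]
    (hμ : ∀ f : C(Config d, ℝ),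
      Tendsto (fun n => ∫ η, f η ∂(muFin hd lam n b)) (hyperfilter ℕ : Filter ℕ)
        (𝓝 (∫ η, f η ∂μ))) : IsStationary (FA4 d) q μ := by
  apply isStationary_of_balance (FA4 d) hq0 hq1
  intro x f
  by_cases hx : x ∈ plane hd
  · rw [← emb_proj hd hx]
    obtain ⟨N, hN⟩ := exists_mem_B2 (proj hd x)
    exact eq_of_limit hd (hμ _) (N := N) fun n hn => muFin_balance hd hlam hlq (hN n hn) f
  · exact eq_of_limit hd (hμ _) (N := 0) fun n _ => muFin_balance_off hd hlam hx f

open Classical in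
lemma integral_indC_emb {lam : ℝ} (hlam : 0 < lam) (n : ℕ) (b : ZMod 2) (v : V2) :
    ∫ η, indC (emb hd v) η ∂(muFin hd lam n b)
      = (∑ S ∈ (fam n b).filter (fun S => v ∈ fullSet n b S), lam ^ S.card) / ZZ lam n b := by
  classical
  rw [integral_muFin hd hlam]
  congr 1
  rw [Finset.sum_filter]
  apply Finset.sum_congr
  · rfl
  intro S _
  rw [indC_apply]
  simp only [cfg_emb]
  split_ifs <;> simp

lemma muFin_wrong_le {lam : ℝ} (hlam : 0 < lam) (hlz : 1 ≤ lam * (1 / 20480 : ℝ) ^ 4) (n : ℕ)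
    {b : ZMod 2} {v : V2} (hv : par v ≠ b) :
    ∫ η, indC (emb hd v) η ∂(muFin hd lam n b) ≤ 1 / 10 := by
  rw [integral_indC_emb hd hlam, div_le_iff₀ (ZZ_pos hlam n b)]
  exact peierls hlam hlz n b hv

open Classical in
lemma muFin_right_ge {lam : ℝ} (hlam : 1 ≤ lam) (hlz : 1 ≤ lam * (1 / 20480 : ℝ) ^ 4) {n : ℕ}
    {b : ZMod 2} {v : V2} (hvB : v ∈ B2 n) (hv : par v = b) :
    3 / 10 ≤ ∫ η, indC (emb hd v) η ∂(muFin hd lam n b) := by
  have hlam0 : 0 < lam := by linarith
  have hZ := ZZ_pos hlam0 n b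
  rw [integral_indC_emb hd hlam0, le_div_iff₀ hZ]
  set a := ∑ S ∈ (fam n b).filter (fun S => v ∈ fullSet n b S), lam ^ S.card with ha
  set nb : Finset V2 := {(v.1 + 1, v.2), (v.1 + -1, v.2), (v.1, v.2 + 1), (v.1, v.2 + -1)}
    with hnb
  have hmem : ∀ w, w ∈ nb ↔ Adj2 v w := by
    intro w
    rw [hnb, adj2_iff_nbr]
    simp only [Finset.mem_insert, Finset.mem_singleton]
  -- free and unoccupied
  set c₀ := ∑ S ∈ (fam n b).filter
    (fun S => v ∉ fullSet n b S ∧ ∀ w, Adj2 v w → w ∉ fullSet n b S), lam ^ S.card with hc₀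
  have h1 : lam * c₀ ≤ a := by
    rw [hc₀, Finset.mul_sum, ha]
    calc ∑ S ∈ (fam n b).filter
          (fun S => v ∉ fullSet n b S ∧ ∀ w, Adj2 v w → w ∉ fullSet n b S), lam * lam ^ S.card
        = ∑ S ∈ (fam n b).filter
          (fun S => v ∉ fullSet n b S ∧ ∀ w, Adj2 v w → w ∉ fullSet n b S),
            lam ^ (tog v S).card := by
          apply Finset.sum_congr rfl
          intro S hS
          rw [Finset.mem_filter] at hS
          have hvS : v ∉ S := by
            rw [← mem_fullSet_of_mem (b := b) hvB]; exact hS.2.1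
          have h2 : (tog v S).card = S.card + 1 := by
            unfold tog; rw [if_neg hvS, Finset.card_insert_of_notMem hvS]
          rw [h2]; ring
      _ = ∑ T ∈ ((fam n b).filter
          (fun S => v ∉ fullSet n b S ∧ ∀ w, Adj2 v w → w ∉ fullSet n b S)).image (tog v),
            lam ^ T.card := by
          rw [Finset.sum_image]
          intro S _ T _ hST
          have h3 : tog v (tog v S) = tog v (tog v T) := congrArg (tog v) hST
          rwa [tog_tog, tog_tog] at h3
      _ ≤ ∑ S ∈ (fam n b).filter (fun S => v ∈ fullSet n b S), lam ^ S.card := by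
          apply Finset.sum_le_sum_of_subset_of_nonneg
          · intro T hT
            obtain ⟨S, hS, rfl⟩ := Finset.mem_image.1 hT
            rw [Finset.mem_filter] at hS ⊢
            exact ⟨tog_mem_fam hvB hS.1 hS.2.2, (mem_fullSet_tog_self hvB).2 hS.2.1⟩
          · intro T _ _; positivity
  have hc₀0 : 0 ≤ c₀ := Finset.sum_nonneg fun S _ => by positivity
  have h2 : c₀ ≤ a := by nlinarith
  have h3 : ZZ lam n b ≤ a + c₀ + ∑ w ∈ nb,
      ∑ S ∈ (fam n b).filter (fun S => w ∈ fullSet n b S), lam ^ S.card := by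
    rw [ZZ, ha, hc₀]
    simp only [Finset.sum_filter]
    rw [Finset.sum_comm, ← Finset.sum_add_distrib, ← Finset.sum_add_distrib]
    apply Finset.sum_le_sum
    intro S _
    have hpos : 0 ≤ lam ^ S.card := by positivity
    have hsum : 0 ≤ ∑ w ∈ nb, if w ∈ fullSet n b S then lam ^ S.card else 0 := by
      apply Finset.sum_nonneg
      intro w _
      split_ifs
      · exact hpos
      · exact le_refl _
    by_cases hvS : v ∈ fullSet n b S
    · rw [if_pos hvS]
      have : 0 ≤ (if v ∉ fullSet n b S ∧ ∀ w, Adj2 v w → w ∉ fullSet n b S then lam ^ S.card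
        else 0) := by
        split_ifs
        · exact hpos
        · exact le_refl _
      linarith
    · by_cases hfr : ∀ w, Adj2 v w → w ∉ fullSet n b S
      · rw [if_neg hvS, if_pos ⟨hvS, hfr⟩]
        linarith
      · push Not at hfr
        obtain ⟨w, hw, hwS⟩ := hfr
        have hw' := (hmem w).2 hw
        have h4 := Finset.single_le_sum (f := fun w : V2 =>
          if w ∈ fullSet n b S then lam ^ S.card else 0) (s := nb) (fun i _ => by
            split_ifs
            · exact hpos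
            · exact le_refl _) hw'
        simp only [if_pos hwS] at h4
        have : 0 ≤ (if v ∉ fullSet n b S ∧ ∀ w, Adj2 v w → w ∉ fullSet n b S then lam ^ S.card
          else 0) := by
          split_ifs
          · exact hpos
          · exact le_refl _
        rw [if_neg hvS]
        linarith
  have h4 : ∑ w ∈ nb, ∑ S ∈ (fam n b).filter (fun S => w ∈ fullSet n b S), lam ^ S.card
      ≤ 4 * ((1 / 10) * ZZ lam n b) := by
    calc ∑ w ∈ nb, ∑ S ∈ (fam n b).filter (fun S => w ∈ fullSet n b S), lam ^ S.card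
        ≤ ∑ _w ∈ nb, (1 / 10) * ZZ lam n b := by
          apply Finset.sum_le_sum
          intro w hw
          apply peierls hlam0 hlz n b
          rw [((hmem w).1 hw).par_eq, hv]
          exact zmod2_add_one_ne b
      _ = nb.card * ((1 / 10) * ZZ lam n b) := by rw [Finset.sum_const, nsmul_eq_mul]
      _ ≤ 4 * ((1 / 10) * ZZ lam n b) := by
          have : (nb.card : ℝ) ≤ 4 := by exact_mod_cast Finset.card_le_four
          have h5 : 0 ≤ (1 / 10) * ZZ lam n b := by positivity
          nlinarith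
  linarith

end Pool.Agent.KCM6f5b46
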