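import Pool.Agent.KCM6f5b46.Shift

namespace Pool.Agent.KCM6f5b46

open Classical in
/-- The degree of the relation `EAdj` is at most `8`. -/
lemma card_EAdj_le (U : Finset E2) (a : E2) : (U.filter (EAdj a)).card ≤ 8 := by
  set x₂ : V2 := if a.2 = true then (a.1.1 - 1, a.1.2) else (a.1.1, a.1.2 - 1) with hx₂
  have h1 : U.filter (EAdj a) ⊆ plaq a.1 ∪ plaq x₂ := by
    intro c hc
    obtain ⟨x, hax, hcx⟩ := (Finset.mem_filter.1 hc).2
    have h2 : x = a.1 ∨ x = x₂ := by
      rw [mem_plaq_iff] at hax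
      obtain ⟨x1, x2⟩ := x
      rcases hax with rfl | rfl | rfl | rfl
      · left; rfl
      · right; simp [hx₂]
      · left; rfl
      · right; simp [hx₂]
    rw [Finset.mem_union]
    rcases h2 with rfl | rfl
    · exact Or.inl hcx
    · exact Or.inr hcx
  have hp : ∀ x, (plaq x).card ≤ 4 := by
    intro x
    unfold plaq
    exact Finset.card_le_four
  calc (U.filter (EAdj a)).card ≤ (plaq a.1 ∪ plaq x₂).card := Finset.card_le_card h1
    _ ≤ (plaq a.1).card + (plaq x₂).card := Finset.card_union_le _ _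
    _ ≤ 4 + 4 := Nat.add_le_add (hp _) (hp _)

/-- The configuration with occupied set `S` in the box and sites of parity `b` outside. -/
def fullSet (n : ℕ) (b : ZMod 2) (S : Finset V2) : Set V2 :=
  {v | (v ∈ B2 n ∧ v ∈ S) ∨ (v ∉ B2 n ∧ par v = b)}

open Classical in
/-- Allowed occupied sets inside the box with boundary condition `b`. -/
noncomputable def fam (n : ℕ) (b : ZMod 2) : Finset (Finset V2) :=
  (B2 n).powerset.filter fun S => Valid n b (fullSet n b S)

/-- Partition function. -/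
noncomputable def ZZ (lam : ℝ) (n : ℕ) (b : ZMod 2) : ℝ := ∑ S ∈ fam n b, lam ^ S.card

variable {n : ℕ} {b : ZMod 2}

lemma mem_fullSet_of_mem {S : Finset V2} {v : V2} (hv : v ∈ B2 n) :
    v ∈ fullSet n b S ↔ v ∈ S := by
  unfold fullSet
  simp only [Set.mem_ofPred_eq]; tauto

lemma mem_fullSet_of_not_mem {S : Finset V2} {v : V2} (hv : v ∉ B2 n) :
    v ∈ fullSet n b S ↔ par v = b := by
  unfold fullSet
  simp only [Set.mem_ofPred_eq]; tauto

open Classical in
/-- The set of possible contours around `v`. -/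
noncomputable def conts (n : ℕ) (v : V2) : Finset (Finset E2) :=
  (EB n).powerset.filter fun γ => Conn EAdj γ ∧
    ∃ j : ℕ, ((v.1 + j, v.2), false) ∈ γ ∧ j ≤ γ.card

open Classical in
lemma sum_conts_le (n : ℕ) (v : V2) {θ : ℝ} (hθ0 : 0 ≤ θ) (hθ1 : θ ≤ 1) :
    ∑ γ ∈ conts n v, (θ / 1024) ^ γ.card ≤ 2 * θ := by
  set G : ℕ → Finset (Finset E2) := fun j =>
    (EB n).powerset.filter fun S => ((v.1 + j, v.2), false) ∈ S ∧ Conn EAdj S with hG
  have h1 : ∀ γ ∈ conts n v, (θ / 1024) ^ γ.card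
      ≤ ∑ j ∈ Finset.range ((EB n).card + 1),
        if ((v.1 + (j : ℤ), v.2), false) ∈ γ ∧ Conn EAdj γ then
          (1 / 2 : ℝ) ^ j * (θ * ((1 / 2 : ℝ) ^ (8 + 1)) ^ γ.card) else 0 := by
    intro γ hγ
    simp only [conts, Finset.mem_filter, Finset.mem_powerset] at hγ
    obtain ⟨hγE, hconn, j, hj, hjc⟩ := hγ
    have hjr : j ∈ Finset.range ((EB n).card + 1) := by
      rw [Finset.mem_range]
      have := Finset.card_le_card hγE
      omega
    have hpos : 1 ≤ γ.card := Finset.card_pos.2 ⟨_, hj⟩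
    have h2 : (θ / 1024) ^ γ.card
        ≤ (1 / 2 : ℝ) ^ j * (θ * ((1 / 2 : ℝ) ^ (8 + 1)) ^ γ.card) := by
      have e1 : (θ / 1024 : ℝ) = (1 / 2) * (θ * (1 / 2) ^ (8 + 1)) := by norm_num; ring
      rw [e1, mul_pow, mul_pow]
      have e2 : (1 / 2 : ℝ) ^ γ.card ≤ (1 / 2 : ℝ) ^ j :=
        pow_le_pow_of_le_one (by norm_num) (by norm_num) hjc
      have e3 : θ ^ γ.card ≤ θ := by
        calc θ ^ γ.card ≤ θ ^ 1 := pow_le_pow_of_le_one hθ0 hθ1 hpos
          _ = θ := pow_one θ
      gcongr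
    refine h2.trans ?_
    have h3 := Finset.single_le_sum (f := fun j : ℕ =>
      if ((v.1 + (j : ℤ), v.2), false) ∈ γ ∧ Conn EAdj γ then
          (1 / 2 : ℝ) ^ j * (θ * ((1 / 2 : ℝ) ^ (8 + 1)) ^ γ.card) else 0)
      (s := Finset.range ((EB n).card + 1)) (fun i _ => by
        split_ifs
        · positivity
        · exact le_refl _) hjr
    rw [if_pos ⟨hj, hconn⟩] at h3
    exact h3
  calc ∑ γ ∈ conts n v, (θ / 1024) ^ γ.card
      ≤ ∑ γ ∈ conts n v, ∑ j ∈ Finset.range ((EB n).card + 1),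
        (if ((v.1 + (j : ℤ), v.2), false) ∈ γ ∧ Conn EAdj γ then
          (1 / 2 : ℝ) ^ j * (θ * ((1 / 2 : ℝ) ^ (8 + 1)) ^ γ.card) else 0) :=
        Finset.sum_le_sum h1
    _ = ∑ j ∈ Finset.range ((EB n).card + 1), ∑ γ ∈ conts n v,
        (if ((v.1 + (j : ℤ), v.2), false) ∈ γ ∧ Conn EAdj γ then
          (1 / 2 : ℝ) ^ j * (θ * ((1 / 2 : ℝ) ^ (8 + 1)) ^ γ.card) else 0) :=
        Finset.sum_comm
    _ ≤ ∑ j ∈ Finset.range ((EB n).card + 1), (1 / 2 : ℝ) ^ j * θ := by
        apply Finset.sum_le_sum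
        intro j _
        calc ∑ γ ∈ conts n v,
            (if ((v.1 + (j : ℤ), v.2), false) ∈ γ ∧ Conn EAdj γ then
              (1 / 2 : ℝ) ^ j * (θ * ((1 / 2 : ℝ) ^ (8 + 1)) ^ γ.card) else 0)
            ≤ ∑ γ ∈ (EB n).powerset,
            (if ((v.1 + (j : ℤ), v.2), false) ∈ γ ∧ Conn EAdj γ then
              (1 / 2 : ℝ) ^ j * (θ * ((1 / 2 : ℝ) ^ (8 + 1)) ^ γ.card) else 0) := by
              apply Finset.sum_le_sum_of_subset_of_nonneg
              · exact Finset.filter_subset _ _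
              · intro γ _ _
                split_ifs
                · positivity
                · exact le_refl _
          _ = (1 / 2 : ℝ) ^ j * (θ * ∑ γ ∈ G j, ((1 / 2 : ℝ) ^ (8 + 1)) ^ γ.card) := by
              rw [← Finset.sum_filter, Finset.mul_sum, Finset.mul_sum]
          _ ≤ (1 / 2 : ℝ) ^ j * (θ * 1) := by
              gcongr
              exact sum_conn_le (EB n) EAdj 8 (fun a _ => card_EAdj_le _ a) _
          _ = _ := by ring
    _ = (∑ j ∈ Finset.range ((EB n).card + 1), (1 / 2 : ℝ) ^ j) * θ := by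
        rw [Finset.sum_mul]
    _ ≤ 2 * θ := by
        gcongr
        exact sum_geometric_two_le _

/-- The contour `γ` is adapted to the configuration `S`. -/
def Adapted (n : ℕ) (b : ZMod 2) (γ : Finset E2) (S : Finset V2) : Prop :=
  EvenSet γ ∧ (∀ e ∈ γ, e.1 ∈ B2 n ∨ tip e ∈ B2 n) ∧
    ∃ c : ZMod 2, ∀ u w, Adj2 u w → u ∈ Wset γ → w ∉ Wset γ →
      u ∉ fullSet n b S ∧ w ∉ fullSet n b S ∧ par u = c

open Classical in
lemma sum_adapted_le {lam ζ : ℝ} (hlam : 0 < lam) (hζ0 : 0 ≤ ζ) (hζ1 : ζ ≤ 1)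
    (hlz : 1 ≤ lam * ζ ^ 4) (γ : Finset E2) :
    ∑ S ∈ (fam n b).filter (fun S => Adapted n b γ S), lam ^ S.card
      ≤ ζ ^ γ.card * ZZ lam n b := by
  set H := (fam n b).filter (fun S => Adapted n b γ S) with hH
  rcases H.eq_empty_or_nonempty with h0 | ⟨S₀, hS₀⟩
  · rw [h0, Finset.sum_empty]
    have : 0 ≤ ZZ lam n b := Finset.sum_nonneg fun S _ => by positivity
    positivity
  have hS₀' := (Finset.mem_filter.1 hS₀).2
  obtain ⟨heven, hγ, -⟩ := hS₀'
  obtain ⟨δ, hδ, hcard⟩ := exists_dir heven hγ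
  set N := ((B2 n).filter fun v => v ∈ Wset γ ∧ v + δ ∉ Wset γ).card with hN
  have hWB : ∀ v ∈ Wset γ, v ∈ B2 n := fun v hv => Wset_subset heven hγ hv
  let Φ : Finset V2 → Finset V2 := fun S =>
    (B2 n).filter fun v => v ∈ shiftSet (Wset γ) δ (fullSet n b S)
  have hfull : ∀ S, fullSet n b (Φ S) = shiftSet (Wset γ) δ (fullSet n b S) := by
    intro S
    ext v
    by_cases hv : v ∈ B2 n
    · rw [mem_fullSet_of_mem hv]
      simp only [Φ, Finset.mem_filter, hv, true_and]
    · have hvW : v ∉ Wset γ := fun h => hv (hWB v h)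
      rw [mem_fullSet_of_not_mem hv, mem_shiftSet_of_not_mem hvW, mem_fullSet_of_not_mem hv]
  have hΦmem : ∀ S ∈ H, Φ S ∈ fam n b := by
    intro S hS
    rw [hH, Finset.mem_filter, fam, Finset.mem_filter] at hS
    obtain ⟨⟨_, hval⟩, _, _, c, hc⟩ := hS
    rw [fam, Finset.mem_filter, Finset.mem_powerset]
    refine ⟨Finset.filter_subset _ _, ?_⟩
    rw [hfull]
    refine ⟨shiftSet_indep hδ hval.indep hc, fun v hv => ?_⟩
    have hvW : v ∉ Wset γ := fun h => hv (hWB v h)
    rw [mem_shiftSet_of_not_mem hvW, mem_fullSet_of_not_mem hv]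
  have hΦcard : ∀ S ∈ H, (Φ S).card = S.card + N := by
    intro S hS
    rw [hH, Finset.mem_filter, fam, Finset.mem_filter, Finset.mem_powerset] at hS
    obtain ⟨⟨hSB, _⟩, _, _, c, hc⟩ := hS
    have h1 := card_shift (I := fullSet n b S) hδ hWB hc
    have h2 : (B2 n).filter (fun v => v ∈ fullSet n b S) = S := by
      ext v
      rw [Finset.mem_filter]
      constructor
      · rintro ⟨h3, h4⟩; exact (mem_fullSet_of_mem h3).1 h4
      · intro h3; exact ⟨hSB h3, (mem_fullSet_of_mem (hSB h3)).2 h3⟩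
    rw [h2] at h1
    exact h1
  have hΦinj : Set.InjOn Φ H := by
    intro S hS T hT hST
    rw [Finset.mem_coe, hH, Finset.mem_filter, fam, Finset.mem_filter, Finset.mem_powerset]
      at hS hT
    obtain ⟨⟨hSB, _⟩, _, _, c, hc⟩ := hS
    obtain ⟨⟨hTB, _⟩, _, _, c', hc'⟩ := hT
    have h1 : shiftSet (Wset γ) δ (fullSet n b S) = shiftSet (Wset γ) δ (fullSet n b T) := by
      rw [← hfull, ← hfull, hST]
    have h2 := shiftSet_injective hδ hc hc' h1
    ext v
    by_cases hv : v ∈ B2 n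
    · rw [← mem_fullSet_of_mem (b := b) hv, h2, mem_fullSet_of_mem hv]
    · exact ⟨fun h => absurd (hSB h) hv, fun h => absurd (hTB h) hv⟩
  have hle : ∑ S ∈ H, lam ^ (S.card + N) ≤ ZZ lam n b := by
    calc ∑ S ∈ H, lam ^ (S.card + N) = ∑ S ∈ H, lam ^ (Φ S).card :=
          Finset.sum_congr rfl fun S hS => by rw [hΦcard S hS]
      _ = ∑ T ∈ H.image Φ, lam ^ T.card := by
          rw [Finset.sum_image (fun S hS T hT h => hΦinj hS hT h)]
      _ ≤ ∑ T ∈ fam n b, lam ^ T.card := by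
          apply Finset.sum_le_sum_of_subset_of_nonneg
          · intro T hT
            obtain ⟨S, hS, rfl⟩ := Finset.mem_image.1 hT
            exact hΦmem S hS
          · intro T _ _; positivity
  have hZ : 0 ≤ ZZ lam n b := Finset.sum_nonneg fun S _ => by positivity
  have h5 : 1 ≤ lam ^ N * ζ ^ (4 * N) := by
    rw [pow_mul, ← mul_pow]
    exact one_le_pow₀ hlz
  have h6 : ζ ^ (4 * N) ≤ ζ ^ γ.card := pow_le_pow_of_le_one hζ0 hζ1 hcard
  have hsum0 : 0 ≤ ∑ S ∈ H, lam ^ S.card := Finset.sum_nonneg fun S _ => by positivity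
  calc ∑ S ∈ H, lam ^ S.card
      ≤ (∑ S ∈ H, lam ^ S.card) * (lam ^ N * ζ ^ (4 * N)) := by
        nlinarith
    _ = ζ ^ (4 * N) * ∑ S ∈ H, lam ^ (S.card + N) := by
        rw [Finset.mul_sum, Finset.sum_mul]
        apply Finset.sum_congr rfl
        intro S _
        rw [pow_add]; ring
    _ ≤ ζ ^ (4 * N) * ZZ lam n b := by gcongr
    _ ≤ ζ ^ γ.card * ZZ lam n b := by gcongr

open Classical in
/-- The Peierls estimate: with boundary condition `b`, a site of the other parity is occupied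
with probability at most `1/10`. -/
theorem peierls {lam : ℝ} (hlam : 0 < lam) (hlz : 1 ≤ lam * (1 / 20480 : ℝ) ^ 4) (n : ℕ)
    (b : ZMod 2) {v : V2} (hv : par v ≠ b) :
    ∑ S ∈ (fam n b).filter (fun S => v ∈ fullSet n b S), lam ^ S.card
      ≤ (1 / 10) * ZZ lam n b := by
  have hZ : 0 ≤ ZZ lam n b := Finset.sum_nonneg fun S _ => by positivity
  have h1 : ∀ S ∈ (fam n b).filter (fun S => v ∈ fullSet n b S), lam ^ S.card
      ≤ ∑ γ ∈ conts n v, if Adapted n b γ S then lam ^ S.card else 0 := by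
    intro S hS
    rw [Finset.mem_filter, fam, Finset.mem_filter] at hS
    obtain ⟨⟨_, hval⟩, hvS⟩ := hS
    obtain ⟨γ, hγE, heven, hconn, hcr, hγB, hc⟩ := hval.exists_contour (v := v) ⟨hvS, hv⟩
    obtain ⟨j, hj, hjc⟩ := exists_ray_edge heven hconn hγB hcr
    have hγm : γ ∈ conts n v := by
      rw [conts, Finset.mem_filter, Finset.mem_powerset]
      exact ⟨hγE, hconn, j, hj, hjc⟩
    have hAd : Adapted n b γ S := ⟨heven, hγB, hc⟩
    have h3 := Finset.single_le_sum (f := fun γ : Finset E2 =>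
      if Adapted n b γ S then lam ^ S.card else 0) (s := conts n v) (fun i _ => by
        split_ifs
        · positivity
        · exact le_refl _) hγm
    rw [if_pos hAd] at h3
    exact h3
  calc ∑ S ∈ (fam n b).filter (fun S => v ∈ fullSet n b S), lam ^ S.card
      ≤ ∑ S ∈ (fam n b).filter (fun S => v ∈ fullSet n b S),
          ∑ γ ∈ conts n v, (if Adapted n b γ S then lam ^ S.card else 0) :=
        Finset.sum_le_sum h1
    _ ≤ ∑ S ∈ fam n b, ∑ γ ∈ conts n v, (if Adapted n b γ S then lam ^ S.card else 0) := by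
        apply Finset.sum_le_sum_of_subset_of_nonneg (Finset.filter_subset _ _)
        intro S _ _
        apply Finset.sum_nonneg
        intro γ _
        split_ifs
        · positivity
        · exact le_refl _
    _ = ∑ γ ∈ conts n v, ∑ S ∈ (fam n b).filter (fun S => Adapted n b γ S), lam ^ S.card := by
        rw [Finset.sum_comm]
        apply Finset.sum_congr rfl
        intro γ _
        rw [Finset.sum_filter]
    _ ≤ ∑ γ ∈ conts n v, ((1 / 20) / 1024 : ℝ) ^ γ.card * ZZ lam n b := by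
        apply Finset.sum_le_sum
        intro γ _
        have := sum_adapted_le (n := n) (b := b) hlam (ζ := (1 / 20) / 1024) (by norm_num)
          (by norm_num) (by convert hlz using 3; norm_num) γ
        exact this
    _ = (∑ γ ∈ conts n v, ((1 / 20) / 1024 : ℝ) ^ γ.card) * ZZ lam n b := by
        rw [Finset.sum_mul]
    _ ≤ (2 * (1 / 20)) * ZZ lam n b := by
        gcongr
        exact sum_conts_le n v (by norm_num) (by norm_num)
    _ = (1 / 10) * ZZ lam n b := by norm_num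

end Pool.Agent.KCM6f5b46
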