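import Pool.Agent.KCM6f5b46.Stationary
import Pool.Agent.KCM6f5b46.Peierls

open MeasureTheory Filter Topology
open scoped NNReal ENNReal

namespace Pool.Agent.KCM6f5b46

variable {d : ℕ}

lemma FA4_rate (x : Site d) (η : Config d) :
    (FA4 d).rate x η = if 4 ≤ emptyNbrs x η then 1 else 0 := rfl

section plane

/-- First coordinate index. -/
def i₀ (hd : 2 ≤ d) : Fin d := ⟨0, by omega⟩
/-- Second coordinate index. -/
def i₁ (hd : 2 ≤ d) : Fin d := ⟨1, by omega⟩

variable (hd : 2 ≤ d)

lemma i₀_ne_i₁ : i₀ hd ≠ i₁ hd := by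
  intro h
  have := congrArg Fin.val h
  simp [i₀, i₁] at this

/-- The coordinate plane. -/
def plane : Set (Site d) := {x | ∀ i, i ≠ i₀ hd → i ≠ i₁ hd → x i = 0}

/-- Embedding of the planar lattice. -/
def emb (v : V2) : Site d :=
  fun i => if i = i₀ hd then v.1 else if i = i₁ hd then v.2 else 0

/-- Projection to the planar lattice. -/
def proj (x : Site d) : V2 := (x (i₀ hd), x (i₁ hd))

lemma emb_mem_plane (v : V2) : emb hd v ∈ plane hd := by
  intro i h0 h1
  simp [emb, h0, h1]

lemma proj_emb (v : V2) : proj hd (emb hd v) = v := by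
  have := (i₀_ne_i₁ hd).symm
  simp [proj, emb, this]

lemma emb_proj {x : Site d} (hx : x ∈ plane hd) : emb hd (proj hd x) = x := by
  funext i
  unfold emb proj
  split_ifs with h0 h1
  · rw [h0]
  · rw [h1]
  · exact (hx i h0 h1).symm

lemma emb_injective : Function.Injective (emb hd) := by
  intro v w h
  rw [← proj_emb hd v, h, proj_emb]

lemma nbr_emb₀ (v : V2) (s : Bool) :
    nbr (emb hd v) (i₀ hd) s = emb hd (v.1 + (if s = true then 1 else -1), v.2) := by
  funext j
  unfold nbr
  by_cases h : j = i₀ hd
  · subst h; simp [emb]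
  · simp [emb, h]

lemma nbr_emb₁ (v : V2) (s : Bool) :
    nbr (emb hd v) (i₁ hd) s = emb hd (v.1, v.2 + (if s = true then 1 else -1)) := by
  funext j
  unfold nbr
  by_cases h : j = i₁ hd
  · subst h
    have := (i₀_ne_i₁ hd).symm
    simp [emb, this]
  · simp [emb, h]

lemma nbr_not_mem_plane {x : Site d} (hx : x ∈ plane hd) {i : Fin d} (h0 : i ≠ i₀ hd)
    (h1 : i ≠ i₁ hd) (s : Bool) : nbr x i s ∉ plane hd := by
  intro h
  have h2 := h i h0 h1
  have h3 := hx i h0 h1
  unfold nbr at h2
  rw [Function.update_self, h3] at h2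
  split_ifs at h2 <;> simp at h2

lemma adj2_iff_nbr {v w : V2} : Adj2 v w ↔
    w = (v.1 + 1, v.2) ∨ w = (v.1 + -1, v.2) ∨ w = (v.1, v.2 + 1) ∨ w = (v.1, v.2 + -1) := by
  obtain ⟨a, b⟩ := v
  obtain ⟨c, e⟩ := w
  unfold Adj2
  simp only [Prod.mk.injEq]
  omega

/-- If the sites off the plane are filled, a site of the plane has at least four empty
neighbours iff all its neighbours in the plane are empty. -/
lemma four_le_emptyNbrs_iff {η : Config d} (hη : ∀ x, x ∉ plane hd → η x = true) (v : V2) :
    4 ≤ emptyNbrs (emb hd v) η ↔ ∀ w, Adj2 v w → η (emb hd w) = false := by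
  classical
  set T : Finset (Fin d × Bool) := ({i₀ hd, i₁ hd} : Finset (Fin d)) ×ˢ Finset.univ with hT
  have hTc : T.card = 4 := by
    rw [hT, Finset.card_product, Finset.card_pair (i₀_ne_i₁ hd)]
    simp
  set Fs := Finset.univ.filter fun p : Fin d × Bool => η (nbr (emb hd v) p.1 p.2) = false with hFs
  have hsub : Fs ⊆ T := by
    intro p hp
    rw [hFs, Finset.mem_filter] at hp
    rw [hT, Finset.mem_product, Finset.mem_insert, Finset.mem_singleton]
    refine ⟨?_, Finset.mem_univ _⟩
    by_contra hno
    push Not at hno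
    have h1 := hη _ (nbr_not_mem_plane hd (emb_mem_plane hd v) hno.1 hno.2 p.2)
    rw [h1] at hp
    exact absurd hp.2 (by decide)
  have hcard : emptyNbrs (emb hd v) η = Fs.card := rfl
  rw [hcard]
  constructor
  · intro h4 w hw
    have heq : Fs = T := Finset.eq_of_subset_of_card_le hsub (by rw [hTc]; exact h4)
    have hall : ∀ p ∈ T, η (nbr (emb hd v) p.1 p.2) = false := by
      intro p hp
      rw [← heq, hFs, Finset.mem_filter] at hp
      exact hp.2
    rw [adj2_iff_nbr] at hw
    have m0 : ∀ s, (i₀ hd, s) ∈ T := by intro s; rw [hT]; simp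
    have m1 : ∀ s, (i₁ hd, s) ∈ T := by intro s; rw [hT]; simp
    rcases hw with rfl | rfl | rfl | rfl
    · have := hall _ (m0 true); rw [nbr_emb₀] at this; simpa using this
    · have := hall _ (m0 false); rw [nbr_emb₀] at this; simpa using this
    · have := hall _ (m1 true); rw [nbr_emb₁] at this; simpa using this
    · have := hall _ (m1 false); rw [nbr_emb₁] at this; simpa using this
  · intro h
    have heq : T ⊆ Fs := by
      rintro ⟨i, s⟩ hp
      rw [hT, Finset.mem_product, Finset.mem_insert, Finset.mem_singleton] at hp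
      rw [hFs, Finset.mem_filter]
      refine ⟨Finset.mem_univ _, ?_⟩
      rcases hp.1 with h0 | h0
      · simp only at h0 ⊢
        rw [h0, nbr_emb₀]
        apply h
        rw [adj2_iff_nbr]
        cases s <;> simp
      · simp only at h0 ⊢
        rw [h0, nbr_emb₁]
        apply h
        rw [adj2_iff_nbr]
        cases s <;> simp
    rw [← hTc]
    exact Finset.card_le_card heq

/-- If the sites off the plane are filled, a site off the plane has fewer than four empty
neighbours. -/
lemma emptyNbrs_lt_four {η : Config d} (hη : ∀ x, x ∉ plane hd → η x = true) {x : Site d}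
    (hx : x ∉ plane hd) : emptyNbrs x η < 4 := by
  classical
  have h1 : ∃ i, i ≠ i₀ hd ∧ i ≠ i₁ hd ∧ x i ≠ 0 := by
    by_contra hno
    push Not at hno
    exact hx hno
  obtain ⟨i, h0, h1, hxi⟩ := h1
  have hsub : (Finset.univ.filter fun p : Fin d × Bool => η (nbr x p.1 p.2) = false)
      ⊆ ({i} : Finset (Fin d)) ×ˢ Finset.univ := by
    rintro ⟨j, s⟩ hp
    rw [Finset.mem_filter] at hp
    rw [Finset.mem_product, Finset.mem_singleton]
    refine ⟨?_, Finset.mem_univ _⟩
    by_contra hji
    have h2 : nbr x j s ∉ plane hd := by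
      intro h
      have h3 := h i h0 h1
      unfold nbr at h3
      have hij : i ≠ j := fun h => hji h.symm
      rw [Function.update_of_ne hij] at h3
      exact hxi h3
    rw [hη _ h2] at hp
    exact absurd hp.2 (by decide)
  have := Finset.card_le_card hsub
  rw [Finset.card_product] at this
  unfold emptyNbrs
  simp at this
  omega

open Classical in
/-- The configuration on `ℤ^d` which is `I` on the plane and filled off the plane. -/
noncomputable def cfg (I : Set V2) : Config d :=
  fun x => if x ∈ plane hd then decide (proj hd x ∈ I) else true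

lemma cfg_off {I : Set V2} {x : Site d} (hx : x ∉ plane hd) : cfg hd I x = true := by
  simp [cfg, hx]

lemma cfg_emb {I : Set V2} {v : V2} : cfg hd I (emb hd v) = true ↔ v ∈ I := by
  simp [cfg, emb_mem_plane, proj_emb]

lemma cfg_emb_false {I : Set V2} {v : V2} : cfg hd I (emb hd v) = false ↔ v ∉ I := by
  simp [cfg, emb_mem_plane, proj_emb]

open Classical in
lemma FA4_rate_cfg_emb (I : Set V2) (v : V2) :
    (FA4 d).rate (emb hd v) (cfg hd I) = if ∀ w, Adj2 v w → w ∉ I then 1 else 0 := by
  rw [FA4_rate]
  have h := four_le_emptyNbrs_iff hd (η := cfg hd I) (fun x hx => cfg_off hd hx) v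
  simp only [cfg_emb_false] at h
  by_cases h2 : ∀ w, Adj2 v w → w ∉ I
  · rw [if_pos (h.2 h2), if_pos h2]
  · rw [if_neg (fun h3 => h2 (h.1 h3)), if_neg h2]

lemma FA4_rate_cfg_off (I : Set V2) {x : Site d} (hx : x ∉ plane hd) :
    (FA4 d).rate x (cfg hd I) = 0 := by
  rw [FA4_rate, if_neg]
  exact not_le.2 (emptyNbrs_lt_four hd (fun x hx => cfg_off hd hx) hx)

/-- Toggle the occupation of `v`. -/
def tog (v : V2) (S : Finset V2) : Finset V2 := if v ∈ S then S.erase v else insert v S

lemma tog_tog (v : V2) (S : Finset V2) : tog v (tog v S) = S := by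
  unfold tog
  by_cases h : v ∈ S
  · rw [if_pos h, if_neg (Finset.notMem_erase v S), Finset.insert_erase h]
  · rw [if_neg h, if_pos (Finset.mem_insert_self v S), Finset.erase_insert h]

lemma mem_tog_self {v : V2} {S : Finset V2} : v ∈ tog v S ↔ v ∉ S := by
  unfold tog
  by_cases h : v ∈ S
  · simp [h]
  · simp [h]

lemma mem_tog_ne {v w : V2} (hvw : w ≠ v) {S : Finset V2} : w ∈ tog v S ↔ w ∈ S := by
  unfold tog
  by_cases h : v ∈ S
  · simp [h, hvw]
  · simp [h, hvw]

lemma Adj2.ne {u w : V2} (h : Adj2 u w) : u ≠ w := by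
  rintro rfl
  unfold Adj2 at h
  omega

variable {n : ℕ} {b : ZMod 2}

lemma mem_fullSet_tog_ne {v w : V2} (hvw : w ≠ v) {S : Finset V2} :
    w ∈ fullSet n b (tog v S) ↔ w ∈ fullSet n b S := by
  by_cases hw : w ∈ B2 n
  · rw [mem_fullSet_of_mem hw, mem_fullSet_of_mem hw, mem_tog_ne hvw]
  · rw [mem_fullSet_of_not_mem hw, mem_fullSet_of_not_mem hw]

lemma mem_fullSet_tog_self {v : V2} (hv : v ∈ B2 n) {S : Finset V2} :
    v ∈ fullSet n b (tog v S) ↔ v ∉ fullSet n b S := by
  rw [mem_fullSet_of_mem hv, mem_fullSet_of_mem hv, mem_tog_self]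

lemma tog_mem_fam {v : V2} (hv : v ∈ B2 n) {S : Finset V2} (hS : S ∈ fam n b)
    (hfree : ∀ w, Adj2 v w → w ∉ fullSet n b S) : tog v S ∈ fam n b := by
  classical
  rw [fam, Finset.mem_filter, Finset.mem_powerset] at hS ⊢
  obtain ⟨hSB, hval⟩ := hS
  refine ⟨?_, ?_, ?_⟩
  · intro w hw
    by_cases hwv : w = v
    · rw [hwv]; exact hv
    · exact hSB ((mem_tog_ne hwv).1 hw)
  · intro u w huw hu hw
    by_cases h1 : u = v
    · subst h1
      rw [mem_fullSet_tog_ne huw.ne.symm] at hw
      exact hfree w huw hw
    · by_cases h2 : w = v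
      · subst h2
        rw [mem_fullSet_tog_ne huw.ne] at hu
        exact hfree u huw.symm hu
      · rw [mem_fullSet_tog_ne h1] at hu
        rw [mem_fullSet_tog_ne h2] at hw
        exact hval.indep u w huw hu hw
  · intro w hw
    exact mem_fullSet_of_not_mem hw

lemma cfg_tog {v : V2} (hv : v ∈ B2 n) (S : Finset V2) :
    cfg hd (fullSet n b (tog v S)) = flipAt (emb hd v) (cfg hd (fullSet n b S)) := by
  funext x
  by_cases hx : x = emb hd v
  · subst hx
    rw [flipAt_apply_self]
    cases h : cfg hd (fullSet n b S) (emb hd v)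
    · rw [cfg_emb_false] at h
      rw [Bool.not_false, cfg_emb, mem_fullSet_tog_self hv]
      exact h
    · rw [cfg_emb] at h
      rw [Bool.not_true, cfg_emb_false, mem_fullSet_tog_self hv]
      simpa using h
  · rw [flipAt_apply_ne hx]
    by_cases hxP : x ∈ plane hd
    · have h1 := emb_proj hd hxP
      have h2 : proj hd x ≠ v := by
        intro h
        rw [h] at h1
        exact hx h1.symm
      rw [← h1]
      cases h : cfg hd (fullSet n b S) (emb hd (proj hd x))
      · rw [cfg_emb_false] at h ⊢
        rw [mem_fullSet_tog_ne h2]; exact h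
      · rw [cfg_emb] at h ⊢
        rw [mem_fullSet_tog_ne h2]; exact h
    · rw [cfg_off hd hxP, cfg_off hd hxP]

/-- Detailed balance of the finite volume weights for the spin flip at a site of the box. -/
lemma sum_balance {lam q : ℝ} (hlq : lam * q = 1 - q) {v : V2} (hv : v ∈ B2 n)
    (f : C(Config d, ℝ)) :
    ∑ S ∈ fam n b, lam ^ S.card * Lsite (FA4 d) q (emb hd v) f (cfg hd (fullSet n b S)) = 0 := by
  classical
  let free : Finset V2 → Prop := fun S => ∀ w, Adj2 v w → w ∉ fullSet n b S
  have hfree : ∀ S, free (tog v S) ↔ free S := by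
    intro S
    constructor
    · intro h w hw
      rw [← mem_fullSet_tog_ne hw.ne.symm]
      exact h w hw
    · intro h w hw
      rw [mem_fullSet_tog_ne hw.ne.symm]
      exact h w hw
  have hrate : ∀ S, (FA4 d).rate (emb hd v) (cfg hd (fullSet n b S))
      = if free S then 1 else 0 := fun S => FA4_rate_cfg_emb hd _ v
  apply Finset.sum_involution (fun S _ => if free S then tog v S else S)
  · intro S hS
    by_cases h : free S
    · rw [if_pos h, Lsite_apply, Lsite_apply, rateC_apply, rateC_apply, hrate, hrate,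
        if_pos h, if_pos ((hfree S).2 h), cfg_tog hd hv, flipAt_flipAt, flipAt_apply_self]
      have hSB : S ⊆ B2 n := (Finset.mem_powerset.1 (Finset.mem_filter.1 hS).1)
      by_cases hvS : v ∈ S
      · have h1 : cfg hd (fullSet n b S) (emb hd v) = true := by
          rw [cfg_emb, mem_fullSet_of_mem hv]; exact hvS
        have h2 : S.card = (tog v S).card + 1 := by
          unfold tog; rw [if_pos hvS, Finset.card_erase_add_one hvS]
        rw [h1, h2, pow_succ]
        simp only [Bool.not_true, if_true, Bool.false_eq_true, if_false]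
        linear_combination (lam ^ (tog v S).card *
          (f (flipAt (emb hd v) (cfg hd (fullSet n b S))) - f (cfg hd (fullSet n b S)))) * hlq
      · have h1 : cfg hd (fullSet n b S) (emb hd v) = false := by
          rw [cfg_emb_false, mem_fullSet_of_mem hv]; exact hvS
        have h2 : (tog v S).card = S.card + 1 := by
          unfold tog; rw [if_neg hvS, Finset.card_insert_of_notMem hvS]
        rw [h1, h2, pow_succ]
        simp only [Bool.not_false, if_true, Bool.false_eq_true, if_false]
        linear_combination (-(lam ^ S.card *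
          (f (flipAt (emb hd v) (cfg hd (fullSet n b S))) - f (cfg hd (fullSet n b S))))) * hlq
    · rw [if_neg h, Lsite_apply, rateC_apply, hrate, if_neg h]
      ring
  · intro S _ hne
    by_cases h : free S
    · rw [if_pos h]
      intro h2
      have h3 := mem_tog_self (v := v) (S := S)
      rw [h2] at h3
      tauto
    · exfalso
      apply hne
      rw [Lsite_apply, rateC_apply, hrate, if_neg h]
      ring
  · intro S hS
    by_cases h : free S
    · rw [if_pos h]; exact tog_mem_fam hv hS h
    · rw [if_neg h]; exact hS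
  · intro S _
    by_cases h : free S
    · simp only [if_pos h, if_pos ((hfree S).2 h), tog_tog]
    · simp only [if_neg h]

end plane

end Pool.Agent.KCM6f5b46
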