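import Pool.Agent.KCM6f5b46.ExpLemmas

open MeasureTheory Filter Topology
open scoped NNReal ENNReal

namespace Pool.Agent.KCM6f5b46

variable {d : ℕ}

lemma flipAt_apply_self (x : Site d) (η : Config d) : flipAt x η x = !(η x) := by
  simp [flipAt]

lemma flipAt_apply_ne {x y : Site d} (h : y ≠ x) (η : Config d) : flipAt x η y = η y := by
  simp [flipAt, h]

lemma flipAt_flipAt (x : Site d) (η : Config d) : flipAt x (flipAt x η) = η := by
  funext y
  by_cases h : y = x
  · subst h; simp [flipAt]
  · simp [flipAt, h]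

lemma flipAt_comm (x y : Site d) (η : Config d) :
    flipAt x (flipAt y η) = flipAt y (flipAt x η) := by
  by_cases hxy : x = y
  · subst hxy; rfl
  funext z
  by_cases h1 : z = x
  · subst h1
    rw [flipAt_apply_self, flipAt_apply_ne hxy, flipAt_apply_ne hxy, flipAt_apply_self]
  · by_cases h2 : z = y
    · subst h2
      rw [flipAt_apply_self, flipAt_apply_ne h1, flipAt_apply_ne h1, flipAt_apply_self]
    · rw [flipAt_apply_ne h1, flipAt_apply_ne h2, flipAt_apply_ne h2, flipAt_apply_ne h1]

lemma continuous_flipAt (x : Site d) : Continuous (flipAt x : Config d → Config d) := by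
  refine continuous_pi fun y => ?_
  by_cases h : y = x
  · subst h
    have : (fun η : Config d => flipAt y η y) = fun η => !(η y) := by
      funext η; exact flipAt_apply_self y η
    rw [this]
    exact (continuous_of_discreteTopology (f := fun b : Bool => !b)).comp (continuous_apply y)
  · have : (fun η : Config d => flipAt x η y) = fun η => η y := by
      funext η; exact flipAt_apply_ne h η
    rw [this]
    exact continuous_apply y

/-- `flipAt x` as a continuous map. -/
def flipC (x : Site d) : C(Config d, Config d) := ⟨flipAt x, continuous_flipAt x⟩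

lemma continuous_of_dependsOn {α : Type*} [TopologicalSpace α] {f : Config d → α}
    {A : Set (Site d)} (hA : A.Finite) (hf : DependsOn f A) : Continuous f := by
  have : Finite A := hA
  rcases isEmpty_or_nonempty α with h | h
  · exact ⟨fun s _ => by
      rw [Set.eq_empty_of_isEmpty s]; simp⟩
  obtain ⟨g, rfl⟩ := dependsOn_iff_exists_comp.1 hf
  have h1 : Continuous (A.domRestrict : Config d → (A → Bool)) := by
    refine continuous_pi fun y => continuous_apply _
  exact (continuous_of_discreteTopology (f := g)).comp h1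

lemma IsLocal.continuous {α : Type*} [TopologicalSpace α] {f : Config d → α} (hf : IsLocal f) :
    Continuous f := by
  obtain ⟨A, hA⟩ := hf
  exact continuous_of_dependsOn A.finite_toSet hA

lemma finite_near (x : Site d) (R : ℝ) : {y : Site d | ‖y - x‖ ≤ R}.Finite := by
  have h : {y : Site d | ‖y - x‖ ≤ R} = Metric.closedBall x R := by
    ext y; simp [dist_eq_norm]
  rw [h]
  exact isCompact_iff_finite.1 (isCompact_closedBall x R)

/-- The finite set of sites within distance `R` of `x`. -/
noncomputable def nearF (R : ℝ) (x : Site d) : Finset (Site d) := (finite_near x R).toFinset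

lemma mem_nearF {R : ℝ} {x y : Site d} : y ∈ nearF R x ↔ ‖y - x‖ ≤ R := by
  simp [nearF]

lemma card_nearF (R : ℝ) (x : Site d) : (nearF R x).card = (nearF R (0 : Site d)).card := by
  symm
  apply Finset.card_bij (fun y _ => y + x)
  · intro a ha; rw [mem_nearF] at ha ⊢; simpa using ha
  · intro a _ b _ h; exact add_right_cancel h
  · intro b hb; refine ⟨b - x, ?_, by simp⟩
    rw [mem_nearF] at hb ⊢; simpa using hb

/-- Composition with the flip at `x`. -/
noncomputable def Tflip (x : Site d) : C(Config d, ℝ) →L[ℝ] C(Config d, ℝ) :=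
  LinearMap.mkContinuous
    { toFun := fun f => f.comp (flipC x)
      map_add' := fun f g => by ext; rfl
      map_smul' := fun c f => by ext; rfl } 1 (by
    intro f
    rw [one_mul, ContinuousMap.norm_le _ (norm_nonneg _)]
    intro η
    exact f.norm_coe_le_norm _)

lemma Tflip_apply (x : Site d) (f : C(Config d, ℝ)) (η : Config d) :
    Tflip x f η = f (flipAt x η) := rfl

lemma norm_Tflip_le (x : Site d) (f : C(Config d, ℝ)) : ‖Tflip x f‖ ≤ ‖f‖ := by
  rw [ContinuousMap.norm_le _ (norm_nonneg _)]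
  intro η
  exact f.norm_coe_le_norm _

/-- The difference operator `D_x f (η) = f (η^x) - f (η)`. -/
noncomputable def Dop (x : Site d) : C(Config d, ℝ) →L[ℝ] C(Config d, ℝ) :=
  Tflip x - ContinuousLinearMap.id ℝ _

lemma Dop_apply (x : Site d) (f : C(Config d, ℝ)) (η : Config d) :
    Dop x f η = f (flipAt x η) - f η := rfl

lemma Dop_eq_zero {f : C(Config d, ℝ)} {A : Set (Site d)} (hf : DependsOn f A) {x : Site d}
    (hx : x ∉ A) : Dop x f = 0 := by
  ext η
  rw [Dop_apply]
  have : f (flipAt x η) = f η := by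
    apply hf
    intro y hy
    have hyx : y ≠ x := by
      intro h
      rw [h] at hy
      exact hx hy
    exact flipAt_apply_ne hyx η
  simp [this]

section Rates

variable (K : KCM d) (q : ℝ)

lemma finite_rangeSet (x : Site d) : {y : Site d | 0 < ‖y - x‖ ∧ ‖y - x‖ ≤ K.range}.Finite :=
  (finite_near x K.range).subset fun _ hy => hy.2

/-- The rate at which the spin at `x` flips, as a function of the configuration. -/
noncomputable def flipRate (x : Site d) (η : Config d) : ℝ :=
  K.rate x η * (if η x = true then q else 1 - q)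

lemma flipRate_dependsOn (x : Site d) :
    DependsOn (flipRate K q x) (nearF (max K.range 0) x : Set (Site d)) := by
  intro η ζ h
  unfold flipRate
  have h1 : K.rate x η = K.rate x ζ := by
    apply K.finite_range x
    intro y hy
    apply h
    rw [Finset.mem_coe, mem_nearF]
    exact hy.2.trans (le_max_left _ _)
  have h2 : η x = ζ x := by
    apply h
    rw [Finset.mem_coe, mem_nearF]
    simp
  rw [h1, h2]

/-- The flip rate as a continuous function. -/
noncomputable def rateC (x : Site d) : C(Config d, ℝ) :=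
  ⟨flipRate K q x, continuous_of_dependsOn (Finset.finite_toSet _) (flipRate_dependsOn K q x)⟩

lemma rateC_apply (x : Site d) (η : Config d) :
    rateC K q x η = K.rate x η * (if η x = true then q else 1 - q) := rfl

variable {q} (hq0 : 0 ≤ q) (hq1 : q ≤ 1)

include hq0 hq1 in
lemma rateC_nonneg (x : Site d) (η : Config d) : 0 ≤ rateC K q x η := by
  rw [rateC_apply]
  apply mul_nonneg (K.rate_nonneg x η)
  split_ifs <;> linarith

lemma bound_nonneg : 0 ≤ K.bound := (K.rate_nonneg 0 (fun _ => true)).trans (K.rate_le _ _)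

include hq0 hq1 in
lemma rateC_le (x : Site d) (η : Config d) : rateC K q x η ≤ K.bound := by
  rw [rateC_apply]
  have h1 := K.rate_nonneg x η
  have h2 := K.rate_le x η
  split_ifs <;> nlinarith

/-- The part of the generator which flips `x`. -/
noncomputable def Lsite (q : ℝ) (x : Site d) : C(Config d, ℝ) →L[ℝ] C(Config d, ℝ) :=
  (ContinuousLinearMap.mul ℝ C(Config d, ℝ) (rateC K q x)).comp (Dop x)

lemma Lsite_apply (x : Site d) (f : C(Config d, ℝ)) (η : Config d) :
    Lsite K q x f η = rateC K q x η * (f (flipAt x η) - f η) := rfl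

lemma Lsite_eq (x : Site d) (f : C(Config d, ℝ)) :
    Lsite K q x f = rateC K q x * Dop x f := rfl

/-- The generator which only flips sites of the finite set `Λ`. -/
noncomputable def Lfin (q : ℝ) (Λ : Finset (Site d)) : C(Config d, ℝ) →L[ℝ] C(Config d, ℝ) :=
  ∑ x ∈ Λ, Lsite K q x

lemma Lfin_apply (Λ : Finset (Site d)) (f : C(Config d, ℝ)) (η : Config d) :
    Lfin K q Λ f η = ∑ x ∈ Λ, rateC K q x η * (f (flipAt x η) - f η) := by
  simp only [Lfin, _root_.sum_apply, ContinuousMap.sum_apply, Lsite_apply]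

lemma Lfin_eq_sum (Λ : Finset (Site d)) (f : C(Config d, ℝ)) :
    Lfin K q Λ f = ∑ x ∈ Λ, Lsite K q x f := by
  simp only [Lfin, _root_.sum_apply]

include hq0 hq1 in
lemma sum_rate_le (Λ : Finset (Site d)) (η : Config d) :
    ∑ x ∈ Λ, rateC K q x η ≤ Λ.card * K.bound := by
  calc ∑ x ∈ Λ, rateC K q x η ≤ ∑ _x ∈ Λ, K.bound :=
        Finset.sum_le_sum fun x _ => rateC_le K hq0 hq1 x η
    _ = Λ.card * K.bound := by simp

lemma Lfin_add_apply (Λ : Finset (Site d)) (f : C(Config d, ℝ)) (a : ℝ) (η : Config d) :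
    (Lfin K q Λ f + a • f) η = ∑ x ∈ Λ, rateC K q x η * f (flipAt x η)
      + (a - ∑ x ∈ Λ, rateC K q x η) * f η := by
  rw [ContinuousMap.add_apply, Lfin_apply, ContinuousMap.smul_apply, smul_eq_mul]
  simp only [mul_sub, Finset.sum_sub_distrib]
  rw [sub_mul, Finset.sum_mul]
  ring

include hq0 hq1 in
lemma norm_Lfin_add_le (Λ : Finset (Site d)) (f : C(Config d, ℝ)) :
    ‖Lfin K q Λ f + (Λ.card * K.bound) • f‖ ≤ (Λ.card * K.bound) * ‖f‖ := by
  have hb := bound_nonneg K
  rw [ContinuousMap.norm_le _ (by positivity)]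
  intro η
  rw [Lfin_add_apply]
  have h1 : ∀ ζ, |f ζ| ≤ ‖f‖ := fun ζ => f.norm_coe_le_norm ζ
  have hs := sum_rate_le K hq0 hq1 Λ η
  calc ‖∑ x ∈ Λ, rateC K q x η * f (flipAt x η)
          + (Λ.card * K.bound - ∑ x ∈ Λ, rateC K q x η) * f η‖
      ≤ ‖∑ x ∈ Λ, rateC K q x η * f (flipAt x η)‖
          + ‖(Λ.card * K.bound - ∑ x ∈ Λ, rateC K q x η) * f η‖ := norm_add_le _ _
    _ ≤ ∑ x ∈ Λ, rateC K q x η * ‖f‖
          + (Λ.card * K.bound - ∑ x ∈ Λ, rateC K q x η) * ‖f‖ := by
        gcongr
        · refine (norm_sum_le _ _).trans (Finset.sum_le_sum fun x _ => ?_)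
          rw [norm_mul, Real.norm_of_nonneg (rateC_nonneg K hq0 hq1 x η)]
          exact mul_le_mul_of_nonneg_left (h1 _) (rateC_nonneg K hq0 hq1 x η)
        · rw [norm_mul, Real.norm_of_nonneg (by linarith)]
          exact mul_le_mul_of_nonneg_left (h1 _) (by linarith)
    _ = (Λ.card * K.bound) * ‖f‖ := by rw [← Finset.sum_mul]; ring

include hq0 hq1 in
lemma Lfin_add_nonneg (Λ : Finset (Site d)) (f : C(Config d, ℝ)) (hf : 0 ≤ f) :
    0 ≤ Lfin K q Λ f + (Λ.card * K.bound) • f := by
  rw [ContinuousMap.le_def]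
  intro η
  rw [Lfin_add_apply]
  have hs := sum_rate_le K hq0 hq1 Λ η
  have h1 : ∀ ζ, 0 ≤ f ζ := fun ζ => hf ζ
  have h2 : 0 ≤ ∑ x ∈ Λ, rateC K q x η * f (flipAt x η) :=
    Finset.sum_nonneg fun x _ => mul_nonneg (rateC_nonneg K hq0 hq1 x η) (h1 _)
  have h3 : 0 ≤ (Λ.card * K.bound - ∑ x ∈ Λ, rateC K q x η) * f η :=
    mul_nonneg (by linarith) (h1 _)
  simpa using add_nonneg h2 h3

/-- The influence of the spin at `x` on the rate at `y`. -/
noncomputable def gam (q : ℝ) (x y : Site d) : ℝ := ‖Dop x (rateC K q y)‖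

include hq0 hq1 in
lemma gam_le (x y : Site d) : gam K q x y ≤ K.bound := by
  unfold gam
  rw [ContinuousMap.norm_le _ (bound_nonneg K)]
  intro η
  rw [Dop_apply, Real.norm_eq_abs, abs_le]
  have h1 := rateC_nonneg K hq0 hq1 y η
  have h2 := rateC_nonneg K hq0 hq1 y (flipAt x η)
  have h3 := rateC_le K hq0 hq1 y η
  have h4 := rateC_le K hq0 hq1 y (flipAt x η)
  constructor <;> linarith

lemma gam_eq_zero {x y : Site d} (h : x ∉ nearF (max K.range 0) y) : gam K q x y = 0 := by
  unfold gam
  have := Dop_eq_zero (f := rateC K q y) (flipRate_dependsOn K q y) (x := x)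
    (by simpa using h)
  rw [this, norm_zero]

lemma Dop_Lsite (x y : Site d) (f : C(Config d, ℝ)) :
    Dop x (Lsite K q y f) = Lsite K q y (Dop x f) + Dop x (rateC K q y) * Tflip x (Dop y f) := by
  ext η
  simp only [Dop_apply, Lsite_apply, ContinuousMap.add_apply, ContinuousMap.mul_apply,
    Tflip_apply]
  rw [flipAt_comm x y η]
  ring

lemma Dop_Lfin_add (x : Site d) (Λ : Finset (Site d)) (a : ℝ) (f : C(Config d, ℝ)) :
    Dop x (Lfin K q Λ f + a • f) = (Lfin K q Λ (Dop x f) + a • Dop x f)
      + ∑ y ∈ Λ, Dop x (rateC K q y) * Tflip x (Dop y f) := by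
  rw [map_add, map_smul, Lfin_eq_sum, Lfin_eq_sum, map_sum]
  simp only [Dop_Lsite, Finset.sum_add_distrib]
  abel

include hq0 hq1 in
lemma norm_Dop_Lfin_add_le (x : Site d) (Λ : Finset (Site d)) (f : C(Config d, ℝ)) :
    ‖Dop x (Lfin K q Λ f + (Λ.card * K.bound) • f)‖
      ≤ (Λ.card * K.bound) * ‖Dop x f‖ + ∑ y ∈ Λ, gam K q x y * ‖Dop y f‖ := by
  rw [Dop_Lfin_add]
  refine (norm_add_le _ _).trans (add_le_add (norm_Lfin_add_le K hq0 hq1 Λ _) ?_)
  refine (norm_sum_le _ _).trans (Finset.sum_le_sum fun y _ => ?_)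
  refine (norm_mul_le _ _).trans ?_
  exact mul_le_mul_of_nonneg_left (norm_Tflip_le _ _) (norm_nonneg _)

end Rates

end Pool.Agent.KCM6f5b46
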