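import Pool.Agent.KCM6f5b46.Contours

namespace Pool.Agent.KCM6f5b46

/-- The box `[-n, n]^2`. -/
noncomputable def B2 (n : ℕ) : Finset V2 := Finset.Icc (-(n : ℤ), -(n : ℤ)) ((n : ℤ), (n : ℤ))

lemma mem_B2 {n : ℕ} {v : V2} :
    v ∈ B2 n ↔ (-(n : ℤ) ≤ v.1 ∧ v.1 ≤ n) ∧ (-(n : ℤ) ≤ v.2 ∧ v.2 ≤ n) := by
  unfold B2
  rw [Finset.mem_Icc, Prod.le_def, Prod.le_def]
  simp only
  tauto

/-- Parity of a planar site. -/
def par (v : V2) : ZMod 2 := ((v.1 + v.2 : ℤ) : ZMod 2)

/-- Nearest neighbour relation of the planar lattice. -/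
def Adj2 (u w : V2) : Prop :=
  (u.1 = w.1 ∧ (w.2 = u.2 + 1 ∨ u.2 = w.2 + 1)) ∨ (u.2 = w.2 ∧ (w.1 = u.1 + 1 ∨ u.1 = w.1 + 1))

lemma Adj2.symm {u w : V2} (h : Adj2 u w) : Adj2 w u := by
  unfold Adj2 at h ⊢
  omega

lemma Adj2.par_eq {u w : V2} (h : Adj2 u w) : par w = par u + 1 := by
  unfold par
  have h1 : (w.1 + w.2 = (u.1 + u.2) + 1) ∨ (w.1 + w.2 = (u.1 + u.2) - 1) := by
    unfold Adj2 at h
    omega
  rcases h1 with h1 | h1
  · rw [h1]; push_cast; ring
  · rw [h1]
    push_cast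
    have : (-1 : ZMod 2) = 1 := by decide
    rw [sub_eq_add_neg, this]

lemma adj2_tip (e : E2) : Adj2 e.1 (tip e) := by
  unfold Adj2 tip
  split_ifs <;> simp

lemma Adj2.exists_edge {u w : V2} (h : Adj2 u w) :
    ∃ e : E2, (e.1 = u ∧ tip e = w) ∨ (e.1 = w ∧ tip e = u) := by
  obtain ⟨a, b⟩ := u
  obtain ⟨c, e⟩ := w
  unfold Adj2 at h
  simp only at h
  rcases h with ⟨h1, h2 | h2⟩ | ⟨h1, h2 | h2⟩
  · exact ⟨((a, b), true), Or.inl ⟨rfl, by simp [tip]; omega⟩⟩
  · exact ⟨((c, e), true), Or.inr ⟨rfl, by simp [tip]; omega⟩⟩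
  · exact ⟨((a, b), false), Or.inl ⟨rfl, by simp [tip]; omega⟩⟩
  · exact ⟨((c, e), false), Or.inr ⟨rfl, by simp [tip]; omega⟩⟩

/-- Independent sets which agree with the sites of parity `b` outside the box. -/
structure Valid (n : ℕ) (b : ZMod 2) (I : Set V2) : Prop where
  indep : ∀ u w, Adj2 u w → u ∈ I → w ∈ I → False
  out : ∀ v, v ∉ B2 n → (v ∈ I ↔ par v = b)

/-- Occupied sites of the wrong parity. -/
def wrong (b : ZMod 2) (I : Set V2) : Set V2 := {v | v ∈ I ∧ par v ≠ b}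

/-- Closed neighbourhood of the occupied sites of the wrong parity. -/
def wrongNbhd (b : ZMod 2) (I : Set V2) : Set V2 :=
  {v | v ∈ wrong b I ∨ ∃ u ∈ wrong b I, Adj2 u v}

lemma zmod2_add_one_add_one (b : ZMod 2) : b + 1 + 1 = b := by
  revert b; decide

lemma zmod2_add_one_ne (b : ZMod 2) : b + 1 ≠ b := by
  revert b; decide

lemma zmod2_add_one_of_ne {a b : ZMod 2} (h : a ≠ b) : a = b + 1 := by
  revert a b; decide

variable {n : ℕ} {b : ZMod 2} {I : Set V2}

lemma Valid.wrong_subset (h : Valid n b I) {v : V2} (hv : v ∈ wrong b I) : v ∈ B2 n := by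
  by_contra hB
  exact hv.2 ((h.out v hB).1 hv.1)

lemma Valid.wrongNbhd_subset (h : Valid n b I) {v : V2} (hv : v ∈ wrongNbhd b I) :
    v ∈ B2 n := by
  rcases hv with hv | ⟨u, hu, huv⟩
  · exact h.wrong_subset hv
  · by_contra hB
    have h1 : par u = b + 1 := zmod2_add_one_of_ne hu.2
    have h2 : par v = b := by
      rw [huv.par_eq, h1, zmod2_add_one_add_one]
    exact h.indep u v huv hu.1 ((h.out v hB).2 h2)

lemma Valid.boundary_props (h : Valid n b I) {u w : V2} (huw : Adj2 u w)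
    (hu : u ∈ wrongNbhd b I) (hw : w ∉ wrongNbhd b I) : u ∉ I ∧ w ∉ I ∧ par u = b := by
  rcases hu with hu | ⟨o, ho, hou⟩
  · exact absurd (Or.inr ⟨u, hu, huw⟩) hw
  · have h1 : par o = b + 1 := zmod2_add_one_of_ne ho.2
    have h2 : par u = b := by
      rw [hou.par_eq, h1, zmod2_add_one_add_one]
    have h3 : par w ≠ b := by
      rw [huw.par_eq, h2]
      exact zmod2_add_one_ne b
    refine ⟨fun hI => h.indep o u hou ho.1 hI, fun hI => hw (Or.inl ⟨hI, h3⟩), h2⟩

/-- All edges with base point near the box. -/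
noncomputable def EB (n : ℕ) : Finset E2 :=
  (Finset.Icc (-(n : ℤ) - 1, -(n : ℤ) - 1) ((n : ℤ), (n : ℤ))) ×ˢ Finset.univ

lemma mem_EB {n : ℕ} {e : E2} : e ∈ EB n ↔
    (-(n : ℤ) - 1 ≤ e.1.1 ∧ e.1.1 ≤ n) ∧ (-(n : ℤ) - 1 ≤ e.1.2 ∧ e.1.2 ≤ n) := by
  unfold EB
  rw [Finset.mem_product, Finset.mem_Icc, Prod.le_def, Prod.le_def]
  simp only [Finset.mem_univ, and_true]
  tauto

lemma not_mem_of_not_mem_EB {e : E2} (he : e ∉ EB n) : e.1 ∉ B2 n ∧ tip e ∉ B2 n := by
  rw [mem_EB] at he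
  rw [mem_B2, mem_B2]
  unfold tip
  split_ifs <;> simp only <;> omega

open Classical in
/-- The edge boundary of the closed neighbourhood of wrong sites. -/
noncomputable def cutF (n : ℕ) (b : ZMod 2) (I : Set V2) : Finset E2 :=
  (EB n).filter fun e => ind (wrongNbhd b I) e.1 + ind (wrongNbhd b I) (tip e) ≠ 0

lemma ind_eq_one {U : Set V2} {v : V2} : ind U v = 1 ↔ v ∈ U := by
  unfold ind; split_ifs with h <;> simp [h]

lemma ind_eq_zero {U : Set V2} {v : V2} : ind U v = 0 ↔ v ∉ U := by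
  unfold ind; split_ifs with h <;> simp [h]

lemma Valid.isCut (h : Valid n b I) : IsCut (cutF n b I) (wrongNbhd b I) := by
  intro e
  unfold chi cutF
  by_cases he : e ∈ EB n
  · by_cases h2 : ind (wrongNbhd b I) e.1 + ind (wrongNbhd b I) (tip e) = 0
    · simp [h2]
    · rw [if_pos (Finset.mem_filter.2 ⟨he, h2⟩), zmod2_ne_zero h2]
  · have h1 := not_mem_of_not_mem_EB he
    have h2 : e.1 ∉ wrongNbhd b I := fun h' => h1.1 (h.wrongNbhd_subset h')
    have h3 : tip e ∉ wrongNbhd b I := fun h' => h1.2 (h.wrongNbhd_subset h')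
    rw [if_neg (fun h' => he (Finset.mem_filter.1 h').1), ind_eq_zero.2 h2, ind_eq_zero.2 h3]
    simp

lemma chi_eq_one {γ : Finset E2} {e : E2} : chi γ e = 1 ↔ e ∈ γ := by
  unfold chi; split_ifs with h <;> simp [h]

lemma chi_eq_zero {γ : Finset E2} {e : E2} : chi γ e = 0 ↔ e ∉ γ := by
  unfold chi; split_ifs with h <;> simp [h]

/-- `γ` is a union of classes of `F`. -/
def ClosedIn (F γ : Finset E2) : Prop := ∀ a ∈ γ, ∀ e ∈ F, EAdj a e → e ∈ γ

lemma cr_add_sdiff {A γ : Finset E2} (h : A ⊆ γ) (v : V2) :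
    cr A v + cr (γ \ A) v = cr γ v := by
  unfold cr
  rw [add_comm, Finset.sum_sdiff h]

open Classical in
/-- Selection of a connected contour around `v`. -/
lemma exists_contour {F : Finset E2} {v : V2} (hv : cr F v = 1) :
    ∃ γ ⊆ F, ClosedIn F γ ∧ Conn EAdj γ ∧ cr γ v = 1 := by
  set 𝒢 := F.powerset.filter fun γ => ClosedIn F γ ∧ cr γ v = 1 with h𝒢
  have hne : 𝒢.Nonempty := by
    refine ⟨F, ?_⟩
    rw [h𝒢, Finset.mem_filter, Finset.mem_powerset]
    exact ⟨Finset.Subset.refl _, fun _ _ e he _ => he, hv⟩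
  obtain ⟨γ, hγ, hmin⟩ := Finset.exists_min_image 𝒢 (fun γ => γ.card) hne
  rw [h𝒢, Finset.mem_filter, Finset.mem_powerset] at hγ
  obtain ⟨hγF, hcl, hcr⟩ := hγ
  refine ⟨γ, hγF, hcl, ?_, hcr⟩
  intro A hA hAne hAγ
  by_contra hno
  push Not at hno
  have hclA : ClosedIn F A := by
    intro a ha e he hae
    have h1 := hcl a (hA ha) e he hae
    by_contra h2
    exact hno a ha e (Finset.mem_sdiff.2 ⟨h1, h2⟩) hae
  have hclB : ClosedIn F (γ \ A) := by
    intro a ha e he hae
    have ha' := Finset.mem_sdiff.1 ha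
    have h1 := hcl a ha'.1 e he hae
    rw [Finset.mem_sdiff]
    refine ⟨h1, fun h2 => ?_⟩
    exact hno e h2 a ha hae.symm
  have hsum := cr_add_sdiff hA v
  rw [hcr] at hsum
  have hcases : cr A v = 1 ∨ cr (γ \ A) v = 1 := by
    revert hsum
    generalize cr A v = x
    generalize cr (γ \ A) v = y
    revert x y; decide
  rcases hcases with h1 | h1
  · have h2 := hmin A (by
      rw [h𝒢, Finset.mem_filter, Finset.mem_powerset]
      exact ⟨hA.trans hγF, hclA, h1⟩)
    exact hAγ (Finset.eq_of_subset_of_card_le hA h2)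
  · have h2 := hmin (γ \ A) (by
      rw [h𝒢, Finset.mem_filter, Finset.mem_powerset]
      exact ⟨Finset.sdiff_subset.trans hγF, hclB, h1⟩)
    rw [Finset.card_sdiff_of_subset hA] at h2
    have h3 := Finset.card_pos.2 hAne
    have h4 := Finset.card_le_card hA
    omega

lemma ClosedIn.chi_eq {F γ : Finset E2} (hsub : γ ⊆ F) (hcl : ClosedIn F γ) {x : V2} {a : E2}
    (ha : a ∈ γ) (hax : a ∈ plaq x) {e : E2} (he : e ∈ plaq x) : chi γ e = chi F e := by
  by_cases heF : e ∈ F
  · have : e ∈ γ := hcl a ha e heF ⟨x, hax, he⟩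
    rw [chi_eq_one.2 this, chi_eq_one.2 heF]
  · have : e ∉ γ := fun h => heF (hsub h)
    rw [chi_eq_zero.2 this, chi_eq_zero.2 heF]

lemma mem_plaq_iff {e : E2} {x : V2} : e ∈ plaq x ↔
    e = (x, false) ∨ e = ((x.1, x.2 + 1), false) ∨ e = (x, true) ∨ e = ((x.1 + 1, x.2), true) := by
  simp [plaq]

lemma ClosedIn.even {F γ : Finset E2} (hF : EvenSet F) (hsub : γ ⊆ F) (hcl : ClosedIn F γ) :
    EvenSet γ := by
  intro x
  by_cases h : ∃ a ∈ γ, a ∈ plaq x
  · obtain ⟨a, ha, hax⟩ := h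
    have h1 := fun e he => ClosedIn.chi_eq hsub hcl ha hax (e := e) he
    rw [h1 _ (mem_plaq_iff.2 (Or.inl rfl)), h1 _ (mem_plaq_iff.2 (Or.inr (Or.inl rfl))),
      h1 _ (mem_plaq_iff.2 (Or.inr (Or.inr (Or.inl rfl)))),
      h1 _ (mem_plaq_iff.2 (Or.inr (Or.inr (Or.inr rfl))))]
    exact hF x
  · push Not at h
    have h1 : ∀ e ∈ plaq x, chi γ e = 0 := fun e he => chi_eq_zero.2 (fun h2 => h e h2 he)
    rw [h1 _ (mem_plaq_iff.2 (Or.inl rfl)), h1 _ (mem_plaq_iff.2 (Or.inr (Or.inl rfl))),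
      h1 _ (mem_plaq_iff.2 (Or.inr (Or.inr (Or.inl rfl)))),
      h1 _ (mem_plaq_iff.2 (Or.inr (Or.inr (Or.inr rfl))))]
    simp

open Classical in
/-- The main structural lemma: around an occupied site of the wrong parity there is a connected
contour whose interior has a boundary consisting of unoccupied sites, with constant parity on the
inner side. -/
lemma Valid.exists_contour (h : Valid n b I) {v : V2} (hv : v ∈ wrong b I) :
    ∃ γ ⊆ EB n, EvenSet γ ∧ Conn EAdj γ ∧ cr γ v = 1 ∧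
      (∀ e ∈ γ, e.1 ∈ B2 n ∨ tip e ∈ B2 n) ∧
      ∃ c : ZMod 2, ∀ u w, Adj2 u w → u ∈ Wset γ → w ∉ Wset γ → u ∉ I ∧ w ∉ I ∧ par u = c := by
  have hcut := h.isCut
  have hFcr : cr (cutF n b I) v = 1 := by
    rw [hcut.cr_eq (N := n + 1)]
    · exact ind_eq_one.2 (Or.inl hv)
    · intro u hu
      have := mem_B2.1 (h.wrongNbhd_subset hu)
      omega
  obtain ⟨γ, hγF, hcl, hconn, hcr⟩ := Pool.Agent.KCM6f5b46.exists_contour hFcr
  have heven : EvenSet γ := hcl.even hcut.even hγF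
  have hWcut := isCut_Wset heven
  refine ⟨γ, hγF.trans (Finset.filter_subset _ _), heven, hconn, hcr, ?_, ?_⟩
  · intro e he
    have h1 : chi (cutF n b I) e = 1 := chi_eq_one.2 (hγF he)
    rw [hcut e] at h1
    by_contra hno
    push Not at hno
    have h2 : e.1 ∉ wrongNbhd b I := fun h' => hno.1 (h.wrongNbhd_subset h')
    have h3 : tip e ∉ wrongNbhd b I := fun h' => hno.2 (h.wrongNbhd_subset h')
    rw [ind_eq_zero.2 h2, ind_eq_zero.2 h3] at h1
    simp at h1
  · set W := Wset γ with hW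
    set U := wrongNbhd b I with hU
    -- the class of edges for which the two inner sides agree
    set A := γ.filter fun e => ind W e.1 + ind U e.1 = 0 with hA
    have hplaq : ∀ x : V2, (∃ a ∈ γ, a ∈ plaq x) → ∀ a ∈ plaq x, ∀ e ∈ plaq x,
        ind W a.1 + ind U a.1 = ind W e.1 + ind U e.1 := by
      rintro x ⟨a₀, ha₀, hax₀⟩
      have h1 : ∀ e ∈ plaq x, ind W e.1 + ind W (tip e) = ind U e.1 + ind U (tip e) := by
        intro e he
        rw [← hWcut e, ← hcut e]
        exact ClosedIn.chi_eq hγF hcl ha₀ hax₀ he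
      have e1 := h1 _ (mem_plaq_iff.2 (Or.inl rfl))
      have e2 := h1 _ (mem_plaq_iff.2 (Or.inr (Or.inl rfl)))
      have e3 := h1 _ (mem_plaq_iff.2 (Or.inr (Or.inr (Or.inl rfl))))
      have e4 := h1 _ (mem_plaq_iff.2 (Or.inr (Or.inr (Or.inr rfl))))
      simp only [tip, Bool.false_eq_true, if_false, if_true] at e1 e2 e3 e4
      have key : ∀ a ∈ plaq x, ind W a.1 + ind U a.1 = ind W x + ind U x := by
        intro a ha
        rw [mem_plaq_iff] at ha
        rcases ha with rfl | rfl | rfl | rfl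
        · rfl
        · revert e3
          simp only
          generalize ind W x = x1
          generalize ind U x = x2
          generalize ind W (x.1, x.2 + 1) = x3
          generalize ind U (x.1, x.2 + 1) = x4
          revert x1 x2 x3 x4; decide
        · rfl
        · revert e1
          simp only
          generalize ind W x = x1
          generalize ind U x = x2
          generalize ind W (x.1 + 1, x.2) = x3
          generalize ind U (x.1 + 1, x.2) = x4
          revert x1 x2 x3 x4; decide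
      intro a ha e he
      rw [key a ha, key e he]
    have hAcl : ∀ a ∈ A, ∀ e ∈ γ, EAdj a e → e ∈ A := by
      rintro a ha e he ⟨x, hax, hex⟩
      rw [hA, Finset.mem_filter] at ha ⊢
      refine ⟨he, ?_⟩
      rw [← hplaq x ⟨a, ha.1, hax⟩ a hax e hex]
      exact ha.2
    have hcases : A = ∅ ∨ A = γ := by
      by_contra hno
      push Not at hno
      obtain ⟨a, ha, e, he, hae⟩ := hconn A (Finset.filter_subset _ _) hno.1 hno.2
      rw [Finset.mem_sdiff] at he
      exact he.2 (hAcl a ha e he.1 hae)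
    -- sums at both endpoints agree
    have hends : ∀ e ∈ γ, ind W e.1 + ind U e.1 = ind W (tip e) + ind U (tip e) := by
      intro e he
      have h1 : chi γ e = 1 := chi_eq_one.2 he
      have h2 : chi (cutF n b I) e = 1 := chi_eq_one.2 (hγF he)
      rw [hWcut e] at h1
      rw [hcut e] at h2
      revert h1 h2
      generalize ind W e.1 = x1
      generalize ind U e.1 = x2
      generalize ind W (tip e) = x3
      generalize ind U (tip e) = x4
      revert x1 x2 x3 x4; decide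
    have hedge : ∀ u w, Adj2 u w → u ∈ W → w ∉ W → ∃ e ∈ γ,
        (e.1 = u ∧ tip e = w) ∨ (e.1 = w ∧ tip e = u) := by
      intro u w huw hu hw
      obtain ⟨e, he⟩ := huw.exists_edge
      refine ⟨e, ?_, he⟩
      rw [← chi_eq_one, hWcut e]
      rcases he with ⟨h1, h2⟩ | ⟨h1, h2⟩
      · rw [h1, h2, ind_eq_one.2 hu, ind_eq_zero.2 hw]; rfl
      · rw [h1, h2, ind_eq_one.2 hu, ind_eq_zero.2 hw]; rfl
    rcases hcases with hA0 | hAγ
    · refine ⟨b + 1, fun u w huw hu hw => ?_⟩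
      obtain ⟨e, he, hew⟩ := hedge u w huw hu hw
      have h1 : ind W e.1 + ind U e.1 ≠ 0 := by
        intro h2
        have : e ∈ A := by rw [hA, Finset.mem_filter]; exact ⟨he, h2⟩
        rw [hA0] at this
        simp at this
      have h2 : ind W (tip e) + ind U (tip e) ≠ 0 := by rw [← hends e he]; exact h1
      have h3 : ind W u + ind U u ≠ 0 ∧ ind W w + ind U w ≠ 0 := by
        rcases hew with ⟨h5, h6⟩ | ⟨h5, h6⟩
        · rw [← h5, ← h6]; exact ⟨h1, h2⟩
        · rw [← h5, ← h6]; exact ⟨h2, h1⟩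
      rw [ind_eq_one.2 hu, ind_eq_zero.2 hw] at h3
      have h4 : u ∉ U := by
        intro h5
        rw [ind_eq_one.2 h5] at h3
        exact h3.1 (by decide)
      have h5 : w ∈ U := by
        by_contra h6
        rw [ind_eq_zero.2 h6] at h3
        exact h3.2 (by decide)
      obtain ⟨h6, h7, h8⟩ := h.boundary_props huw.symm h5 h4
      refine ⟨h7, h6, ?_⟩
      rw [huw.symm.par_eq, h8]
    · refine ⟨b, fun u w huw hu hw => ?_⟩
      obtain ⟨e, he, hew⟩ := hedge u w huw hu hw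
      have h1 : ind W e.1 + ind U e.1 = 0 := by
        have : e ∈ A := by rw [hAγ]; exact he
        rw [hA, Finset.mem_filter] at this
        exact this.2
      have h2 : ind W (tip e) + ind U (tip e) = 0 := by rw [← hends e he]; exact h1
      have h3 : ind W u + ind U u = 0 ∧ ind W w + ind U w = 0 := by
        rcases hew with ⟨h5, h6⟩ | ⟨h5, h6⟩
        · rw [← h5, ← h6]; exact ⟨h1, h2⟩
        · rw [← h5, ← h6]; exact ⟨h2, h1⟩
      rw [ind_eq_one.2 hu, ind_eq_zero.2 hw] at h3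
      have h4 : u ∈ U := by
        by_contra h5
        rw [ind_eq_zero.2 h5] at h3
        exact absurd h3.1 (by decide)
      have h5 : w ∉ U := by
        intro h6
        rw [ind_eq_one.2 h6] at h3
        exact absurd h3.2 (by decide)
      exact h.boundary_props huw h4 h5

end Pool.Agent.KCM6f5b46
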