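import Pool.Agent.KCM6f5b46.InfVol

open MeasureTheory Filter Topology
open scoped NNReal ENNReal Nat

namespace Pool.Agent.KCM6f5b46

variable {d : ℕ}

/-- The subalgebra of local continuous functions. -/
def localSub (d : ℕ) : Subalgebra ℝ C(Config d, ℝ) where
  carrier := {f | IsLocal (f : Config d → ℝ)}
  mul_mem' := by
    classical
    rintro f g ⟨A, hA⟩ ⟨B, hB⟩
    refine ⟨A ∪ B, fun η ζ h => ?_⟩
    simp only [ContinuousMap.coe_mul, Pi.mul_apply]
    rw [hA (fun x hx => h x (by simp [Finset.mem_coe.1 hx])),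
      hB (fun x hx => h x (by simp [Finset.mem_coe.1 hx]))]
  add_mem' := by
    classical
    rintro f g ⟨A, hA⟩ ⟨B, hB⟩
    refine ⟨A ∪ B, fun η ζ h => ?_⟩
    simp only [ContinuousMap.coe_add, Pi.add_apply]
    rw [hA (fun x hx => h x (by simp [Finset.mem_coe.1 hx])),
      hB (fun x hx => h x (by simp [Finset.mem_coe.1 hx]))]
  algebraMap_mem' := by
    intro r
    exact ⟨∅, fun η ζ _ => rfl⟩

/-- The indicator of `η x = true` as a continuous function. -/
noncomputable def indC (x : Site d) : C(Config d, ℝ) :=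
  ⟨fun η => if η x = true then 1 else 0,
    continuous_of_dependsOn (A := {x}) (Set.finite_singleton x) (fun η ζ h => by
      simp [h x (Set.mem_singleton x)])⟩

lemma indC_apply (x : Site d) (η : Config d) : indC x η = if η x = true then 1 else 0 := rfl

lemma indC_local (x : Site d) : IsLocal (indC x : Config d → ℝ) :=
  ⟨{x}, fun η ζ h => by
    rw [indC_apply, indC_apply, h x (by simp)]⟩

lemma exists_local_near (f : C(Config d, ℝ)) {ε : ℝ} (hε : 0 < ε) :
    ∃ g : C(Config d, ℝ), IsLocal (g : Config d → ℝ) ∧ ‖f - g‖ < ε := by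
  have hsep : (localSub d).SeparatesPoints := by
    intro η ζ hne
    obtain ⟨x, hx⟩ := Function.ne_iff.1 hne
    refine ⟨indC x, ⟨indC x, indC_local x, rfl⟩, ?_⟩
    rw [indC_apply, indC_apply]
    cases h1 : η x <;> cases h2 : ζ x <;> simp_all
  have htop := ContinuousMap.subalgebra_topologicalClosure_eq_top_of_separatesPoints
    (localSub d) hsep
  have hf : f ∈ (localSub d).topologicalClosure := by rw [htop]; trivial
  have hf2 : f ∈ closure (localSub d : Set C(Config d, ℝ)) := hf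
  rw [Metric.mem_closure_iff] at hf2
  obtain ⟨g, hg, hfg⟩ := hf2 ε hε
  exact ⟨g, hg, by rwa [dist_eq_norm] at hfg⟩

section

variable (K : KCM d) {q : ℝ} (hq0 : 0 ≤ q) (hq1 : q ≤ 1)

include hq0 hq1 in
lemma cauchySeq_Pfin_local {f : C(Config d, ℝ)} (hf : IsLocal (f : Config d → ℝ)) {t : ℝ}
    (ht : 0 ≤ t) : CauchySeq fun L => Pfin K q (boxF d L) t f := by
  obtain ⟨A, hA⟩ := hf
  apply cauchySeq_of_le_tendsto_0 (fun L : ℕ => 2 * (K.bound * Real.exp (-L) *
    (Real.exp (t * cst K) * wSem A f) * t))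
  · intro n m N hn hm
    rw [dist_eq_norm]
    have h1 := norm_Pfin_sub_le K hq0 hq1 (L := N) (Finset.Subset.refl _) (boxF_mono hn) hA ht
    have h2 := norm_Pfin_sub_le K hq0 hq1 (L := N) (Finset.Subset.refl _) (boxF_mono hm) hA ht
    calc ‖Pfin K q (boxF d n) t f - Pfin K q (boxF d m) t f‖
        = ‖(Pfin K q (boxF d n) t f - Pfin K q (boxF d N) t f)
            - (Pfin K q (boxF d m) t f - Pfin K q (boxF d N) t f)‖ := by congr 1; abel
      _ ≤ _ := (norm_sub_le _ _)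
      _ ≤ _ := by linarith
  · have h1 : Tendsto (fun L : ℕ => Real.exp (-(L : ℝ))) atTop (𝓝 0) :=
      Real.tendsto_exp_neg_atTop_nhds_zero.comp tendsto_natCast_atTop_atTop
    have h2 := ((((h1.const_mul K.bound).mul_const (Real.exp (t * cst K) * wSem A f)).mul_const
      t).const_mul 2)
    simpa using h2

include hq0 hq1 in
lemma cauchySeq_Pfin (f : C(Config d, ℝ)) {t : ℝ}
    (ht : 0 ≤ t) : CauchySeq fun L => Pfin K q (boxF d L) t f := by
  rw [Metric.cauchySeq_iff]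
  intro ε hε
  obtain ⟨g, hg, hfg⟩ := exists_local_near f (show 0 < ε / 3 by linarith)
  obtain ⟨N, hN⟩ := Metric.cauchySeq_iff.1 (cauchySeq_Pfin_local K hq0 hq1 hg ht) (ε / 3)
    (by linarith)
  refine ⟨N, fun m hm n hn => ?_⟩
  have h1 := hN m hm n hn
  rw [dist_eq_norm] at h1 ⊢
  have h2 := norm_Pfin_le K hq0 hq1 (boxF d m) ht (f - g)
  have h3 := norm_Pfin_le K hq0 hq1 (boxF d n) ht (f - g)
  calc ‖Pfin K q (boxF d m) t f - Pfin K q (boxF d n) t f‖
      = ‖Pfin K q (boxF d m) t (f - g) - Pfin K q (boxF d n) t (f - g)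
          + (Pfin K q (boxF d m) t g - Pfin K q (boxF d n) t g)‖ := by
        rw [map_sub, map_sub]; congr 1; abel
    _ ≤ ‖Pfin K q (boxF d m) t (f - g)‖ + ‖Pfin K q (boxF d n) t (f - g)‖
          + ‖Pfin K q (boxF d m) t g - Pfin K q (boxF d n) t g‖ :=
        (norm_add_le _ _).trans (add_le_add (norm_sub_le _ _) le_rfl)
    _ < ε := by linarith

include hq0 hq1 in
lemma exists_tendsto_Pfin (f : C(Config d, ℝ)) {t : ℝ} (ht : 0 ≤ t) :
    ∃ g, Tendsto (fun L => Pfin K q (boxF d L) t f) atTop (𝓝 g) :=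
  cauchySeq_tendsto_of_complete (cauchySeq_Pfin K hq0 hq1 f ht)

/-- The infinite volume semigroup. -/
noncomputable def Pinf (t : ℝ≥0) : C(Config d, ℝ) →L[ℝ] C(Config d, ℝ) :=
  LinearMap.mkContinuous
    { toFun := fun f => (exists_tendsto_Pfin K hq0 hq1 f t.2).choose
      map_add' := fun f g => by
        have h1 := (exists_tendsto_Pfin K hq0 hq1 f t.2).choose_spec
        have h2 := (exists_tendsto_Pfin K hq0 hq1 g t.2).choose_spec
        have h3 := (exists_tendsto_Pfin K hq0 hq1 (f + g) t.2).choose_spec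
        exact tendsto_nhds_unique h3
          ((h1.add h2).congr fun L => (map_add (Pfin K q (boxF d L) t) f g).symm)
      map_smul' := fun c f => by
        have h1 := (exists_tendsto_Pfin K hq0 hq1 f t.2).choose_spec
        have h3 := (exists_tendsto_Pfin K hq0 hq1 (c • f) t.2).choose_spec
        exact tendsto_nhds_unique h3
          ((h1.const_smul c).congr fun L => (map_smul (Pfin K q (boxF d L) t) c f).symm) } 1 (by
    intro f
    have h1 := (exists_tendsto_Pfin K hq0 hq1 f t.2).choose_spec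
    rw [one_mul]
    exact le_of_tendsto h1.norm (Eventually.of_forall fun _ =>
      norm_Pfin_le K hq0 hq1 _ t.2 f))

lemma tendsto_Pinf (t : ℝ≥0) (f : C(Config d, ℝ)) :
    Tendsto (fun L => Pfin K q (boxF d L) t f) atTop (𝓝 (Pinf K hq0 hq1 t f)) :=
  (exists_tendsto_Pfin K hq0 hq1 f t.2).choose_spec

lemma norm_Pinf_le (t : ℝ≥0) (f : C(Config d, ℝ)) : ‖Pinf K hq0 hq1 t f‖ ≤ ‖f‖ :=
  le_of_tendsto (tendsto_Pinf K hq0 hq1 t f).norm (Eventually.of_forall fun _ =>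
      norm_Pfin_le K hq0 hq1 _ t.2 f)

lemma Pinf_zero (f : C(Config d, ℝ)) : Pinf K hq0 hq1 0 f = f := by
  refine tendsto_nhds_unique (tendsto_Pinf K hq0 hq1 0 f) ?_
  simp only [NNReal.coe_zero, Pfin_zero]
  exact tendsto_const_nhds

lemma Pinf_add (s t : ℝ≥0) (f : C(Config d, ℝ)) :
    Pinf K hq0 hq1 (s + t) f = Pinf K hq0 hq1 s (Pinf K hq0 hq1 t f) := by
  refine tendsto_nhds_unique (tendsto_Pinf K hq0 hq1 (s + t) f) ?_
  simp only [NNReal.coe_add, Pfin_add]
  have h1 := tendsto_Pinf K hq0 hq1 s (Pinf K hq0 hq1 t f)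
  have h2 : Tendsto (fun L => Pfin K q (boxF d L) s (Pfin K q (boxF d L) t f)
      - Pfin K q (boxF d L) s (Pinf K hq0 hq1 t f)) atTop (𝓝 0) := by
    apply squeeze_zero_norm (a := fun L => ‖Pfin K q (boxF d L) t f - Pinf K hq0 hq1 t f‖)
    · intro L
      rw [← map_sub]
      exact norm_Pfin_le K hq0 hq1 _ s.2 _
    · have := (tendsto_Pinf K hq0 hq1 t f).sub_const (Pinf K hq0 hq1 t f)
      rw [sub_self] at this
      exact tendsto_zero_iff_norm_tendsto_zero.1 this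
  have h3 := h2.add h1
  simpa using h3

lemma Pinf_one (t : ℝ≥0) : Pinf K hq0 hq1 t 1 = 1 := by
  refine tendsto_nhds_unique (tendsto_Pinf K hq0 hq1 t 1) ?_
  simp only [Pfin_one]
  exact tendsto_const_nhds

lemma Pinf_nonneg (t : ℝ≥0) (f : C(Config d, ℝ)) (hf : 0 ≤ f) : 0 ≤ Pinf K hq0 hq1 t f := by
  rw [ContinuousMap.le_def]
  intro η
  have h1 := ((ContinuousMap.evalCLM ℝ η).continuous.tendsto _).comp
    (tendsto_Pinf K hq0 hq1 t f)
  refine ge_of_tendsto h1 (Eventually.of_forall fun L => ?_)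
  exact Pfin_nonneg K hq0 hq1 _ t.2 hf η

/-- `L f` for local `f`. -/
lemma Lfin_eq_of_subset {f : C(Config d, ℝ)} {A Λ : Finset (Site d)} (hf : DependsOn f A)
    (h : A ⊆ Λ) : Lfin K q Λ f = Lfin K q A f := by
  rw [Lfin_eq_sum, Lfin_eq_sum]
  symm
  apply Finset.sum_subset h
  intro x _ hx
  rw [Lsite_eq, Dop_eq_zero hf (by simpa using hx), mul_zero]

lemma Lfin_dependsOn {f : C(Config d, ℝ)} {A : Finset (Site d)} (hf : DependsOn f A)
    (Λ : Finset (Site d)) : IsLocal (Lfin K q Λ f : Config d → ℝ) := by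
  classical
  refine ⟨A ∪ Λ.biUnion fun x => nearF (max K.range 0) x, fun η ζ h => ?_⟩
  rw [Lfin_apply, Lfin_apply]
  apply Finset.sum_congr rfl
  intro x hx
  have h1 : rateC K q x η = rateC K q x ζ := by
    apply flipRate_dependsOn K q x
    intro y hy
    apply h
    simp only [Finset.coe_union, Finset.coe_biUnion, Set.mem_union, Set.mem_iUnion]
    exact Or.inr ⟨x, hx, hy⟩
  have h2 : f η = f ζ := hf fun y hy => h y (by simp [Finset.mem_coe.1 hy])
  have h3 : f (flipAt x η) = f (flipAt x ζ) := by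
    apply hf
    intro y hy
    have hy2 : η y = ζ y := h y (by simp [Finset.mem_coe.1 hy])
    by_cases hyx : y = x
    · subst hyx
      rw [flipAt_apply_self, flipAt_apply_self, hy2]
    · rw [flipAt_apply_ne hyx, flipAt_apply_ne hyx, hy2]
  rw [h1, h2, h3]

lemma gen_eq {f : C(Config d, ℝ)} {A : Finset (Site d)} (hf : DependsOn f A) (η : Config d) :
    gen K q f η = Lfin K q A f η := by
  rw [Lfin_apply]
  unfold gen
  rw [finsum_eq_sum_of_support_subset]
  · rfl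
  · intro x hx
    by_contra hxA
    apply hx
    have := Dop_eq_zero hf (by simpa using hxA) (x := x)
    have h2 : f (flipAt x η) - f η = 0 := by
      rw [← Dop_apply, this]; rfl
    simp only [h2, mul_zero]

lemma norm_Pinf_sub_sub_le {f : C(Config d, ℝ)} {A B : Finset (Site d)} (hf : DependsOn f A)
    (hB : DependsOn (Lfin K q A f) B) (t : ℝ≥0) :
    ‖Pinf K hq0 hq1 t f - f - (t : ℝ) • Lfin K q A f‖
      ≤ ‖Lfin K q B (Lfin K q A f)‖ * (t : ℝ) ^ 2 := by
  obtain ⟨L1, hL1⟩ := exists_subset_boxF A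
  obtain ⟨L2, hL2⟩ := exists_subset_boxF B
  have h1 := (((tendsto_Pinf K hq0 hq1 t f).sub_const f).sub_const
    ((t : ℝ) • Lfin K q A f)).norm
  refine le_of_tendsto h1 ?_
  filter_upwards [eventually_ge_atTop (max L1 L2)] with L hL
  have hA : A ⊆ boxF d L := hL1.trans (boxF_mono ((le_max_left _ _).trans hL))
  have hB' : B ⊆ boxF d L := hL2.trans (boxF_mono ((le_max_right _ _).trans hL))
  have h2 := norm_expOp_sub_sub_le (Lfin K q (boxF d L)) t.2 f
    (fun s hs g => norm_Pfin_le K hq0 hq1 (boxF d L) hs g)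
  rw [Lfin_eq_of_subset K hf hA, Lfin_eq_of_subset K hB hB'] at h2
  exact h2

lemma tendsto_generator {f : C(Config d, ℝ)} {A : Finset (Site d)} (hf : DependsOn f A) :
    Tendsto (fun t : ℝ≥0 => (t : ℝ)⁻¹ • (Pinf K hq0 hq1 t f - f)) (𝓝[≠] 0)
      (𝓝 (Lfin K q A f)) := by
  obtain ⟨B, hB⟩ := Lfin_dependsOn K (q := q) hf A
  rw [tendsto_iff_norm_sub_tendsto_zero]
  have h0 : Tendsto (fun t : ℝ≥0 => ‖Lfin K q B (Lfin K q A f)‖ * (t : ℝ)) (𝓝[≠] 0) (𝓝 0) := by
    have : Tendsto (fun t : ℝ≥0 => ‖Lfin K q B (Lfin K q A f)‖ * (t : ℝ)) (𝓝 0)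
        (𝓝 (‖Lfin K q B (Lfin K q A f)‖ * ((0 : ℝ≥0) : ℝ))) := by
      apply Tendsto.const_mul
      exact NNReal.continuous_coe.tendsto 0
    rw [NNReal.coe_zero, mul_zero] at this
    exact this.mono_left nhdsWithin_le_nhds
  refine squeeze_zero' (Eventually.of_forall fun t => norm_nonneg _) ?_ h0
  filter_upwards [self_mem_nhdsWithin] with t ht
  have ht0 : (0 : ℝ) < t := by
    have : t ≠ 0 := ht
    exact_mod_cast pos_iff_ne_zero.2 this
  have h1 := norm_Pinf_sub_sub_le K hq0 hq1 hf hB t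
  have h2 : (t : ℝ)⁻¹ • (Pinf K hq0 hq1 t f - f) - Lfin K q A f
      = (t : ℝ)⁻¹ • (Pinf K hq0 hq1 t f - f - (t : ℝ) • Lfin K q A f) := by
    rw [smul_sub _ _ ((t : ℝ) • Lfin K q A f), smul_smul, inv_mul_cancel₀ ht0.ne', one_smul]
  rw [h2, norm_smul, Real.norm_of_nonneg (inv_pos.2 ht0).le]
  calc (t : ℝ)⁻¹ * ‖Pinf K hq0 hq1 t f - f - (t : ℝ) • Lfin K q A f‖
      ≤ (t : ℝ)⁻¹ * (‖Lfin K q B (Lfin K q A f)‖ * (t : ℝ) ^ 2) := by gcongr
    _ = ‖Lfin K q B (Lfin K q A f)‖ * (t : ℝ) := by field_simp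

lemma tendsto_Pinf_zero (f : C(Config d, ℝ)) :
    Tendsto (fun t : ℝ≥0 => Pinf K hq0 hq1 t f) (𝓝 0) (𝓝 f) := by
  rw [Metric.tendsto_nhds]
  intro ε hε
  obtain ⟨g, ⟨A, hA⟩, hfg⟩ := exists_local_near f (show 0 < ε / 3 by linarith)
  obtain ⟨B, hB⟩ := Lfin_dependsOn K (q := q) hA A
  have h0 : Tendsto (fun t : ℝ≥0 => ‖Lfin K q B (Lfin K q A g)‖ * (t : ℝ) ^ 2
      + (t : ℝ) * ‖Lfin K q A g‖) (𝓝 0) (𝓝 0) := by
    have hc : Continuous (fun t : ℝ≥0 => ‖Lfin K q B (Lfin K q A g)‖ * (t : ℝ) ^ 2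
      + (t : ℝ) * ‖Lfin K q A g‖) := by fun_prop
    have := hc.tendsto 0
    simpa using this
  filter_upwards [h0.eventually_lt_const (show 0 < ε / 3 by linarith)] with t ht
  have h1 := norm_Pinf_sub_sub_le K hq0 hq1 hA hB t
  have h2 : ‖Pinf K hq0 hq1 t g - g‖ < ε / 3 := by
    calc ‖Pinf K hq0 hq1 t g - g‖
        = ‖(Pinf K hq0 hq1 t g - g - (t : ℝ) • Lfin K q A g) + (t : ℝ) • Lfin K q A g‖ := by
          congr 1; abel
      _ ≤ ‖Pinf K hq0 hq1 t g - g - (t : ℝ) • Lfin K q A g‖ + ‖(t : ℝ) • Lfin K q A g‖ :=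
          norm_add_le _ _
      _ ≤ ‖Lfin K q B (Lfin K q A g)‖ * (t : ℝ) ^ 2 + (t : ℝ) * ‖Lfin K q A g‖ := by
          gcongr
          rw [norm_smul, NNReal.norm_eq]
      _ < ε / 3 := ht
  have h3 := norm_Pinf_le K hq0 hq1 t (f - g)
  rw [dist_eq_norm]
  calc ‖Pinf K hq0 hq1 t f - f‖
      = ‖Pinf K hq0 hq1 t (f - g) + (Pinf K hq0 hq1 t g - g) - (f - g)‖ := by
        rw [map_sub]; congr 1; abel
    _ ≤ ‖Pinf K hq0 hq1 t (f - g)‖ + ‖Pinf K hq0 hq1 t g - g‖ + ‖f - g‖ :=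
        (norm_sub_le _ _).trans (add_le_add (norm_add_le _ _) le_rfl)
    _ < ε := by linarith

lemma norm_Pinf_sub_Pinf_le {s t : ℝ≥0} (hst : s ≤ t) (f : C(Config d, ℝ)) :
    ‖Pinf K hq0 hq1 t f - Pinf K hq0 hq1 s f‖ ≤ ‖Pinf K hq0 hq1 (t - s) f - f‖ := by
  have h1 : t = s + (t - s) := by rw [add_tsub_cancel_of_le hst]
  calc ‖Pinf K hq0 hq1 t f - Pinf K hq0 hq1 s f‖
      = ‖Pinf K hq0 hq1 s (Pinf K hq0 hq1 (t - s) f - f)‖ := by
        rw [map_sub, ← Pinf_add, ← h1]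
    _ ≤ _ := norm_Pinf_le K hq0 hq1 s _

lemma continuous_Pinf (f : C(Config d, ℝ)) : Continuous fun t => Pinf K hq0 hq1 t f := by
  rw [Metric.continuous_iff]
  intro s ε hε
  obtain ⟨δ, hδ, h⟩ := Metric.tendsto_nhds_nhds.1 (tendsto_Pinf_zero K hq0 hq1 f) ε hε
  refine ⟨δ, hδ, fun t ht => ?_⟩
  rcases le_total s t with hst | hst
  · rw [dist_eq_norm]
    refine (norm_Pinf_sub_Pinf_le K hq0 hq1 hst f).trans_lt ?_
    rw [← dist_eq_norm]
    apply h
    rw [NNReal.dist_eq] at ht ⊢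
    rw [NNReal.coe_sub hst]
    simpa using ht
  · rw [dist_comm, dist_eq_norm]
    refine (norm_Pinf_sub_Pinf_le K hq0 hq1 hst f).trans_lt ?_
    rw [← dist_eq_norm]
    apply h
    rw [NNReal.dist_eq] at ht ⊢
    rw [NNReal.coe_sub hst]
    rw [abs_sub_comm] at ht
    simpa using ht

/-- Existence of the semigroup. -/
theorem isSemigroupB_Pinf : IsSemigroupB K q (Pinf K hq0 hq1) where
  zero := by ext1 f; exact Pinf_zero K hq0 hq1 f
  add s t := by ext1 f; exact Pinf_add K hq0 hq1 s t f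
  one := Pinf_one K hq0 hq1
  nonneg := Pinf_nonneg K hq0 hq1
  continuous := continuous_Pinf K hq0 hq1
  generator := by
    rintro f g ⟨A, hA⟩ hg
    have : g = Lfin K q A f := by
      ext η; rw [hg, gen_eq K hA]
    rw [this]
    exact tendsto_generator K hq0 hq1 hA

end

end Pool.Agent.KCM6f5b46
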