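import Pool.Agent.KCM6f5b46.Select

namespace Pool.Agent.KCM6f5b46

variable {n : ℕ} {b : ZMod 2} {I : Set V2}

/-- The interior of an even set of edges near the box lies in the box. -/
lemma Wset_subset {γ : Finset E2} (heven : EvenSet γ)
    (hγ : ∀ e ∈ γ, e.1 ∈ B2 n ∨ tip e ∈ B2 n) {v : V2} (hv : v ∈ Wset γ) : v ∈ B2 n := by
  -- horizontal edges
  have hh : ∀ e ∈ γ, e.2 = false → -(n : ℤ) ≤ e.1.2 ∧ e.1.2 ≤ n ∧ e.1.1 ≤ n := by
    intro e he h0
    rcases hγ e he with h1 | h1
    · rw [mem_B2] at h1; omega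
    · rw [mem_B2] at h1
      simp only [tip, h0, Bool.false_eq_true, if_false] at h1
      omega
  have hver : ∀ e ∈ γ, e.2 = true → -(n : ℤ) ≤ e.1.1 := by
    intro e he h0
    rcases hγ e he with h1 | h1
    · rw [mem_B2] at h1; omega
    · rw [mem_B2] at h1
      simp only [tip, h0, if_true] at h1
      omega
  have hzero : ∀ w : V2, (w.2 < -(n : ℤ) ∨ (n : ℤ) < w.2 ∨ (n : ℤ) < w.1) → cr γ w = 0 := by
    intro w hw
    unfold cr
    apply Finset.sum_eq_zero
    intro e he
    rw [if_neg]
    rintro ⟨h0, h1, h2⟩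
    have := hh e he h0
    omega
  have hcut := isCut_Wset heven
  have hleft : ∀ w : V2, w.1 < -(n : ℤ) → cr γ w = 0 := by
    intro w hw
    have key : ∀ (k : ℕ) (w : V2), w.1 < -(n : ℤ) → (n : ℤ) < w.2 + k → cr γ w = 0 := by
      intro k
      induction k with
      | zero => intro w _ h2; exact hzero w (by right; left; simpa using h2)
      | succ k ih =>
        intro w h1 h2
        have h3 := ih (w.1, w.2 + 1) h1 (by push_cast at h2; simp only; omega)
        have h4 : (w, true) ∉ γ := fun h => by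
          have := hver _ h rfl
          simp only at this
          omega
        have h5 := hcut (w, true)
        rw [chi_eq_zero.2 h4, ind_Wset, ind_Wset] at h5
        simp only [tip, if_true] at h5
        rw [h3, add_zero] at h5
        exact h5.symm
    apply key ((n : ℤ) + 1 - w.2).toNat w hw
    have := Int.self_le_toNat ((n : ℤ) + 1 - w.2)
    omega
  rw [mem_B2]
  by_contra hno
  have h1 : cr γ v = 1 := hv
  have h2 : cr γ v = 0 := by
    by_cases h3 : v.1 < -(n : ℤ)
    · exact hleft v h3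
    · apply hzero
      omega
  rw [h1] at h2
  exact absurd h2 (by decide)

/-- A connected contour around `v` which contains the edge at distance `j` to the right of `v`
has at least `j` edges. -/
lemma exists_ray_edge {γ : Finset E2} (heven : EvenSet γ) (hconn : Conn EAdj γ)
    (hγ : ∀ e ∈ γ, e.1 ∈ B2 n ∨ tip e ∈ B2 n) {v : V2} (hv : cr γ v = 1) :
    ∃ j : ℕ, ((v.1 + j, v.2), false) ∈ γ ∧ j ≤ γ.card := by
  classical
  -- an edge on the right ray
  have h1 : ∃ e ∈ γ, e.2 = false ∧ e.1.2 = v.2 ∧ v.1 ≤ e.1.1 := by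
    by_contra hno
    push Not at hno
    have : cr γ v = 0 := by
      unfold cr
      apply Finset.sum_eq_zero
      intro e he
      rw [if_neg]
      rintro ⟨h0, h1, h2⟩
      have := hno e he h0 h1
      omega
    rw [hv] at this
    exact absurd this (by decide)
  obtain ⟨e, he, he1, he2, he3⟩ := h1
  obtain ⟨j, hj⟩ := Int.eq_ofNat_of_zero_le (show 0 ≤ e.1.1 - v.1 by omega)
  have hej : e = ((v.1 + j, v.2), false) := by
    obtain ⟨⟨x, y⟩, c⟩ := e
    simp only at he1 he2 he3 hj ⊢
    rw [he1, he2]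
    congr 2
    omega
  -- an edge on the left of `v`
  have h2 : ∃ a ∈ γ, a.1.1 < v.1 := by
    by_contra hno
    push Not at hno
    have key : ∀ k : ℕ, (v.1 - k, v.2) ∈ Wset γ := by
      intro k
      induction k with
      | zero => simpa using (show v ∈ Wset γ from hv)
      | succ k ih =>
        have h3 : ((v.1 - (k + 1 : ℕ), v.2), false) ∉ γ := fun h => by
          have := hno _ h
          push_cast at this
          omega
        have h4 := isCut_Wset heven ((v.1 - (k + 1 : ℕ), v.2), false)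
        rw [chi_eq_zero.2 h3] at h4
        simp only [tip, Bool.false_eq_true, if_false] at h4
        have h5 : v.1 - ((k + 1 : ℕ) : ℤ) + 1 = v.1 - k := by push_cast; ring
        rw [h5, ind_eq_one.2 ih] at h4
        rw [← ind_eq_one]
        revert h4
        generalize ind (Wset γ) (v.1 - ((k + 1 : ℕ) : ℤ), v.2) = x
        revert x; decide
    have h6 := Wset_subset heven hγ (key (v.1 + n + 1).toNat)
    rw [mem_B2] at h6
    have := Int.self_le_toNat (v.1 + n + 1)
    simp only at h6
    omega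
  obtain ⟨a₀, ha₀, ha₀v⟩ := h2
  refine ⟨j, hej ▸ he, ?_⟩
  -- for each `k ≤ j` there is an edge of `γ` with abscissa `v.1 + k`
  have h3 : ∀ k : ℕ, 1 ≤ k → k ≤ j → ∃ a ∈ γ, a.1.1 = v.1 + k := by
    intro k hk1 hkj
    set A := γ.filter fun a => a.1.1 < v.1 + k with hA
    have hA1 : A.Nonempty := ⟨a₀, Finset.mem_filter.2 ⟨ha₀, by omega⟩⟩
    have hA2 : A ≠ γ := by
      intro h
      have : e ∈ A := by rw [h]; exact he
      have := (Finset.mem_filter.1 this).2
      omega
    obtain ⟨a, ha, c, hc, x, hax, hcx⟩ := hconn A (Finset.filter_subset _ _) hA1 hA2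
    rw [hA, Finset.mem_filter] at ha
    rw [Finset.mem_sdiff, hA, Finset.mem_filter] at hc
    refine ⟨c, hc.1, ?_⟩
    have h4 : ¬ c.1.1 < v.1 + k := fun h => hc.2 ⟨hc.1, h⟩
    have h5 : ∀ f ∈ plaq x, f.1.1 = x.1 ∨ f.1.1 = x.1 + 1 := by
      intro f hf
      rw [mem_plaq_iff] at hf
      rcases hf with rfl | rfl | rfl | rfl <;> simp
    have h6 := h5 a hax
    have h7 := h5 c hcx
    have h8 := ha.2
    omega
  have h4 : (Finset.Icc 1 j).card ≤ γ.card := by
    choose! g hg1 hg2 using h3
    apply Finset.card_le_card_of_injOn g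
    · intro k hk
      have := Finset.mem_Icc.1 hk
      exact hg1 k this.1 this.2
    · intro k hk l hl hkl
      have hk' := Finset.mem_Icc.1 hk
      have hl' := Finset.mem_Icc.1 hl
      have e1 := hg2 k hk'.1 hk'.2
      have e2 := hg2 l hl'.1 hl'.2
      rw [hkl] at e1
      omega
  simpa using h4

/-- The four directions. -/
def dirs : Finset V2 := {(1, 0), (-1, 0), (0, 1), (0, -1)}

lemma adj2_add_of_mem_dirs {δ : V2} (hδ : δ ∈ dirs) (u : V2) : Adj2 u (u + δ) := by
  unfold dirs at hδ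
  simp only [Finset.mem_insert, Finset.mem_singleton] at hδ
  unfold Adj2
  rcases hδ with rfl | rfl | rfl | rfl <;> simp

lemma adj2_add_add {u w : V2} (h : Adj2 u w) (δ : V2) : Adj2 (u + δ) (w + δ) := by
  unfold Adj2 at h ⊢
  simp only [Prod.fst_add, Prod.snd_add]
  omega

/-- The shifted configuration. -/
def shiftSet (W : Set V2) (δ : V2) (I : Set V2) : Set V2 :=
  {v | (v ∈ W ∧ (v + δ ∈ W → v + δ ∈ I)) ∨ (v ∉ W ∧ v ∈ I)}

lemma mem_shiftSet_of_mem {W : Set V2} {δ : V2} {I : Set V2} {v : V2} (hv : v ∈ W) :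
    v ∈ shiftSet W δ I ↔ (v + δ ∈ W → v + δ ∈ I) := by
  unfold shiftSet
  simp only [Set.mem_ofPred_eq, hv, true_and, not_true, false_and, or_false]

lemma mem_shiftSet_of_not_mem {W : Set V2} {δ : V2} {I : Set V2} {v : V2} (hv : v ∉ W) :
    v ∈ shiftSet W δ I ↔ v ∈ I := by
  unfold shiftSet
  simp only [Set.mem_ofPred_eq, hv, false_and, not_false_eq_true, true_and, false_or]

lemma shiftSet_indep {W : Set V2} {δ : V2} (hδ : δ ∈ dirs) {c : ZMod 2}
    (hI : ∀ u w, Adj2 u w → u ∈ I → w ∈ I → False)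
    (hW : ∀ u w, Adj2 u w → u ∈ W → w ∉ W → u ∉ I ∧ w ∉ I ∧ par u = c) :
    ∀ u w, Adj2 u w → u ∈ shiftSet W δ I → w ∈ shiftSet W δ I → False := by
  intro u w huw hu hw
  by_cases h1 : u ∈ W <;> by_cases h2 : w ∈ W
  · rw [mem_shiftSet_of_mem h1] at hu
    rw [mem_shiftSet_of_mem h2] at hw
    by_cases h3 : u + δ ∈ W <;> by_cases h4 : w + δ ∈ W
    · exact hI _ _ (adj2_add_add huw δ) (hu h3) (hw h4)
    · exact (hW _ _ (adj2_add_add huw δ) h3 h4).1 (hu h3)
    · exact (hW _ _ (adj2_add_add huw.symm δ) h4 h3).1 (hw h4)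
    · have e1 := (hW u _ (adj2_add_of_mem_dirs hδ u) h1 h3).2.2
      have e2 := (hW w _ (adj2_add_of_mem_dirs hδ w) h2 h4).2.2
      rw [huw.par_eq, e1] at e2
      exact zmod2_add_one_ne c e2
  · rw [mem_shiftSet_of_not_mem h2] at hw
    exact (hW u w huw h1 h2).2.1 hw
  · rw [mem_shiftSet_of_not_mem h1] at hu
    exact (hW w u huw.symm h2 h1).2.1 hu
  · rw [mem_shiftSet_of_not_mem h1] at hu
    rw [mem_shiftSet_of_not_mem h2] at hw
    exact hI u w huw hu hw

/-- The shift is injective. -/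
lemma shiftSet_injective {W : Set V2} {δ : V2} (hδ : δ ∈ dirs) {I J : Set V2} {c c' : ZMod 2}
    (hI : ∀ u w, Adj2 u w → u ∈ W → w ∉ W → u ∉ I ∧ w ∉ I ∧ par u = c)
    (hJ : ∀ u w, Adj2 u w → u ∈ W → w ∉ W → u ∉ J ∧ w ∉ J ∧ par u = c')
    (h : shiftSet W δ I = shiftSet W δ J) : I = J := by
  ext v
  by_cases hv : v ∈ W
  · by_cases h1 : v - δ ∈ W
    · have e1 := mem_shiftSet_of_mem (δ := δ) (I := I) h1
      have e2 := mem_shiftSet_of_mem (δ := δ) (I := J) h1
      rw [sub_add_cancel] at e1 e2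
      rw [h, e2] at e1
      constructor
      · intro hvI; exact e1.2 (fun _ => hvI) hv
      · intro hvJ; exact e1.1 (fun _ => hvJ) hv
    · have hadj : Adj2 v (v - δ) := by
        have := adj2_add_of_mem_dirs hδ (v - δ)
        rw [sub_add_cancel] at this
        exact this.symm
      have e1 := (hI v _ hadj hv h1).1
      have e2 := (hJ v _ hadj hv h1).1
      exact ⟨fun h => absurd h e1, fun h => absurd h e2⟩
  · have e1 := mem_shiftSet_of_not_mem (δ := δ) (I := I) hv
    have e2 := mem_shiftSet_of_not_mem (δ := δ) (I := J) hv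
    rw [← e1, ← e2, h]

open Classical in
/-- Cardinality of the shifted configuration. -/
lemma card_shift {B : Finset V2} {W : Set V2} {δ : V2} (hδ : δ ∈ dirs) {c : ZMod 2}
    (hWB : ∀ v ∈ W, v ∈ B)
    (hW : ∀ u w, Adj2 u w → u ∈ W → w ∉ W → u ∉ I ∧ w ∉ I ∧ par u = c) :
    (B.filter fun v => v ∈ shiftSet W δ I).card
      = (B.filter fun v => v ∈ I).card + (B.filter fun v => v ∈ W ∧ v + δ ∉ W).card := by
  -- split the shifted set
  have h1 : (B.filter fun v => v ∈ shiftSet W δ I)
      = (B.filter fun v => v ∉ W ∧ v ∈ I) ∪ ((B.filter fun v => v ∈ W ∧ v + δ ∈ W ∧ v + δ ∈ I)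
        ∪ (B.filter fun v => v ∈ W ∧ v + δ ∉ W)) := by
    ext v
    simp only [Finset.mem_filter, Finset.mem_union]
    by_cases hv : v ∈ W
    · rw [mem_shiftSet_of_mem hv]; tauto
    · rw [mem_shiftSet_of_not_mem hv]; tauto
  have h2 : (B.filter fun v => v ∈ I)
      = (B.filter fun v => v ∉ W ∧ v ∈ I) ∪ (B.filter fun v => v ∈ W ∧ v ∈ I) := by
    ext v
    simp only [Finset.mem_filter, Finset.mem_union]
    tauto
  have h3 : (B.filter fun v => v ∈ W ∧ v + δ ∈ W ∧ v + δ ∈ I).card
      = (B.filter fun v => v ∈ W ∧ v ∈ I).card := by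
    apply Finset.card_bij (fun v _ => v + δ)
    · intro v hv
      simp only [Finset.mem_filter] at hv ⊢
      exact ⟨hWB _ hv.2.2.1, hv.2.2.1, hv.2.2.2⟩
    · intro v _ w _ h; exact add_right_cancel h
    · intro v hv
      simp only [Finset.mem_filter] at hv
      have h4 : v - δ ∈ W := by
        by_contra h5
        have hadj : Adj2 v (v - δ) := by
          have := adj2_add_of_mem_dirs hδ (v - δ)
          rw [sub_add_cancel] at this
          exact this.symm
        exact (hW v _ hadj hv.2.1 h5).1 hv.2.2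
      refine ⟨v - δ, ?_, by simp⟩
      simp only [Finset.mem_filter, sub_add_cancel]
      exact ⟨hWB _ h4, h4, hv.2.1, hv.2.2⟩
  rw [h1, Finset.card_union_of_disjoint, Finset.card_union_of_disjoint, h3, h2,
    Finset.card_union_of_disjoint]
  · ring
  · rw [Finset.disjoint_left]
    intro v hv hw
    simp only [Finset.mem_filter] at hv hw
    exact hv.2.1 hw.2.1
  · rw [Finset.disjoint_left]
    intro v hv hw
    simp only [Finset.mem_filter] at hv hw
    exact hw.2.2 hv.2.2.1
  · rw [Finset.disjoint_left]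
    intro v hv hw
    simp only [Finset.mem_filter, Finset.mem_union] at hv hw
    rcases hw with hw | hw
    · exact hv.2.1 hw.2.1
    · exact hv.2.1 hw.2.1

open Classical in
/-- One of the four directions sees at least a quarter of the contour. -/
lemma exists_dir {γ : Finset E2} (heven : EvenSet γ)
    (hγ : ∀ e ∈ γ, e.1 ∈ B2 n ∨ tip e ∈ B2 n) :
    ∃ δ ∈ dirs, γ.card ≤ 4 * ((B2 n).filter fun v => v ∈ Wset γ ∧ v + δ ∉ Wset γ).card := by
  have hcut := isCut_Wset heven
  have hWB : ∀ v ∈ Wset γ, v ∈ B2 n := fun v hv => Wset_subset heven hγ hv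
  set N : V2 → Finset V2 := fun δ => (B2 n).filter fun v => v ∈ Wset γ ∧ v + δ ∉ Wset γ with hN
  -- injection of `γ` into the disjoint union
  have h1 : γ.card ≤ ∑ δ ∈ dirs, (N δ).card := by
    rw [← Finset.card_sigma]
    have htip : ∀ e : E2, tip e = e.1 + (if e.2 = true then ((0, 1) : V2) else (1, 0)) := by
      intro e; unfold tip; split_ifs <;> simp [Prod.ext_iff]
    apply Finset.card_le_card_of_injOn (fun e => if e.1 ∈ Wset γ then
        (⟨if e.2 = true then (0, 1) else (1, 0), e.1⟩ : (_ : V2) × V2)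
      else ⟨if e.2 = true then (0, -1) else (-1, 0), tip e⟩)
    · intro e he
      have h2 : ind (Wset γ) e.1 + ind (Wset γ) (tip e) = 1 := by
        rw [← hcut e]; exact chi_eq_one.2 he
      simp only [Finset.coe_sigma, Set.mem_sigma_iff, Finset.mem_coe]
      by_cases h3 : e.1 ∈ Wset γ
      · rw [if_pos h3]
        have h4 : tip e ∉ Wset γ := by
          intro h5
          rw [ind_eq_one.2 h3, ind_eq_one.2 h5] at h2
          exact absurd h2 (by decide)
        rw [htip] at h4
        refine ⟨?_, ?_⟩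
        · unfold dirs; split_ifs <;> simp
        · rw [hN]
          simp only [Finset.mem_filter]
          exact ⟨hWB _ h3, h3, h4⟩
      · rw [if_neg h3]
        have h4 : tip e ∈ Wset γ := by
          by_contra h5
          rw [ind_eq_zero.2 h3, ind_eq_zero.2 h5] at h2
          exact absurd h2 (by decide)
        refine ⟨?_, ?_⟩
        · unfold dirs; split_ifs <;> simp
        · rw [hN]
          simp only [Finset.mem_filter]
          refine ⟨hWB _ h4, h4, ?_⟩
          have h5 : tip e + (if e.2 = true then ((0, -1) : V2) else (-1, 0)) = e.1 := by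
            rw [htip]; split_ifs <;> simp [Prod.ext_iff]
          rw [h5]
          exact h3
    · rintro ⟨⟨x, y⟩, c⟩ _ ⟨⟨x', y'⟩, c'⟩ _ h
      simp only at h
      by_cases h1 : (x, y) ∈ Wset γ <;> by_cases h2 : (x', y') ∈ Wset γ <;>
        cases c <;> cases c' <;>
        simp [h1, h2, tip] at h ⊢ <;> exact h
  by_contra hno
  push Not at hno
  have h2 : ∀ δ ∈ dirs, 4 * (N δ).card + 1 ≤ γ.card := fun δ hδ => hno δ hδ
  have h3 : dirs.card = 4 := by decide
  have h4 : ∑ δ ∈ dirs, (4 * (N δ).card + 1) ≤ ∑ _δ ∈ dirs, γ.card := Finset.sum_le_sum h2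
  rw [Finset.sum_add_distrib, ← Finset.mul_sum, Finset.sum_const, Finset.sum_const, h3] at h4
  simp only [smul_eq_mul, mul_one] at h4
  omega

end Pool.Agent.KCM6f5b46
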