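import Pool.Agent.KCM6f5b46.Uniqueness

open MeasureTheory Filter Topology
open scoped NNReal ENNReal Nat

namespace Pool.Agent.KCM6f5b46

variable {d : ℕ}

instance : BorelSpace (Config d) := inferInstance

lemma integrable_C (μ : Measure (Config d)) [IsFiniteMeasure μ] (f : C(Config d, ℝ)) :
    Integrable (fun η => f η) μ :=
  f.continuous.integrable_of_hasCompactSupport (HasCompactSupport.of_compactSpace _)

/-- Integration against a probability measure as a continuous linear functional. -/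
noncomputable def intCLM (μ : Measure (Config d)) [IsProbabilityMeasure μ] :
    C(Config d, ℝ) →L[ℝ] ℝ :=
  LinearMap.mkContinuous
    { toFun := fun f => ∫ η, f η ∂μ
      map_add' := fun f g => integral_add (integrable_C μ f) (integrable_C μ g)
      map_smul' := fun c f => integral_smul c _ } 1 (by
    intro f
    rw [one_mul]
    have h := norm_integral_le_of_norm_le_const (μ := μ) (f := fun η => f η) (C := ‖f‖)
      (Eventually.of_forall fun η => f.norm_coe_le_norm η)
    simpa using h)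

lemma intCLM_apply (μ : Measure (Config d)) [IsProbabilityMeasure μ] (f : C(Config d, ℝ)) :
    intCLM μ f = ∫ η, f η ∂μ := rfl

section bundle

variable {K : KCM d} {q : ℝ} {P : ℝ≥0 → Obs d → Obs d}

lemma IsSemigroup.map_add (h : IsSemigroup K q P) (t : ℝ≥0) (f g : C(Config d, ℝ)) :
    P t (f + g) = P t f + P t g := by
  ext η
  have := h.linear t 1 f g η
  rw [one_smul, one_mul] at this
  exact this

lemma IsSemigroup.map_zero (h : IsSemigroup K q P) (t : ℝ≥0) : P t 0 = 0 := by
  have := h.map_add t 0 0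
  rw [add_zero] at this
  simpa using this

lemma IsSemigroup.map_smul (h : IsSemigroup K q P) (t : ℝ≥0) (a : ℝ) (f : C(Config d, ℝ)) :
    P t (a • f) = a • P t f := by
  ext η
  have := h.linear t a f 0 η
  rw [h.map_zero, add_zero] at this
  simpa using this

lemma IsSemigroup.norm_le (h : IsSemigroup K q P) (t : ℝ≥0) (f : C(Config d, ℝ)) :
    ‖P t f‖ ≤ ‖f‖ := by
  rw [ContinuousMap.norm_le _ (norm_nonneg _)]
  intro η
  have h1 := h.nonneg t (‖f‖ • (1 : C(Config d, ℝ)) + (-1 : ℝ) • f) (fun ζ => by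
    have := (abs_le.1 (f.norm_coe_le_norm ζ)).2
    simpa using this) η
  have h2 := h.nonneg t (‖f‖ • (1 : C(Config d, ℝ)) + f) (fun ζ => by
    have := (abs_le.1 (f.norm_coe_le_norm ζ)).1
    have h3 : 0 ≤ ‖f‖ + f ζ := by linarith
    simpa using h3) η
  rw [h.linear, h.map_smul, ContinuousMap.smul_apply, h.one] at h1
  rw [h.linear, h.one] at h2
  simp only [smul_eq_mul] at h1
  rw [Real.norm_eq_abs, abs_le]
  constructor <;> linarith

/-- The bundled form of a semigroup. -/
noncomputable def IsSemigroup.bundle (h : IsSemigroup K q P) (t : ℝ≥0) :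
    C(Config d, ℝ) →L[ℝ] C(Config d, ℝ) :=
  LinearMap.mkContinuous
    { toFun := P t
      map_add' := h.map_add t
      map_smul' := h.map_smul t } 1 (fun f => by rw [one_mul]; exact h.norm_le t f)

lemma IsSemigroup.bundle_apply (h : IsSemigroup K q P) (t : ℝ≥0) (f : C(Config d, ℝ)) :
    h.bundle t f = P t f := rfl

lemma IsSemigroup.continuous' (h : IsSemigroup K q P) (f : C(Config d, ℝ)) :
    Continuous fun t => P t f := by
  have h0 : ∀ {s t : ℝ≥0}, s ≤ t → ‖P t f - P s f‖ ≤ ‖P (t - s) f - f‖ := by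
    intro s t hst
    have h1 : t = s + (t - s) := by rw [add_tsub_cancel_of_le hst]
    calc ‖P t f - P s f‖ = ‖P s (P (t - s) f + (-1 : ℝ) • f)‖ := by
          rw [h.map_add, h.map_smul, ← h.add, ← h1]
          simp [sub_eq_add_neg]
      _ ≤ ‖P (t - s) f + (-1 : ℝ) • f‖ := h.norm_le s _
      _ = _ := by simp [sub_eq_add_neg]
  rw [Metric.continuous_iff]
  intro s ε hε
  obtain ⟨δ, hδ, hc⟩ := h.continuous f (ε / 2) (by linarith)
  have hc' : ∀ t : ℝ≥0, t < δ → ‖P t f - f‖ < ε := by
    intro t ht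
    have : ‖P t f - f‖ ≤ ε / 2 := by
      rw [ContinuousMap.norm_le _ (by linarith)]
      intro η
      exact hc t ht η
    linarith
  have hδ' : (0 : ℝ) < δ := by exact_mod_cast hδ
  refine ⟨δ, hδ', fun t ht => ?_⟩
  rcases le_total s t with hst | hst
  · rw [dist_eq_norm]
    refine (h0 hst).trans_lt (hc' _ ?_)
    rw [NNReal.dist_eq] at ht
    rw [← NNReal.coe_lt_coe, NNReal.coe_sub hst]
    exact (le_abs_self _).trans_lt ht
  · rw [dist_comm, dist_eq_norm]
    refine (h0 hst).trans_lt (hc' _ ?_)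
    rw [NNReal.dist_eq, abs_sub_comm] at ht
    rw [← NNReal.coe_lt_coe, NNReal.coe_sub hst]
    exact (le_abs_self _).trans_lt ht

lemma IsSemigroup.isSemigroupB (h : IsSemigroup K q P) : IsSemigroupB K q h.bundle where
  zero := by ext1 f; exact h.zero f
  add s t := by ext1 f; exact h.add s t f
  one t := by ext η; exact h.one t η
  nonneg t f hf := by
    rw [ContinuousMap.le_def]
    intro η
    exact h.nonneg t f (fun ζ => hf ζ) η
  continuous := h.continuous'
  generator := by
    intro f g hf hg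
    rw [Metric.tendsto_nhds]
    intro ε hε
    obtain ⟨δ, hδ, hc⟩ := h.generator f hf (ε / 2) (by linarith)
    have h1 : ∀ᶠ t : ℝ≥0 in 𝓝[≠] 0, t < δ :=
      nhdsWithin_le_nhds (Iio_mem_nhds hδ)
    filter_upwards [h1, self_mem_nhdsWithin] with t ht ht0
    have ht0' : 0 < t := pos_iff_ne_zero.2 ht0
    rw [dist_eq_norm]
    have : ‖(t : ℝ)⁻¹ • (h.bundle t f - f) - g‖ ≤ ε / 2 := by
      rw [ContinuousMap.norm_le _ (by linarith)]
      intro η
      have h2 := hc t ht0' ht η
      rw [← hg η] at h2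
      rw [Real.norm_eq_abs]
      convert h2 using 2
      simp only [ContinuousMap.sub_apply, ContinuousMap.smul_apply, smul_eq_mul,
        h.bundle_apply]
      ring
    linarith

end bundle

/-- Existence of the semigroup. -/
theorem isSemigroup_Pinf (K : KCM d) {q : ℝ} (hq0 : 0 ≤ q) (hq1 : q ≤ 1) :
    IsSemigroup K q (fun t f => Pinf K hq0 hq1 t f) where
  linear t a f g := by simp
  zero := Pinf_zero K hq0 hq1
  add := Pinf_add K hq0 hq1
  one t η := by rw [Pinf_one]; rfl
  nonneg t f hf η := Pinf_nonneg K hq0 hq1 t f (fun ζ => hf ζ) η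
  continuous f ε hε := by
    obtain ⟨δ, hδ, h⟩ := Metric.tendsto_nhds_nhds.1 (tendsto_Pinf_zero K hq0 hq1 f) ε hε
    refine ⟨⟨δ, hδ.le⟩, by exact_mod_cast hδ, fun t ht η => ?_⟩
    have h1 : dist t 0 < δ := by
      rw [NNReal.dist_eq]
      have : (t : ℝ) < δ := by exact_mod_cast ht
      simpa using this
    have h2 := h h1
    rw [dist_eq_norm] at h2
    exact ((Pinf K hq0 hq1 t f - f).norm_coe_le_norm η).trans h2.le
  generator := by
    rintro f ⟨A, hA⟩ ε hε
    have h := tendsto_generator K hq0 hq1 hA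
    rw [Metric.tendsto_nhdsWithin_nhds] at h
    obtain ⟨δ, hδ, h⟩ := h ε hε
    refine ⟨⟨δ, hδ.le⟩, by exact_mod_cast hδ, fun t ht0 ht η => ?_⟩
    have h1 : dist t 0 < δ := by
      rw [NNReal.dist_eq]
      have : (t : ℝ) < δ := by exact_mod_cast ht
      simpa using this
    have h2 := h (x := t) (ne_of_gt ht0) h1
    rw [dist_eq_norm] at h2
    have h3 := (((t : ℝ)⁻¹ • (Pinf K hq0 hq1 t f - f) - Lfin K q A f).norm_coe_le_norm η).trans
      h2.le
    have h4 : (Pinf K hq0 hq1 t f η - f η) / t - gen K q f η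
        = ((t : ℝ)⁻¹ • (Pinf K hq0 hq1 t f - f) - Lfin K q A f) η := by
      rw [gen_eq K hA]
      simp only [ContinuousMap.sub_apply, ContinuousMap.smul_apply, smul_eq_mul]
      ring
    rw [h4]
    exact h3

/-- The semigroup of a KCM exists and is unique. -/
theorem existsUnique_isSemigroup (K : KCM d) {q : ℝ} (hq0 : 0 ≤ q) (hq1 : q ≤ 1) :
    ∃! P, IsSemigroup K q P := by
  refine ⟨fun t f => Pinf K hq0 hq1 t f, isSemigroup_Pinf K hq0 hq1, fun P hP => ?_⟩
  have h := hP.isSemigroupB.eq_Pinf hq0 hq1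
  funext t f
  rw [← h]
  rfl

theorem isStationary_of_balance (K : KCM d) {q : ℝ} (hq0 : 0 ≤ q) (hq1 : q ≤ 1)
    (μ : Measure (Config d)) [IsProbabilityMeasure μ]
    (h : ∀ x (f : C(Config d, ℝ)), ∫ η, Lsite K q x f η ∂μ = 0) :
    IsStationary K q μ := by
  refine ⟨fun t f => Pinf K hq0 hq1 t f, isSemigroup_Pinf K hq0 hq1, fun t f => ?_⟩
  have h1 : ∀ (Λ : Finset (Site d)) (f : C(Config d, ℝ)), intCLM μ (Lfin K q Λ f) = 0 := by
    intro Λ f
    rw [Lfin_eq_sum, map_sum]
    exact Finset.sum_eq_zero fun x _ => h x f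
  have h2 : ∀ (Λ : Finset (Site d)) (t : ℝ), intCLM μ (Pfin K q Λ t f) = intCLM μ f := by
    intro Λ t
    have hd : ∀ s, HasDerivAt (fun s => intCLM μ (Pfin K q Λ s f)) 0 s := by
      intro s
      have := (intCLM μ).hasFDerivAt.comp_hasDerivAt s (hasDerivAt_Pfin' K q Λ s f)
      rw [h1] at this
      exact this
    have h3 := is_const_of_deriv_eq_zero (fun s => (hd s).differentiableAt)
      (fun s => (hd s).deriv) t 0
    rw [h3, Pfin_zero]
  have h3 := ((intCLM μ).continuous.tendsto _).comp (tendsto_Pinf K hq0 hq1 t f)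
  have h4 : Tendsto (fun _ : ℕ => intCLM μ f) atTop (𝓝 (intCLM μ (Pinf K hq0 hq1 t f))) := by
    refine h3.congr fun L => ?_
    simp only [Function.comp, h2]
  exact (tendsto_nhds_unique h4 tendsto_const_nhds)

end Pool.Agent.KCM6f5b46
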