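import Pool.Agent.KCM6f5b46.Semigroup

open MeasureTheory Filter Topology
open scoped NNReal ENNReal Nat

namespace Pool.Agent.KCM6f5b46

variable {d : ℕ}

section

variable (K : KCM d) {q : ℝ}

lemma Lfin_dependsOn_same {f : C(Config d, ℝ)} {B : Finset (Site d)} (hf : DependsOn f B)
    {Λ : Finset (Site d)} (hΛ : ∀ x ∈ Λ, nearF (max K.range 0) x ⊆ B) :
    DependsOn (Lfin K q Λ f) B := by
  intro η ζ h
  rw [Lfin_apply, Lfin_apply]
  apply Finset.sum_congr rfl
  intro x hx
  have h1 : rateC K q x η = rateC K q x ζ := by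
    apply flipRate_dependsOn K q x
    intro y hy
    apply h
    exact hΛ x hx hy
  have h2 : f η = f ζ := hf h
  have h3 : f (flipAt x η) = f (flipAt x ζ) := by
    apply hf
    intro y hy
    have hy2 : η y = ζ y := h y hy
    by_cases hyx : y = x
    · subst hyx
      rw [flipAt_apply_self, flipAt_apply_self, hy2]
    · rw [flipAt_apply_ne hyx, flipAt_apply_ne hyx, hy2]
  rw [h1, h2, h3]

lemma Pfin_dependsOn {f : C(Config d, ℝ)} {B : Finset (Site d)} (hf : DependsOn f B)
    {Λ : Finset (Site d)} (hΛ : ∀ x ∈ Λ, nearF (max K.range 0) x ⊆ B) {t : ℝ} (ht : 0 ≤ t) :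
    DependsOn (Pfin K q Λ t f) B := by
  have hpow : ∀ n : ℕ, DependsOn (((Lfin K q Λ + (0 : ℝ) •
      (1 : C(Config d, ℝ) →L[ℝ] C(Config d, ℝ))) ^ n) f) B := by
    intro n
    induction n with
    | zero => exact hf
    | succ n ih =>
      rw [pow_succ']
      have h1 := Lfin_dependsOn_same K (q := q) ih hΛ
      intro η ζ h
      have h2 := h1 h
      have h3 : ∀ g : C(Config d, ℝ), (Lfin K q Λ + (0 : ℝ) •
        (1 : C(Config d, ℝ) →L[ℝ] C(Config d, ℝ))) g = Lfin K q Λ g := by
        intro g; simp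
      change ((Lfin K q Λ + (0 : ℝ) • (1 : C(Config d, ℝ) →L[ℝ] C(Config d, ℝ))) _) η
        = ((Lfin K q Λ + (0 : ℝ) • (1 : C(Config d, ℝ) →L[ℝ] C(Config d, ℝ))) _) ζ
      rw [h3]
      exact h2
  intro η ζ h
  have h1 := functional_expOp_nonneg (ContinuousMap.evalCLM ℝ η - ContinuousMap.evalCLM ℝ ζ)
    (Lfin K q Λ) 0 (f := f) (fun n => by
      have := hpow n h
      simp only [sub_apply, ContinuousMap.evalCLM_apply]
      rw [this, sub_self]) ht
  have h2 := functional_expOp_nonneg (ContinuousMap.evalCLM ℝ ζ - ContinuousMap.evalCLM ℝ η)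
    (Lfin K q Λ) 0 (f := f) (fun n => by
      have := hpow n h
      simp only [sub_apply, ContinuousMap.evalCLM_apply]
      rw [this, sub_self]) ht
  simp only [sub_apply, ContinuousMap.evalCLM_apply] at h1 h2
  unfold Pfin
  linarith

variable {K}
variable {Q : ℝ≥0 → C(Config d, ℝ) →L[ℝ] C(Config d, ℝ)}

lemma IsSemigroupB.norm_le (hQ : IsSemigroupB K q Q) (t : ℝ≥0) (f : C(Config d, ℝ)) :
    ‖Q t f‖ ≤ ‖f‖ := by
  rw [ContinuousMap.norm_le _ (norm_nonneg _)]
  intro η
  have h1 : (0 : C(Config d, ℝ)) ≤ ‖f‖ • (1 : C(Config d, ℝ)) - f := by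
    rw [ContinuousMap.le_def]; intro ζ
    have := (abs_le.1 (f.norm_coe_le_norm ζ)).2
    simpa using this
  have h2 : (0 : C(Config d, ℝ)) ≤ ‖f‖ • (1 : C(Config d, ℝ)) + f := by
    rw [ContinuousMap.le_def]; intro ζ
    have := (abs_le.1 (f.norm_coe_le_norm ζ)).1
    have h3 : 0 ≤ ‖f‖ + f ζ := by linarith
    simpa using h3
  have h3 := hQ.nonneg t _ h1 η
  have h4 := hQ.nonneg t _ h2 η
  rw [map_sub, map_smul, hQ.one] at h3
  rw [map_add, map_smul, hQ.one] at h4
  simp at h3 h4
  rw [Real.norm_eq_abs, abs_le]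
  constructor <;> linarith

lemma IsSemigroupB.tendsto_apply (hQ : IsSemigroupB K q Q) {ι : Type*} {l : Filter ι}
    {s : ι → ℝ≥0} {s₀ : ℝ≥0} (hs : Tendsto s l (𝓝 s₀)) {v : ι → C(Config d, ℝ)}
    {v₀ : C(Config d, ℝ)} (hv : Tendsto v l (𝓝 v₀)) :
    Tendsto (fun i => Q (s i) (v i)) l (𝓝 (Q s₀ v₀)) := by
  have h1 : Tendsto (fun i => Q (s i) v₀) l (𝓝 (Q s₀ v₀)) :=
    ((hQ.continuous v₀).tendsto s₀).comp hs
  have h2 : Tendsto (fun i => Q (s i) (v i - v₀)) l (𝓝 0) := by
    have h3 := hv.sub_const v₀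
    rw [sub_self] at h3
    exact squeeze_zero_norm (fun i => hQ.norm_le (s i) (v i - v₀))
      (tendsto_zero_iff_norm_tendsto_zero.1 h3)
  have h4 := h2.add h1
  simpa using h4

lemma IsSemigroupB.hasDeriv_comp (hQ : IsSemigroupB K q Q) {g : ℝ → C(Config d, ℝ)}
    {g' : C(Config d, ℝ)} {s : ℝ} (hs : 0 ≤ s) (hg : HasDerivAt g g' s)
    {B : Finset (Site d)} (hB : DependsOn (g s) B) :
    HasDerivWithinAt (fun r : ℝ => Q r.toNNReal (g r)) (Q s.toNNReal (Lfin K q B (g s) + g'))
      (Set.Ici s) s := by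
  rw [hasDerivWithinAt_iff_tendsto_slope, Set.Ici_sdiff_left]
  have h1 : Tendsto (fun r : ℝ => (r - s).toNNReal) (𝓝[>] s) (𝓝[≠] 0) := by
    rw [tendsto_nhdsWithin_iff]
    constructor
    · have : Tendsto (fun r : ℝ => (r - s).toNNReal) (𝓝 s) (𝓝 (s - s).toNNReal) := by
        apply Continuous.tendsto (by fun_prop)
      rw [sub_self, Real.toNNReal_zero] at this
      exact this.mono_left nhdsWithin_le_nhds
    · filter_upwards [self_mem_nhdsWithin] with r hr
      have : s < r := hr
      simpa using this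
  have h2 := (hQ.generator (g s) (Lfin K q B (g s)) ⟨B, hB⟩
    (fun η => (gen_eq K hB η).symm)).comp h1
  have h3 : Tendsto (fun r : ℝ => Q (r - s).toNNReal (slope g s r)) (𝓝[>] s) (𝓝 (Q 0 g')) := by
    apply hQ.tendsto_apply (h1.mono_right nhdsWithin_le_nhds)
    have := hasDerivAt_iff_tendsto_slope.1 hg
    exact this.mono_left (nhdsWithin_mono _ (fun r hr => (ne_of_gt hr : r ≠ s)))
  have h4 := ((Q s.toNNReal).continuous.tendsto _).comp (h2.add h3)
  rw [hQ.zero] at h4
  refine h4.congr' ?_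
  filter_upwards [self_mem_nhdsWithin] with r hr
  have hr' : s < r := hr
  have hrs : r.toNNReal = s.toNNReal + (r - s).toNNReal := by
    rw [← Real.toNNReal_add hs (by linarith)]; congr 1; ring
  have hco : (((r - s).toNNReal : ℝ≥0) : ℝ) = r - s := Real.coe_toNNReal _ (by linarith)
  simp only [Function.comp]
  rw [slope_def_module, slope_def_module, hrs, hQ.add, hco]
  simp only [ContinuousLinearMap.comp_apply, map_add, map_smul, map_sub, smul_sub]
  abel

theorem IsSemigroupB.eq_Pinf (hq0 : 0 ≤ q) (hq1 : q ≤ 1) (hQ : IsSemigroupB K q Q) :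
    Q = Pinf K hq0 hq1 := by
  classical
  -- local functions first
  have hloc : ∀ (t : ℝ≥0) (f : C(Config d, ℝ)), IsLocal (f : Config d → ℝ) →
      Q t f = Pinf K hq0 hq1 t f := by
    rintro t f ⟨A, hA⟩
    have hb := bound_nonneg K
    have hbound : ∀ L : ℕ, ‖Q t f - Pfin K q (boxF d L) t f‖
        ≤ K.bound * Real.exp (-L) * (Real.exp (t * cst K) * wSem A f) * t := by
      intro L
      set B : Finset (Site d) := A ∪ (boxF d L).biUnion fun x => nearF (max K.range 0) x with hBdef
      have hBA : DependsOn f B := hA.mono (by intro x hx; simp [hBdef, Finset.mem_coe.1 hx])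
      have hBn : ∀ x ∈ boxF d L, nearF (max K.range 0) x ⊆ B := by
        intro x hx y hy
        rw [hBdef, Finset.mem_union, Finset.mem_biUnion]
        exact Or.inr ⟨x, hx, hy⟩
      have hBb : boxF d L ⊆ B := by
        intro x hx
        exact hBn x hx (by rw [mem_nearF]; simp)
      have hdep : ∀ s, 0 ≤ s → DependsOn (Pfin K q (boxF d L) s f) B := fun s hs =>
        Pfin_dependsOn K hBA hBn hs
      have hgd : ∀ s : ℝ, HasDerivAt (fun r : ℝ => Pfin K q (boxF d L) (t - r) f)
          (-(Lfin K q (boxF d L) (Pfin K q (boxF d L) (t - s) f))) s := by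
        intro s
        have h3 : HasDerivAt (fun s : ℝ => (t : ℝ) - s) (-1) s := by
          simpa using (hasDerivAt_id s).const_sub (t : ℝ)
        have := (hasDerivAt_Pfin' K q (boxF d L) (t - s) f).scomp s h3
        rw [neg_smul, one_smul] at this
        exact this
      have key := norm_image_sub_le_of_norm_deriv_right_le_segment
        (f := fun r : ℝ => Q r.toNNReal (Pfin K q (boxF d L) (t - r) f))
        (f' := fun s => Q s.toNNReal (Lfin K q B (Pfin K q (boxF d L) (t - s) f)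
          + -(Lfin K q (boxF d L) (Pfin K q (boxF d L) (t - s) f))))
        (a := 0) (b := t)
        (C := K.bound * Real.exp (-L) * (Real.exp (t * cst K) * wSem A f)) ?_ ?_ ?_ t
        ⟨t.2, le_refl _⟩
      · simp only [sub_self, Pfin_zero, Real.toNNReal_coe, Real.toNNReal_zero, sub_zero,
          hQ.zero, ContinuousLinearMap.id_apply] at key
        exact key
      · apply Continuous.continuousOn
        rw [continuous_iff_continuousAt]
        intro s
        apply hQ.tendsto_apply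
        · exact continuous_real_toNNReal.tendsto s
        · exact (hgd s).continuousAt.tendsto
      · intro s hs
        exact hQ.hasDeriv_comp hs.1 (hgd s) (hdep _ (by linarith [hs.2]))
      · intro s hs
        refine (hQ.norm_le _ _).trans ?_
        rw [← sub_eq_add_neg]
        exact norm_Lfin_sub_le K hq0 hq1 (L := L) (Finset.Subset.refl _) hBb hA
          (by linarith [hs.2]) (by linarith [hs.1])
    have h1 : Tendsto (fun L : ℕ => K.bound * Real.exp (-L) *
        (Real.exp (t * cst K) * wSem A f) * t) atTop (𝓝 0) := by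
      have h1 : Tendsto (fun L : ℕ => Real.exp (-(L : ℝ))) atTop (𝓝 0) :=
        Real.tendsto_exp_neg_atTop_nhds_zero.comp tendsto_natCast_atTop_atTop
      have h2 := (((h1.const_mul K.bound).mul_const (Real.exp (t * cst K) * wSem A f)).mul_const
        (t : ℝ))
      simpa using h2
    have h2 : Tendsto (fun L : ℕ => Q t f - Pfin K q (boxF d L) t f) atTop (𝓝 0) :=
      squeeze_zero_norm hbound h1
    have h3 : Tendsto (fun L : ℕ => Pfin K q (boxF d L) t f) atTop (𝓝 (Q t f)) := by
      have := (tendsto_const_nhds (x := Q t f)).sub h2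
      simpa using this
    exact tendsto_nhds_unique h3 (tendsto_Pinf K hq0 hq1 t f)
  funext t
  ext1 f
  rw [← sub_eq_zero, ← norm_le_zero_iff]
  refine le_of_forall_pos_lt_add fun ε hε => ?_
  obtain ⟨g, hg, hfg⟩ := exists_local_near f (show 0 < ε / 2 by linarith)
  have h1 := hQ.norm_le t (f - g)
  have h2 := norm_Pinf_le K hq0 hq1 t (f - g)
  have h3 := hloc t g hg
  calc ‖Q t f - Pinf K hq0 hq1 t f‖
      = ‖Q t (f - g) - Pinf K hq0 hq1 t (f - g)‖ := by
        rw [map_sub, map_sub, h3]; congr 1; abel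
    _ ≤ ‖Q t (f - g)‖ + ‖Pinf K hq0 hq1 t (f - g)‖ := norm_sub_le _ _
    _ < 0 + ε := by linarith

/-- The semigroup of a KCM exists and is unique. -/
theorem existsUnique_isSemigroupB (K : KCM d) (hq0 : 0 ≤ q) (hq1 : q ≤ 1) :
    ∃! P, IsSemigroupB K q P :=
  ⟨Pinf K hq0 hq1, isSemigroupB_Pinf K hq0 hq1, fun _ hQ => hQ.eq_Pinf hq0 hq1⟩

end

end Pool.Agent.KCM6f5b46
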